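import Mathlib

/-!
Uniform finiteness for the field of Laurent series over a prime field: definitions.
-/

set_option autoImplicit false

namespace Pool.Agent.W877.UF

/-- The field of formal Laurent series over the prime field with `p` elements. -/
abbrev K (p : ℕ) [Fact p.Prime] : Type := LaurentSeries (ZMod p)

/-- Ring terms with variables indexed by natural numbers. -/
inductive Tm : Type
  | var (n : ℕ) : Tm
  | zero : Tm
  | one : Tm
  | neg (a : Tm) : Tm
  | add (a b : Tm) : Tm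
  | mul (a b : Tm) : Tm

/-- First-order formulas in the language of valued fields (ring operations and the predicate
`val` for the valuation ring) with further relation symbols `rel k`, of any arity. -/
inductive Fm : Type
  | eq (a b : Tm) : Fm
  | val (a : Tm) : Fm
  | rel (k : ℕ) (l : List Tm) : Fm
  | not (φ : Fm) : Fm
  | and (φ ψ : Fm) : Fm
  | ex (n : ℕ) (φ : Fm) : Fm

/-- The variables of a term. -/
def Tm.vars : Tm → Set ℕ
  | .var n => {n}
  | .zero => ∅
  | .one => ∅
  | .neg a => a.vars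
  | .add a b => a.vars ∪ b.vars
  | .mul a b => a.vars ∪ b.vars

/-- The free variables of a formula. -/
def Fm.fv : Fm → Set ℕ
  | .eq a b => a.vars ∪ b.vars
  | .val a => a.vars
  | .rel _ l => {n | ∃ a ∈ l, n ∈ a.vars}
  | .not φ => φ.fv
  | .and φ ψ => φ.fv ∪ ψ.fv
  | .ex n φ => φ.fv \ {n}

/-- The relation symbols (with their arities) used in a formula. -/
def Fm.syms : Fm → Set (ℕ × ℕ)
  | .eq _ _ => ∅
  | .val _ => ∅
  | .rel k l => {(k, l.length)}
  | .not φ => φ.syms
  | .and φ ψ => φ.syms ∪ ψ.syms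
  | .ex _ φ => φ.syms

/-- Goedel number of a term. -/
def Tm.code : Tm → ℕ
  | .var n => Nat.pair 0 n
  | .zero => Nat.pair 1 0
  | .one => Nat.pair 2 0
  | .neg a => Nat.pair 3 a.code
  | .add a b => Nat.pair 4 (Nat.pair a.code b.code)
  | .mul a b => Nat.pair 5 (Nat.pair a.code b.code)

/-- Goedel number of a formula. -/
def Fm.code : Fm → ℕ
  | .eq a b => Nat.pair 0 (Nat.pair a.code b.code)
  | .val a => Nat.pair 1 a.code
  | .rel k l => Nat.pair 2 (Nat.pair k (Encodable.encode (l.map Tm.code)))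
  | .not φ => Nat.pair 3 φ.code
  | .and φ ψ => Nat.pair 4 (Nat.pair φ.code ψ.code)
  | .ex n φ => Nat.pair 5 (Nat.pair n φ.code)

section
variable {p : ℕ} [Fact p.Prime]

/-- Membership in the valuation ring (the formal power series). -/
def InO (x : K p) : Prop := ∀ n : ℤ, n < 0 → x.coeff n = 0

/-- Value of a term under an assignment. -/
noncomputable def Tm.ev (s : ℕ → K p) : Tm → K p
  | .var n => s n
  | .zero => 0
  | .one => 1
  | .neg a => - a.ev s
  | .add a b => a.ev s + b.ev s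
  | .mul a b => a.ev s * b.ev s

/-- Satisfaction of a formula under an assignment, where `I` interprets the further relation
symbols. -/
def Fm.Sat (I : ℕ → List (K p) → Prop) : Fm → (ℕ → K p) → Prop
  | .eq a b, s => a.ev s = b.ev s
  | .val a, s => InO (a.ev s)
  | .rel k l, s => I k (l.map (Tm.ev s))
  | .not φ, s => ¬ φ.Sat I s
  | .and φ ψ, s => φ.Sat I s ∧ ψ.Sat I s
  | .ex n φ, s => ∃ x, φ.Sat I (Function.update s n x)

/-- The theory of the expansion of the valued field by the relations `I`, in the language whose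
further symbols are those of `Sg` (pairs symbol, arity), is decidable. -/
def DecidableTheory (I : ℕ → List (K p) → Prop) (Sg : Set (ℕ × ℕ)) : Prop :=
  ∃ f : ℕ → Bool, Computable f ∧
    ∀ φ : Fm, φ.fv = ∅ → φ.syms ⊆ Sg → (f φ.code = true ↔ φ.Sat I (fun _ => 0))

/-- `x` is an isolated point of `D`. -/
def Isolated (D : K p → Prop) (x : K p) : Prop :=
  D x ∧ ∃ k : ℤ, ∀ x', D x' → (∀ i : ℤ, i < k → x'.coeff i = x.coeff i) → x' = x

/-- Definability of a relation in the context of the variables below `m`. -/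
def DD (I : ℕ → List (K p) → Prop) (Sg : Set (ℕ × ℕ)) (m : ℕ)
    (P : (Fin m → K p) → Prop) : Prop :=
  ∃ φ : Fm, (∀ i ∈ φ.fv, i < m) ∧ φ.syms ⊆ Sg ∧
    ∀ s : ℕ → K p, φ.Sat I s ↔ P (fun i => s i)

/-- The function is given by a term in the variables below `m`. -/
def TT (m : ℕ) (f : (Fin m → K p) → K p) : Prop :=
  ∃ a : Tm, (∀ i ∈ a.vars, i < m) ∧ ∀ s : ℕ → K p, a.ev s = f (fun i => s i)

/-- The subgroups `z^p - z + t y₁^p + ... + t^k y_k^p`. -/
def HR (t : K p) : ℕ → K p → Prop
  | 0, x => ∃ z, x = z ^ p - z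
  | k + 1, x => ∃ y, HR t k (x - t ^ (k + 1) * y ^ p)

/-- The subgroup of index `p`. -/
def H (t : K p) (x : K p) : Prop := HR t (p - 1) x

/-- The condition that `H t` is a complement of the prime field. -/
def Good (t : K p) : Prop := ¬ H t 1 ∧ ∀ x, ∃ k : ℕ, k < p ∧ H t (x - (k : K p))

/-- The coded sets. -/
def Th (t c y b : K p) : Prop := ∃ u, u * (b - c) = y ∧ ¬ H t u

/-- The pairing function. -/
noncomputable def J (t a b : K p) : K p := a ^ p + t * b ^ p

/-- The points of `D` of size at most `m⁻¹` and isolated at scale `n`. -/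
def BB (D : K p → Prop) (m n x : K p) : Prop :=
  D x ∧ InO (m * x) ∧ ∀ x', D x' → x' ≠ x → ∃ u, InO u ∧ u * (x - x') = n

end

/-- A structure for bounded arithmetic. -/
structure Ar (X : Type) where
  B : X → Prop
  z : X
  s : X → X → Prop
  A : X → X → X → Prop
  M : X → X → X → Prop

/-- The axioms. -/
def Ar.Ax {X : Type} (R : Ar X) : Prop :=
  R.B R.z ∧ (∀ x, R.B x → ¬ R.s x R.z) ∧
  (∀ x x' y, R.B x → R.B x' → R.B y → R.s x y → R.s x' y → x = x') ∧
  (∀ x w, R.B x → R.B w → R.A x R.z w → w = x) ∧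
  (∀ x y y' w', R.B x → R.B y → R.B y' → R.B w' → R.s y y' → R.A x y' w' →
    ∃ w, R.B w ∧ R.A x y w ∧ R.s w w') ∧
  (∀ x w, R.B x → R.B w → R.M x R.z w → w = R.z) ∧
  (∀ x y y' w', R.B x → R.B y → R.B y' → R.B w' → R.s y y' → R.M x y' w' →
    ∃ w, R.B w ∧ R.M x y w ∧ R.A w x w')

/-- Induction. -/
def Ar.Ind {X : Type} (R : Ar X) : Prop :=
  ∀ Z : X → Prop, Z R.z → (∀ x x', R.B x → R.B x' → Z x → R.s x x' → Z x') → ∀ x, R.B x → Z x

/-- Arithmetical circuits. -/
inductive Circ (V : Type) : Type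
  | var (i : V) : Circ V
  | zero : Circ V
  | succ (c : Circ V) : Circ V
  | add (c d : Circ V) : Circ V
  | mul (c d : Circ V) : Circ V

/-- Value of a circuit. -/
def Circ.ev {V : Type} (v : V → ℕ) : Circ V → ℕ
  | .var i => v i
  | .zero => 0
  | .succ c => c.ev v + 1
  | .add c d => c.ev v + d.ev v
  | .mul c d => c.ev v * d.ev v

/-- The circuit evaluated in the structure. -/
def Ar.Val {X V : Type} (R : Ar X) (x : V → X) : Circ V → X → Prop
  | .var i, a => a = x i
  | .zero, a => a = R.z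
  | .succ c, a => ∃ a', R.B a' ∧ R.Val x c a' ∧ R.s a' a
  | .add c d, a => ∃ a₁ a₂, R.B a₁ ∧ R.B a₂ ∧ R.Val x c a₁ ∧ R.Val x d a₂ ∧ R.A a₁ a₂ a
  | .mul c d, a => ∃ a₁ a₂, R.B a₁ ∧ R.B a₂ ∧ R.Val x c a₁ ∧ R.Val x d a₂ ∧ R.M a₁ a₂ a

/-- The system has a solution in the structure with first coordinate `a`. -/
def Ar.Sol {X : Type} (R : Ar X) (d : ℕ) (L : List (Circ (Fin (d + 1)) × Circ (Fin (d + 1))))
    (a : X) : Prop :=
  ∃ x : Fin d → X, (∀ i, R.B (x i)) ∧
    ∀ q ∈ L, ∃ b, R.B b ∧ R.Val (Fin.cons a x) q.1 b ∧ R.Val (Fin.cons a x) q.2 b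

end Pool.Agent.W877.UF
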