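import Mathlib
import Pool.Agent.W877.UF.Defs

/-!
Statements of the parts of the proof (project UF).
-/

set_option autoImplicit false

namespace Pool.Agent.W877.UF

section
variable (p : ℕ) [Fact p.Prime]

/-- The uniformiser. -/
noncomputable def TT0 : K p := HahnSeries.single (1 : ℤ) (1 : ZMod p)

/-- UF-GRP -/
def StmGrp : Prop := ∀ t : K p, ∃ G : AddSubgroup (K p), ∀ x, x ∈ G ↔ H t x

/-- UF-PTH: the coefficients of a `p`-th power. -/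
def StmPth : Prop := ∀ (y : K p) (n : ℤ),
  (y ^ p).coeff ((p : ℤ) * n) = y.coeff n ∧
    ∀ i : ℤ, 0 < i → i < p → (y ^ p).coeff ((p : ℤ) * n + i) = 0

/-- UF-AS: series of positive order are of the form `z ^ p - z`. -/
def StmAS : Prop := ∀ x : K p, (∀ n : ℤ, n ≤ 0 → x.coeff n = 0) → ∃ z : K p, x = z ^ p - z

/-- UF-DEC: decomposition along the `p`-basis. -/
def StmDec : Prop := ∀ x : K p, ∃ y : ℕ → K p,
  x = ∑ i ∈ Finset.range p, TT0 p ^ i * y i ^ p ∧ ∀ n : ℤ, (y 0).coeff n = x.coeff ((p : ℤ) * n)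

/-- UF-GOOD -/
def StmGood : Prop := Good (TT0 p)

/-- UF-JINJ -/
def StmJinj : Prop := ∀ a b a' b' : K p, J (TT0 p) a b = J (TT0 p) a' b' → a = a' ∧ b = b'

/-- UF-COD: every subset of every finite set is coded. -/
def StmCod : Prop := ∀ G : AddSubgroup (K p), (1 : K p) ∉ G →
  (∀ x, ∃ k : ℕ, k < p ∧ x - (k : K p) ∈ G) →
  ∀ (B : Finset (K p)) (S : Set (K p)), ∃ c y : K p, ∀ b ∈ B,
    (b ∈ S ↔ ∃ u, u * (b - c) = y ∧ u ∉ G)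

/-- UF-FIN -/
def StmFin : Prop := ∀ (D : K p → Prop) (m n : K p), m ≠ 0 → n ≠ 0 → {x | BB D m n x}.Finite

/-- UF-BIG -/
def StmBig : Prop := ∀ (D : K p → Prop) (F : Finset (K p)), (∀ x ∈ F, Isolated D x) →
  ∃ m n : K p, m ≠ 0 ∧ n ≠ 0 ∧ ∀ x ∈ F, BB D m n x

end

/-- UF-SND -/
def StmSnd : Prop := ∀ (X : Type) (R : Ar X), R.Ax → R.Ind → ∃ ν : X → ℕ,
  (∀ x y, R.B x → R.B y → R.s x y → ν y = ν x + 1) ∧ ν R.z = 0 ∧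
  ∀ (d : ℕ) (L : List (Circ (Fin (d + 1)) × Circ (Fin (d + 1)))) (a : X), R.B a →
    R.Sol d L a → ∃ v : Fin (d + 1) → ℕ, v 0 = ν a ∧ ∀ q ∈ L, q.1.ev v = q.2.ev v

/-- The true structure on an initial segment, enumerated by `β`. -/
def IsTrue {X : Type} (R : Ar X) (N : ℕ) (β : ℕ → X) : Prop :=
  (∀ i j, i ≤ N → j ≤ N → β i = β j → i = j) ∧
  (∀ x, R.B x ↔ ∃ i ≤ N, x = β i) ∧ R.z = β 0 ∧
  (∀ i j, i ≤ N → j ≤ N → (R.s (β i) (β j) ↔ j = i + 1)) ∧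
  (∀ i j k, i ≤ N → j ≤ N → k ≤ N → (R.A (β i) (β j) (β k) ↔ k = i + j)) ∧
  (∀ i j k, i ≤ N → j ≤ N → k ≤ N → (R.M (β i) (β j) (β k) ↔ k = i * j))

/-- UF-CPL -/
def StmCpl : Prop := ∀ (d : ℕ) (L : List (Circ (Fin (d + 1)) × Circ (Fin (d + 1))))
  (v : Fin (d + 1) → ℕ), (∀ q ∈ L, q.1.ev v = q.2.ev v) → ∃ N₀ : ℕ, ∀ N : ℕ, N₀ ≤ N →
    ∀ (X : Type) (R : Ar X) (β : ℕ → X), IsTrue R N β →
      R.Ax ∧ R.Ind ∧ v 0 ≤ N ∧ R.Sol d L (β (v 0))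

/-- UF-DPRM -/
def StmDprm : Prop := ∃ S : ℕ → Prop, ¬ ComputablePred S ∧
  ∃ (d : ℕ) (L : List (Circ (Fin (d + 1)) × Circ (Fin (d + 1)))),
    ∀ n, S n ↔ ∃ v : Fin (d + 1) → ℕ, v 0 = n ∧ ∀ q ∈ L, q.1.ev v = q.2.ev v

/-- The formula saying that the `e`-th successor of variable `M` satisfies `Φ`. -/
def chi (M : ℕ) (Sc Φ : Fm) : ℕ → Fm
  | 0 => Φ
  | e + 1 => .ex (M + 1) (.and Sc (.ex M (.and (.eq (.var M) (.var (M + 1))) (chi M Sc Φ e))))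

/-- Existential quantification of the variables below `k`. -/
def exs : ℕ → Fm → Fm
  | 0, φ => φ
  | k + 1, φ => exs k (.ex k φ)

/-- The sentence attached to `e`. -/
def fin (M : ℕ) (St Ze Sc Φ : Fm) (e : ℕ) : Fm :=
  exs M (.and St (.ex M (.and Ze (chi M Sc Φ e))))

/-- UF-CMP -/
def StmCmp : Prop := ∀ (M : ℕ) (St Ze Sc Φ : Fm), Computable (fun e => (fin M St Ze Sc Φ e).code)

/-- UF-FV -/
def StmFv : Prop := ∀ (M : ℕ) (St Ze Sc Φ : Fm) (Sg : Set (ℕ × ℕ)),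
  (∀ i ∈ St.fv, i < M) → (∀ i ∈ Ze.fv, i < M + 1) → (∀ i ∈ Sc.fv, i < M + 2) →
  (∀ i ∈ Φ.fv, i < M + 1) → St.syms ⊆ Sg → Ze.syms ⊆ Sg → Sc.syms ⊆ Sg → Φ.syms ⊆ Sg →
  ∀ e, (fin M St Ze Sc Φ e).fv = ∅ ∧ (fin M St Ze Sc Φ e).syms ⊆ Sg

/-- UF-SAT: the meaning of the sentence. -/
def StmSat (p : ℕ) [Fact p.Prime] : Prop := ∀ (I : ℕ → List (K p) → Prop)
  (M : ℕ) (St Ze Sc Φ : Fm)
  (st : (Fin M → K p) → Prop) (ze ph : (Fin M → K p) → K p → Prop)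
  (sc : (Fin M → K p) → K p → K p → Prop),
  (∀ s : ℕ → K p, St.Sat I s ↔ st (fun i => s i)) →
  (∀ s : ℕ → K p, Ze.Sat I s ↔ ze (fun i => s i) (s M)) →
  (∀ s : ℕ → K p, Φ.Sat I s ↔ ph (fun i => s i) (s M)) →
  (∀ s : ℕ → K p, Sc.Sat I s ↔ sc (fun i => s i) (s M) (s (M + 1))) →
  ∀ (e : ℕ) (s : ℕ → K p), (fin M St Ze Sc Φ e).Sat I s ↔
    ∃ v : Fin M → K p, st v ∧ ∃ a : ℕ → K p, ze v (a 0) ∧
      (∀ i < e, sc v (a i) (a (i + 1))) ∧ ph v (a e)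

end Pool.Agent.W877.UF
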