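import Mathlib
import Pool.Agent.W877.UF.Stm

/-!
Statements of the parts of the proof (project UF), second file.
-/

set_option autoImplicit false

namespace Pool.Agent.W877.UF

section
variable {p : ℕ} [Fact p.Prime]

/-- The structure coded by ten parameters on a definable set. -/
noncomputable def Rc (D : K p → Prop) (q : Fin 10 → K p) : Ar (K p) where
  B := BB D (q 1) (q 2)
  z := q 3
  s x y := Th (q 0) (q 4) (q 5) (J (q 0) x y)
  A x y w := Th (q 0) (q 6) (q 7) (J (q 0) x (J (q 0) y w))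
  M x y w := Th (q 0) (q 8) (q 9) (J (q 0) x (J (q 0) y w))

/-- Induction over the coded sets. -/
def IndC (t : K p) (R : Ar (K p)) : Prop :=
  ∀ c y : K p, Th t c y R.z →
    (∀ x x', R.B x → R.B x' → Th t c y x → R.s x x' → Th t c y x') → ∀ x, R.B x → Th t c y x

/-- The condition on the ten parameters. -/
def StC (D : K p → Prop) (q : Fin 10 → K p) : Prop :=
  Good (q 0) ∧ q 1 ≠ 0 ∧ q 2 ≠ 0 ∧ (Rc D q).Ax ∧ IndC (q 0) (Rc D q)

end

section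
variable (p : ℕ) [Fact p.Prime]

/-- UF-RCS -/
def StmRcS : Prop := ∀ (D : K p → Prop) (q : Fin 10 → K p), StC D q → (Rc D q).Ind

/-- UF-RCC -/
def StmRcC : Prop := ∀ (D : K p → Prop) (F : Finset (K p)) (N : ℕ), (∀ x ∈ F, Isolated D x) →
  N + 1 ≤ F.card → ∃ N' : ℕ, N ≤ N' ∧ ∃ (q : Fin 10 → K p) (β : ℕ → K p),
    Good (q 0) ∧ q 1 ≠ 0 ∧ q 2 ≠ 0 ∧ IsTrue (Rc D q) N' β

/-- UF-DEFIN: definability of all parts. -/
def StmDefin : Prop := ∀ (I : ℕ → List (K p) → Prop) (Sg : Set (ℕ × ℕ)) (α : Fm),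
  α.syms ⊆ Sg → ∀ (d : ℕ) (L : List (Circ (Fin (d + 1)) × Circ (Fin (d + 1)))),
  ∃ (M : ℕ) (D : (Fin M → K p) → K p → Prop) (q : (Fin M → K p) → Fin 10 → K p),
    (∀ v, ∃ s : ℕ → K p, ∀ x, D v x ↔ α.Sat I (Function.update s 0 x)) ∧
    (∀ (s : ℕ → K p) (q₀ : Fin 10 → K p), ∃ v, q v = q₀ ∧
      ∀ x, D v x ↔ α.Sat I (Function.update s 0 x)) ∧
    ∃ St Ze Sc Φ : Fm,
      (∀ i ∈ St.fv, i < M) ∧ (∀ i ∈ Ze.fv, i < M + 1) ∧ (∀ i ∈ Sc.fv, i < M + 2) ∧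
      (∀ i ∈ Φ.fv, i < M + 1) ∧ St.syms ⊆ Sg ∧ Ze.syms ⊆ Sg ∧ Sc.syms ⊆ Sg ∧ Φ.syms ⊆ Sg ∧
      (∀ s : ℕ → K p, St.Sat I s ↔ StC (D (fun i => s i)) (q (fun i => s i))) ∧
      (∀ s : ℕ → K p, Ze.Sat I s ↔ s M = q (fun i => s i) 3) ∧
      (∀ s : ℕ → K p, Φ.Sat I s ↔ (Rc (D (fun i => s i)) (q (fun i => s i))).B (s M) ∧
        (Rc (D (fun i => s i)) (q (fun i => s i))).Sol d L (s M)) ∧
      (∀ s : ℕ → K p, Sc.Sat I s ↔
        (Rc (D (fun i => s i)) (q (fun i => s i))).B (s M) ∧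
        (Rc (D (fun i => s i)) (q (fun i => s i))).B (s (M + 1)) ∧
        (Rc (D (fun i => s i)) (q (fun i => s i))).s (s M) (s (M + 1)))

/-- The main theorem: if the theory is decidable then the number of isolated points is bounded
in every definable family. -/
def StmMain : Prop := ∀ (I : ℕ → List (K p) → Prop) (Sg : Set (ℕ × ℕ)), DecidableTheory I Sg →
  ∀ α : Fm, α.syms ⊆ Sg → ∃ N : ℕ, ∀ s : ℕ → K p,
    {x | Isolated (fun y => α.Sat I (Function.update s 0 y)) x}.encard ≤ N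

end

end Pool.Agent.W877.UF
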