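import Mathlib
import Pool.Agent.W877.UF.Stm2

/-!
UF-AS: series of positive order are of the form `z ^ p - z`.
-/

set_option autoImplicit false

namespace Pool.Agent.W877.UF

theorem as_stm (p : ℕ) [Fact p.Prime] (h : StmPth p) : StmAS p := by
  classical
  intro x hx
  have hp : p.Prime := Fact.out
  have hp0 : (0 : ℤ) < p := by exact_mod_cast hp.pos
  let F : (n : ℕ) → ((m : ℕ) → m < n → ZMod p) → ZMod p := fun n ih =>
    (if hn : p ∣ n ∧ 0 < n then ih (n / p) (Nat.div_lt_self hn.2 hp.one_lt) else 0)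
      - x.coeff (n : ℤ)
  let a : ℕ → ZMod p := WellFounded.fix (measure id).wf F
  have ha : ∀ n, a n = (if p ∣ n ∧ 0 < n then a (n / p) else 0) - x.coeff (n : ℤ) := by
    intro n
    have h1 : a n = F n (fun m _ => a m) := WellFounded.fix_eq _ F n
    rw [h1]
    simp only [F]
    split_ifs <;> rfl
  have ha0 : a 0 = 0 := by
    rw [ha 0]; simp [hx 0 le_rfl]
  let z : K p := ((PowerSeries.mk a : PowerSeries (ZMod p)) : LaurentSeries (ZMod p))
  have hzneg : ∀ k : ℤ, k < 0 → z.coeff k = 0 := by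
    intro k hk
    simp only [z]
    rw [PowerSeries.coeff_coe, if_pos hk]
  have hzpos : ∀ m : ℕ, z.coeff (m : ℤ) = a m := by
    intro m
    simp only [z]
    rw [PowerSeries.coeff_coe, if_neg (by omega)]
    simp
  refine ⟨z, ?_⟩
  ext k
  rw [HahnSeries.coeff_sub]
  have hk := Int.mul_ediv_add_emod k p
  have hi0 : 0 ≤ k % p := Int.emod_nonneg _ hp0.ne'
  have hi1 : k % p < p := Int.emod_lt_of_pos _ hp0
  rcases hi0.eq_or_lt with h0 | h0
  · -- k = p * n
    have hk' : (p : ℤ) * (k / p) = k := by omega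
    have h2 := (h z (k / p)).1
    rw [hk'] at h2
    rw [h2]
    rcases lt_trichotomy (k / (p : ℤ)) 0 with hn | hn | hn
    · have hkneg : k < 0 := by
        rw [← hk']; exact mul_neg_of_pos_of_neg hp0 hn
      rw [hx k hkneg.le, hzneg _ hn, hzneg _ hkneg, sub_zero]
    · have hk0 : k = 0 := by rw [← hk', hn, mul_zero]
      rw [hn, hk0, hx 0 le_rfl, sub_self]
    · obtain ⟨m, hm⟩ := Int.eq_ofNat_of_zero_le hn.le
      have hm0 : 0 < m := by
        rw [hm] at hn; exact_mod_cast hn
      have hkm : k = ((p * m : ℕ) : ℤ) := by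
        rw [← hk', hm]; push_cast; rfl
      rw [hm, hkm, hzpos, hzpos, ha (p * m), if_pos ⟨dvd_mul_right p m, Nat.mul_pos hp.pos hm0⟩,
        Nat.mul_div_cancel_left m hp.pos]
      ring
  · have h2 := (h z (k / p)).2 (k % p) h0 hi1
    rw [hk] at h2
    rw [h2, zero_sub]
    rcases lt_or_ge k 0 with hn | hn
    · rw [hx k hn.le, hzneg _ hn, neg_zero]
    · obtain ⟨m, hm⟩ := Int.eq_ofNat_of_zero_le hn
      have hnd : ¬ (p ∣ m ∧ 0 < m) := by
        rintro ⟨hd, -⟩
        have : (p : ℤ) ∣ k := by rw [hm]; exact_mod_cast hd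
        have := Int.emod_eq_zero_of_dvd this
        omega
      rw [hm, hzpos, ha m, if_neg hnd]
      ring

end Pool.Agent.W877.UF
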