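import Mathlib
import Pool.Agent.W877.UF.Stm2

/-!
Every finite set of isolated points is contained in some `BB D m n`.
-/

set_option autoImplicit false

namespace Pool.Agent.W877.UF

theorem big (p : ℕ) [Fact p.Prime] : StmBig p := by
  classical
  intro D F hF
  have h1 : ∀ x ∈ F, ∃ k : ℤ, ∀ x', D x' → (∀ i : ℤ, i < k → x'.coeff i = x.coeff i) → x' = x :=
    fun x hx => (hF x hx).2
  choose! kx hkx using h1
  obtain ⟨A, hA⟩ := (F.image (fun x : K p => -HahnSeries.order x)).exists_le
  obtain ⟨k, hk⟩ := (F.image kx).exists_le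
  refine ⟨HahnSeries.single A 1, HahnSeries.single k 1, HahnSeries.single_ne_zero one_ne_zero,
    HahnSeries.single_ne_zero one_ne_zero, fun x hx => ⟨(hF x hx).1, ?_, ?_⟩⟩
  · intro j hj
    have h2 := hA _ (Finset.mem_image_of_mem (fun x : K p => -HahnSeries.order x) hx)
    have h3 : (HahnSeries.single A (1 : ZMod p) * x).coeff ((j - A) + A) = 1 * x.coeff (j - A) :=
      HahnSeries.coeff_single_mul_add
    rw [sub_add_cancel, one_mul] at h3
    rw [h3]
    apply HahnSeries.coeff_eq_zero_of_lt_order
    omega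
  · intro x' hx' hne
    have hw : x - x' ≠ 0 := sub_ne_zero.2 (Ne.symm hne)
    refine ⟨HahnSeries.single k 1 / (x - x'), ?_, div_mul_cancel₀ _ hw⟩
    have h2 := hk _ (Finset.mem_image_of_mem kx hx)
    obtain ⟨i, hi, hne'⟩ : ∃ i : ℤ, i < kx x ∧ x'.coeff i ≠ x.coeff i := by
      by_contra hcon
      push Not at hcon
      exact hne (hkx x hx x' hx' hcon)
    have h4 : (x - x').order ≤ i := by
      apply HahnSeries.order_le_of_coeff_ne_zero
      rw [HahnSeries.coeff_sub]
      exact sub_ne_zero.2 (Ne.symm hne')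
    have hn : (HahnSeries.single k (1 : ZMod p) : K p) ≠ 0 :=
      HahnSeries.single_ne_zero one_ne_zero
    have hu : (HahnSeries.single k 1 / (x - x') : K p) ≠ 0 := div_ne_zero hn hw
    have h5 : (HahnSeries.single k 1 / (x - x') : K p).order + (x - x').order = k := by
      rw [← HahnSeries.order_mul hu hw, div_mul_cancel₀ _ hw, HahnSeries.order_single one_ne_zero]
    intro j hj
    apply HahnSeries.coeff_eq_zero_of_lt_order
    omega

end Pool.Agent.W877.UF
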