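import Pool.Agent.W877.UF.Stm2

/-!
UF-CMP: the sentences depend computably on the number.
-/

set_option autoImplicit false

namespace Pool.Agent.W877.UF

/-- pairing with a constant -/
theorem cmp_pair {f : ℕ → ℕ} (hf : Primrec f) (a : ℕ) : Primrec (fun e => Nat.pair a (f e)) :=
  Primrec₂.natPair.comp (Primrec.const a) hf

theorem cmp_chi (M : ℕ) (Sc Φ : Fm) : Primrec (fun e => (chi M Sc Φ e).code) := by
  have hg : Primrec₂ (fun (_ c : ℕ) => Nat.pair 5 (Nat.pair (M + 1) (Nat.pair 4 (Nat.pair Sc.code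
      (Nat.pair 5 (Nat.pair M (Nat.pair 4 (Nat.pair
        (Fm.eq (.var M) (.var (M + 1))).code c)))))))) := by
    have h := (cmp_pair (cmp_pair (cmp_pair (cmp_pair (cmp_pair (cmp_pair (cmp_pair (cmp_pair
      Primrec.id (Fm.eq (.var M) (.var (M + 1))).code) 4) M) 5) Sc.code) 4) (M + 1)) 5)
    exact (h.comp Primrec.snd)
  refine (Primrec.nat_rec₁ Φ.code hg).of_eq ?_
  intro e
  induction e with
  | zero => rfl
  | succ e ih =>
    show Nat.pair 5 (Nat.pair (M + 1) (Nat.pair 4 (Nat.pair Sc.code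
      (Nat.pair 5 (Nat.pair M (Nat.pair 4 (Nat.pair
        (Fm.eq (.var M) (.var (M + 1))).code _))))))) = _
    rw [ih]
    rfl

theorem cmp_exs : ∀ (k : ℕ) (f : ℕ → Fm), Primrec (fun e => (f e).code) →
    Primrec (fun e => (exs k (f e)).code)
  | 0, _, hf => hf
  | k + 1, f, hf => cmp_exs k (fun e => Fm.ex k (f e)) (cmp_pair (cmp_pair hf k) 5)

theorem cmp : StmCmp := by
  intro M St Ze Sc Φ
  refine (cmp_exs M _ ?_).to_comp
  exact cmp_pair (cmp_pair (cmp_pair (cmp_pair (cmp_pair (cmp_pair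
    (cmp_chi M Sc Φ) Ze.code) 4) M) 5) St.code) 4

end Pool.Agent.W877.UF
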