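import Mathlib
import Pool.Agent.W877.UF.Stm2

set_option autoImplicit false

namespace Pool.Agent.W877.UF

open Polynomial in
/-- choice of the point `c` -/
theorem exists_indep {p : ℕ} [Fact p.Prime] {F : Type} [Field F] [Algebra (ZMod p) F]
    [Infinite F] (B : Finset F) : ∃ c : F, (∀ b ∈ B, b - c ≠ 0) ∧
      ∀ g : B → ZMod p, g ≠ 0 → ∑ b : B, g b • ((b : F) - c)⁻¹ ≠ 0 := by
  classical
  set P : (B → ZMod p) → F[X] := fun g =>
    ∑ b : B, C (algebraMap (ZMod p) F (g b)) * ∏ b' ∈ (Finset.univ : Finset B).erase b,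
      (C (b' : F) - X) with hP
  have hPne : ∀ g : B → ZMod p, g ≠ 0 → P g ≠ 0 := by
    intro g hg h0
    obtain ⟨b, hb⟩ : ∃ b, g b ≠ 0 := by
      by_contra hc
      push Not at hc
      exact hg (funext hc)
    have h1 : (P g).eval (b : F) = 0 := by rw [h0]; simp
    simp only [hP, eval_finset_sum, eval_mul, eval_C, eval_prod, eval_sub, eval_X] at h1
    rw [Finset.sum_eq_single b] at h1
    · rcases mul_eq_zero.mp h1 with h2 | h2
      · exact hb ((map_eq_zero _).mp h2)
      · rw [Finset.prod_eq_zero_iff] at h2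
        obtain ⟨b', hb', h3⟩ := h2
        exact (Finset.ne_of_mem_erase hb') (Subtype.ext (sub_eq_zero.mp h3))
    · intro b' _ hne
      apply mul_eq_zero_of_right
      apply Finset.prod_eq_zero (i := b)
      · exact Finset.mem_erase.mpr ⟨hne.symm, Finset.mem_univ _⟩
      · simp
    · intro h; exact absurd (Finset.mem_univ _) h
  set Q : F[X] := (∏ g ∈ (Finset.univ : Finset (B → ZMod p)).filter (fun g => g ≠ 0), P g) *
    ∏ b ∈ B, (C b - X) with hQ
  have hQne : Q ≠ 0 := by
    apply mul_ne_zero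
    · rw [Finset.prod_ne_zero_iff]
      intro g hg
      exact hPne g (Finset.mem_filter.mp hg).2
    · rw [Finset.prod_ne_zero_iff]
      intro b _ h
      have h1 : (C b - X : F[X]).eval (b + 1) = 0 := by rw [h]; simp
      simp at h1
  obtain ⟨c, hc⟩ : ∃ c, Q.eval c ≠ 0 := by
    by_contra hcon
    push Not at hcon
    exact hQne (Polynomial.funext (fun r => by rw [hcon r]; simp))
  rw [hQ, eval_mul] at hc
  have hc1 := left_ne_zero_of_mul hc
  have hc2 := right_ne_zero_of_mul hc
  rw [eval_prod, Finset.prod_ne_zero_iff] at hc1 hc2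
  have hbc : ∀ b ∈ B, b - c ≠ 0 := by
    intro b hb
    have := hc2 b hb
    simpa using this
  refine ⟨c, hbc, ?_⟩
  intro g hg h0
  have h1 := hc1 g (Finset.mem_filter.mpr ⟨Finset.mem_univ _, hg⟩)
  apply h1
  have h2 : (P g).eval c = (∑ b : B, g b • ((b : F) - c)⁻¹) * ∏ b' : B, ((b' : F) - c) := by
    rw [Finset.sum_mul]
    simp only [hP, eval_finset_sum, eval_mul, eval_C, eval_prod, eval_sub, eval_X]
    apply Finset.sum_congr rfl
    intro b _
    rw [← Finset.mul_prod_erase Finset.univ _ (Finset.mem_univ b), Algebra.smul_def]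
    have := hbc b b.2
    field_simp
  rw [h2, h0, zero_mul]

theorem cod_gen {p : ℕ} [Fact p.Prime] {F : Type} [Field F] [Algebra (ZMod p) F]
    [Infinite F] (G : AddSubgroup F) (h1 : (1 : F) ∉ G)
    (hG : ∀ x, ∃ k : ℕ, k < p ∧ x - (k : F) ∈ G) (B : Finset F) (S : Set F) :
    ∃ c y : F, ∀ b ∈ B, (b ∈ S ↔ ∃ u, u * (b - c) = y ∧ u ∉ G) := by
  classical
  have hcast : ∀ k : ℕ, (k : F) = (k : ZMod p) • (1 : F) := by
    intro k
    rw [Algebra.smul_def, mul_one, map_natCast]
  obtain ⟨f, hf0, hfG⟩ := Submodule.exists_le_ker_of_lt_top (AddSubgroup.toZModSubmodule p G)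
    (by
      rw [lt_top_iff_ne_top]
      intro h
      apply h1
      have : (1 : F) ∈ AddSubgroup.toZModSubmodule p G := by rw [h]; trivial
      simpa using this)
  have hfG' : ∀ x ∈ G, f x = 0 := by
    intro x hx
    have : x ∈ AddSubgroup.toZModSubmodule p G := by simpa using hx
    exact LinearMap.mem_ker.mp (hfG this)
  have hfk : ∀ (x : F) (k : ℕ), x - (k : F) ∈ G → f x = (k : ZMod p) * f 1 := by
    intro x k hx
    have h2 := hfG' _ hx
    rw [map_sub, hcast k, map_smul, sub_eq_zero] at h2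
    rw [h2, smul_eq_mul]
  have hf1 : f 1 ≠ 0 := by
    intro h
    apply hf0
    ext x
    obtain ⟨k, _, hk⟩ := hG x
    rw [hfk x k hk, h, mul_zero]
    rfl
  have hker : ∀ u, u ∉ G ↔ f u ≠ 0 := by
    intro u
    constructor
    · intro hu h
      apply hu
      obtain ⟨k, hk, hk'⟩ := hG u
      rw [hfk u k hk'] at h
      rcases mul_eq_zero.mp h with h2 | h2
      · rw [ZMod.natCast_eq_zero_iff] at h2
        have : k = 0 := Nat.eq_zero_of_dvd_of_lt h2 hk
        subst this
        simpa using hk'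
      · exact absurd h2 hf1
    · intro hu h
      exact hu (hfG' u h)
  obtain ⟨c, hbc, hind⟩ := exists_indep (p := p) B
  set T : F →ₗ[ZMod p] (B → ZMod p) :=
    LinearMap.pi (fun b : B => f.comp (LinearMap.mulLeft (ZMod p) (((b : F) - c)⁻¹))) with hT
  have hTa : ∀ (y : F) (b : B), T y b = f (((b : F) - c)⁻¹ * y) := fun y b => rfl
  have hsurj : LinearMap.range T = ⊤ := by
    by_contra hne
    obtain ⟨φ, hφ0, hφ⟩ := Submodule.exists_le_ker_of_lt_top (LinearMap.range T)
      (lt_top_iff_ne_top.mpr hne)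
    set g : B → ZMod p := fun b => φ (fun j => if b = j then 1 else 0) with hg
    have hφv : ∀ v : B → ZMod p, φ v = ∑ b, g b * v b := by
      intro v
      rw [LinearMap.pi_apply_eq_sum_univ φ v]
      apply Finset.sum_congr rfl
      intro b _
      rw [smul_eq_mul, mul_comm]
    have hg0 : g ≠ 0 := by
      intro h
      apply hφ0
      apply LinearMap.ext
      intro v
      rw [hφv, LinearMap.zero_apply]
      simp [h]
    have hs := hind g hg0
    set s : F := ∑ b : B, g b • ((b : F) - c)⁻¹ with hsdef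
    have h3 : φ (T s⁻¹) = 0 := LinearMap.mem_ker.mp (hφ ⟨s⁻¹, rfl⟩)
    rw [hφv] at h3
    have h4 : ∑ b, g b * (T s⁻¹) b = f (s * s⁻¹) := by
      rw [hsdef, Finset.sum_mul, map_sum]
      apply Finset.sum_congr rfl
      intro b _
      rw [hTa, smul_mul_assoc, map_smul, smul_eq_mul]
    rw [h4, mul_inv_cancel₀ hs] at h3
    exact hf1 h3
  obtain ⟨y, hy⟩ : ∃ y, T y = fun b : B => if (b : F) ∈ S then (1 : ZMod p) else 0 := by
    have : (fun b : B => if (b : F) ∈ S then (1 : ZMod p) else 0) ∈ LinearMap.range T := by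
      rw [hsurj]; trivial
    exact this
  refine ⟨c, y, ?_⟩
  intro b hb
  have hy' : f ((b - c)⁻¹ * y) = if b ∈ S then (1 : ZMod p) else 0 := by
    have := congrFun hy ⟨b, hb⟩
    rw [hTa] at this
    exact this
  have hne := hbc b hb
  constructor
  · intro hS
    refine ⟨(b - c)⁻¹ * y, ?_, ?_⟩
    · field_simp
    · rw [hker, hy', if_pos hS]
      exact one_ne_zero
  · rintro ⟨u, hu, huG⟩
    have hu' : u = (b - c)⁻¹ * y := by
      rw [← hu]
      field_simp
    rw [hker, hu', hy'] at huG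
    by_contra hS
    rw [if_neg hS] at huG
    exact huG rfl

theorem infinite_K (p : ℕ) [Fact p.Prime] : Infinite (K p) := by
  refine Infinite.of_injective (fun n : ℕ => (HahnSeries.single (n : ℤ) (1 : ZMod p) : K p)) ?_
  intro m n h
  by_contra hne
  have h2 := congrArg (fun z : K p => HahnSeries.coeff z (m : ℤ)) h
  simp only [HahnSeries.coeff_single_same] at h2
  rw [HahnSeries.coeff_single_of_ne (by exact_mod_cast hne)] at h2
  exact one_ne_zero h2

/-- UF-COD -/
theorem cod (p : ℕ) [Fact p.Prime] : StmCod p := by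
  intro G h1 hG B S
  have := infinite_K p
  exact cod_gen (p := p) G h1 hG B S

end Pool.Agent.W877.UF
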