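import Pool.Agent.W877.UF.Stm2

/-! Completeness of the true structures (part Cpl of project UF). -/

set_option autoImplicit false

namespace Pool.Agent.W877.UF

/-- The structure satisfies the axioms. -/
theorem cpl_ax {X : Type} {R : Ar X} {N : ℕ} {β : ℕ → X} (h : IsTrue R N β) : R.Ax := by
  obtain ⟨hinj, hB, hz, hs, hA, hM⟩ := h
  refine ⟨?_, ?_, ?_, ?_, ?_, ?_, ?_⟩
  · exact (hB _).2 ⟨0, Nat.zero_le _, hz⟩
  · intro x hx hs0
    obtain ⟨i, hi, rfl⟩ := (hB x).1 hx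
    rw [hz, hs i 0 hi (Nat.zero_le _)] at hs0
    omega
  · intro x x' y hx hx' hy h1 h2
    obtain ⟨i, hi, rfl⟩ := (hB x).1 hx
    obtain ⟨i', hi', rfl⟩ := (hB x').1 hx'
    obtain ⟨j, hj, rfl⟩ := (hB y).1 hy
    rw [hs i j hi hj] at h1
    rw [hs i' j hi' hj] at h2
    have h3 : i = i' := by omega
    rw [h3]
  · intro x w hx hw h1
    obtain ⟨i, hi, rfl⟩ := (hB x).1 hx
    obtain ⟨k, hk, rfl⟩ := (hB w).1 hw
    rw [hz, hA i 0 k hi (Nat.zero_le _) hk] at h1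
    rw [h1, add_zero]
  · intro x y y' w' hx hy hy' hw' h1 h2
    obtain ⟨i, hi, rfl⟩ := (hB x).1 hx
    obtain ⟨j, hj, rfl⟩ := (hB y).1 hy
    obtain ⟨j', hj', rfl⟩ := (hB y').1 hy'
    obtain ⟨k', hk', rfl⟩ := (hB w').1 hw'
    rw [hs j j' hj hj'] at h1
    rw [hA i j' k' hi hj' hk'] at h2
    have h3 : i + j ≤ N := by omega
    refine ⟨β (i + j), (hB _).2 ⟨i + j, h3, rfl⟩, ?_, ?_⟩
    · rw [hA i j (i + j) hi hj h3]
    · rw [hs (i + j) k' h3 hk']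
      omega
  · intro x w hx hw h1
    obtain ⟨i, hi, rfl⟩ := (hB x).1 hx
    obtain ⟨k, hk, rfl⟩ := (hB w).1 hw
    rw [hz, hM i 0 k hi (Nat.zero_le _) hk] at h1
    rw [h1, mul_zero, hz]
  · intro x y y' w' hx hy hy' hw' h1 h2
    obtain ⟨i, hi, rfl⟩ := (hB x).1 hx
    obtain ⟨j, hj, rfl⟩ := (hB y).1 hy
    obtain ⟨j', hj', rfl⟩ := (hB y').1 hy'
    obtain ⟨k', hk', rfl⟩ := (hB w').1 hw'
    rw [hs j j' hj hj'] at h1
    rw [hM i j' k' hi hj' hk'] at h2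
    have h4 : k' = i * j + i := by rw [h2, h1]; ring
    have h3 : i * j ≤ N := by omega
    refine ⟨β (i * j), (hB _).2 ⟨i * j, h3, rfl⟩, ?_, ?_⟩
    · rw [hM i j (i * j) hi hj h3]
    · rw [hA (i * j) i k' h3 hi hk']
      exact h4

/-- The structure satisfies induction. -/
theorem cpl_ind {X : Type} {R : Ar X} {N : ℕ} {β : ℕ → X} (h : IsTrue R N β) : R.Ind := by
  obtain ⟨hinj, hB, hz, hs, hA, hM⟩ := h
  intro Z h0 hstep x hx
  obtain ⟨i, hi, rfl⟩ := (hB x).1 hx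
  clear hx
  induction i with
  | zero => rw [← hz]; exact h0
  | succ i ih =>
    have hi' : i ≤ N := by omega
    exact hstep (β i) (β (i + 1)) ((hB _).2 ⟨i, hi', rfl⟩) ((hB _).2 ⟨i + 1, hi, rfl⟩) (ih hi')
      ((hs i (i + 1) hi' hi).2 rfl)

/-- Circuits have the right values. -/
theorem cpl_val {V : Type} (v : V → ℕ) (c : Circ V) : ∃ N₀ : ℕ, ∀ N : ℕ, N₀ ≤ N →
    ∀ (X : Type) (R : Ar X) (β : ℕ → X), IsTrue R N β →
      c.ev v ≤ N ∧ R.Val (fun i => β (v i)) c (β (c.ev v)) := by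
  induction c with
  | var i =>
    refine ⟨v i, fun N hN X R β h => ⟨hN, ?_⟩⟩
    rfl
  | zero =>
    refine ⟨0, fun N hN X R β h => ⟨Nat.zero_le _, ?_⟩⟩
    exact h.2.2.1.symm
  | succ c ih =>
    obtain ⟨N₁, h1⟩ := ih
    refine ⟨N₁ + (c.ev v + 1), fun N hN X R β h => ?_⟩
    obtain ⟨h2, h3⟩ := h1 N (by omega) X R β h
    have h4 : c.ev v + 1 ≤ N := by omega
    refine ⟨h4, β (c.ev v), (h.2.1 _).2 ⟨_, h2, rfl⟩, h3, ?_⟩
    exact (h.2.2.2.1 _ _ h2 h4).2 rfl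
  | add c d ihc ihd =>
    obtain ⟨N₁, h1⟩ := ihc
    obtain ⟨N₂, h2⟩ := ihd
    refine ⟨N₁ + N₂ + (c.ev v + d.ev v), fun N hN X R β h => ?_⟩
    obtain ⟨h3, h4⟩ := h1 N (by omega) X R β h
    obtain ⟨h5, h6⟩ := h2 N (by omega) X R β h
    have h7 : c.ev v + d.ev v ≤ N := by omega
    refine ⟨h7, β (c.ev v), β (d.ev v), (h.2.1 _).2 ⟨_, h3, rfl⟩, (h.2.1 _).2 ⟨_, h5, rfl⟩,
      h4, h6, ?_⟩
    exact (h.2.2.2.2.1 _ _ _ h3 h5 h7).2 rfl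
  | mul c d ihc ihd =>
    obtain ⟨N₁, h1⟩ := ihc
    obtain ⟨N₂, h2⟩ := ihd
    refine ⟨N₁ + N₂ + (c.ev v * d.ev v), fun N hN X R β h => ?_⟩
    obtain ⟨h3, h4⟩ := h1 N (by omega) X R β h
    obtain ⟨h5, h6⟩ := h2 N (by omega) X R β h
    have h7 : c.ev v * d.ev v ≤ N := by omega
    refine ⟨h7, β (c.ev v), β (d.ev v), (h.2.1 _).2 ⟨_, h3, rfl⟩, (h.2.1 _).2 ⟨_, h5, rfl⟩,
      h4, h6, ?_⟩
    exact (h.2.2.2.2.2 _ _ _ h3 h5 h7).2 rfl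

/-- Bounds for lists. -/
theorem cpl_list {α : Type} (P : α → ℕ → Prop) (h : ∀ a, ∃ n₀, ∀ n, n₀ ≤ n → P a n)
    (L : List α) : ∃ n₀, ∀ n, n₀ ≤ n → ∀ a ∈ L, P a n := by
  induction L with
  | nil => exact ⟨0, fun n _ a ha => absurd ha (List.not_mem_nil)⟩
  | cons b L ih =>
    obtain ⟨n₁, h1⟩ := ih
    obtain ⟨n₂, h2⟩ := h b
    refine ⟨n₁ + n₂, fun n hn a ha => ?_⟩
    rcases List.mem_cons.1 ha with rfl | ha
    · exact h2 n (by omega)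
    · exact h1 n (by omega) a ha

theorem cpl : StmCpl := by
  intro d L v hL
  obtain ⟨N₁, h1⟩ := cpl_list (fun (c : Circ (Fin (d + 1))) N => ∀ (X : Type) (R : Ar X)
    (β : ℕ → X), IsTrue R N β → c.ev v ≤ N ∧ R.Val (fun i => β (v i)) c (β (c.ev v)))
    (fun c => cpl_val v c) (L.map Prod.fst ++ L.map Prod.snd)
  refine ⟨N₁ + ∑ i, v i, fun N hN X R β h => ?_⟩
  have hv : ∀ i, v i ≤ N := fun i => by
    have h2 : v i ≤ ∑ i, v i :=
      Finset.single_le_sum (f := v) (fun _ _ => Nat.zero_le _) (Finset.mem_univ i)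
    omega
  refine ⟨cpl_ax h, cpl_ind h, hv 0, fun i => β (v i.succ),
    fun i => (h.2.1 _).2 ⟨_, hv _, rfl⟩, fun q hq => ?_⟩
  have hcons : (Fin.cons (β (v 0)) (fun i => β (v i.succ)) : Fin (d + 1) → X) =
      fun i => β (v i) := by
    funext i
    refine Fin.cases ?_ (fun j => ?_) i
    · rfl
    · rfl
  rw [hcons]
  obtain ⟨h2, h3⟩ := h1 N (by omega) q.1
    (List.mem_append_left _ (List.mem_map_of_mem hq)) X R β h
  obtain ⟨h4, h5⟩ := h1 N (by omega) q.2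
    (List.mem_append_right _ (List.mem_map_of_mem hq)) X R β h
  refine ⟨β (q.1.ev v), (h.2.1 _).2 ⟨_, h2, rfl⟩, h3, ?_⟩
  rw [hL q hq]
  exact h5

end Pool.Agent.W877.UF
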