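import Pool.Agent.W877.UF.Stm2

/-!
UF-DEC: decomposition of a Laurent series along the `p`-basis.
-/

set_option autoImplicit false

namespace Pool.Agent.W877.UF

namespace DecT

variable (p : ℕ) [Fact p.Prime]

theorem bdd (x : K p) (i : ℕ) :
    BddBelow (Function.support fun n : ℤ => x.coeff ((p : ℤ) * n + i)) := by
  have hp : (1 : ℤ) ≤ p := by exact_mod_cast (Fact.out : p.Prime).one_lt.le
  refine ⟨-(|x.order| + i), ?_⟩
  intro n hn
  have h1 : x.order ≤ (p : ℤ) * n + i := HahnSeries.order_le_of_coeff_ne_zero hn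
  by_contra hlt
  rw [not_le] at hlt
  have h2 : 0 ≤ |x.order| := abs_nonneg _
  have h3 : -|x.order| ≤ x.order := neg_abs_le _
  have h4 : n < 0 := by omega
  have h5 : (p : ℤ) * n ≤ n := by nlinarith
  omega

/-- the components -/
noncomputable def yy (x : K p) (i : ℕ) : K p :=
  HahnSeries.ofSuppBddBelow (fun n : ℤ => x.coeff ((p : ℤ) * n + i)) (bdd p x i)

theorem coeff_yy (x : K p) (i : ℕ) (n : ℤ) :
    (yy p x i).coeff n = x.coeff ((p : ℤ) * n + i) := by
  unfold yy
  rw [HahnSeries.coeff_ofSuppBddBelow]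

theorem coeff_TT (i : ℕ) (f : K p) (m : ℤ) : (TT0 p ^ i * f).coeff m = f.coeff (m - i) := by
  unfold TT0
  rw [HahnSeries.single_pow, one_pow]
  have h := HahnSeries.coeff_single_mul_add (r := (1 : ZMod p)) (x := f) (a := m - i)
    (b := i • (1 : ℤ))
  have h2 : (m - i : ℤ) + i • (1 : ℤ) = m := by simp
  rw [h2, one_mul] at h
  exact h

end DecT

theorem dec (p : ℕ) [Fact p.Prime] (h : StmPth p) : StmDec p := by
  intro x
  have hp0 : (0 : ℤ) < p := by exact_mod_cast (Fact.out : p.Prime).pos
  refine ⟨DecT.yy p x, ?_, ?_⟩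
  · ext m
    rw [HahnSeries.coeff_sum]
    have hj0 : 0 ≤ m % (p : ℤ) := Int.emod_nonneg _ hp0.ne'
    have hjp : m % (p : ℤ) < p := Int.emod_lt_of_pos _ hp0
    have hm : (p : ℤ) * (m / p) + m % p = m := Int.mul_ediv_add_emod m p
    obtain ⟨j, hj⟩ := Int.eq_ofNat_of_zero_le hj0
    have hjlt : j < p := by
      rw [hj] at hjp
      exact_mod_cast hjp
    rw [Finset.sum_eq_single j]
    · rw [DecT.coeff_TT]
      have h1 : m - (j : ℤ) = (p : ℤ) * (m / p) := by
        rw [hj] at hm
        linarith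
      rw [h1, (h _ _).1, DecT.coeff_yy, ← hj, hm]
    · intro i hi hij
      have hip : i < p := Finset.mem_range.1 hi
      rw [DecT.coeff_TT]
      rcases lt_or_gt_of_ne hij with hlt | hgt
      · have h1 : m - (i : ℤ) = (p : ℤ) * (m / p) + ((j : ℤ) - i) := by
          rw [hj] at hm
          linarith
        rw [h1]
        exact (h _ _).2 _ (by omega) (by omega)
      · have h1 : m - (i : ℤ) = (p : ℤ) * (m / p - 1) + ((p : ℤ) + j - i) := by
          rw [hj] at hm
          have : (p : ℤ) * (m / p - 1) = (p : ℤ) * (m / p) - p := by ring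
          rw [this]
          linarith
        rw [h1]
        exact (h _ _).2 _ (by omega) (by omega)
    · intro hnot
      exact absurd (Finset.mem_range.2 hjlt) hnot
  · intro n
    rw [DecT.coeff_yy]
    simp

end Pool.Agent.W877.UF
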