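import Mathlib
import Pool.Agent.W877.UF.Stm2

/-!
Closure properties of definable relations.
-/

set_option autoImplicit false

namespace Pool.Agent.W877.UF

section
variable {p : ℕ} [Fact p.Prime] {I : ℕ → List (K p) → Prop} {Sg : Set (ℕ × ℕ)} {m : ℕ}

theorem init_restrict (s : ℕ → K p) :
    (Fin.init (fun i : Fin (m + 1) => s i) : Fin m → K p) = fun i : Fin m => s i := by
  funext i; simp [Fin.init]

theorem restrict_update (s : ℕ → K p) (x : K p) :
    (fun i : Fin m => Function.update s m x i) = fun i : Fin m => s i := by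
  funext i
  rw [Function.update_of_ne]
  exact i.2.ne

/-! Terms -/

theorem TT.var (i : Fin m) : TT m (fun v : Fin m → K p => v i) :=
  ⟨.var i, by intro j hj; simp only [Tm.vars, Set.mem_singleton_iff] at hj; rw [hj]; exact i.2,
    fun s => rfl⟩

theorem TT.last : TT (m + 1) (fun v : Fin (m + 1) → K p => v (Fin.last m)) := TT.var _

theorem TT.zero : TT m (fun _ : Fin m → K p => (0 : K p)) :=
  ⟨.zero, by intro j hj; exact absurd hj (by simp [Tm.vars]), fun s => rfl⟩

theorem TT.one : TT m (fun _ : Fin m → K p => (1 : K p)) :=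
  ⟨.one, by intro j hj; exact absurd hj (by simp [Tm.vars]), fun s => rfl⟩

theorem TT.neg {f : (Fin m → K p) → K p} (h : TT m f) : TT m (fun v => - f v) := by
  obtain ⟨a, h1, h2⟩ := h
  exact ⟨.neg a, h1, fun s => by simp only [Tm.ev]; rw [h2]⟩

theorem TT.add {f g : (Fin m → K p) → K p} (h : TT m f) (h' : TT m g) :
    TT m (fun v => f v + g v) := by
  obtain ⟨a, h1, h2⟩ := h
  obtain ⟨b, h3, h4⟩ := h'
  exact ⟨.add a b, fun i hi => hi.elim (h1 i) (h3 i), fun s => by simp only [Tm.ev]; rw [h2, h4]⟩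

theorem TT.mul {f g : (Fin m → K p) → K p} (h : TT m f) (h' : TT m g) :
    TT m (fun v => f v * g v) := by
  obtain ⟨a, h1, h2⟩ := h
  obtain ⟨b, h3, h4⟩ := h'
  exact ⟨.mul a b, fun i hi => hi.elim (h1 i) (h3 i), fun s => by simp only [Tm.ev]; rw [h2, h4]⟩

theorem TT.congr {f g : (Fin m → K p) → K p} (h : TT m f) (e : ∀ v, f v = g v) : TT m g := by
  have : f = g := funext e
  rwa [← this]

theorem TT.sub {f g : (Fin m → K p) → K p} (h : TT m f) (h' : TT m g) :
    TT m (fun v => f v - g v) :=
  (h.add h'.neg).congr fun v => (sub_eq_add_neg _ _).symm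

theorem TT.pow {f : (Fin m → K p) → K p} (h : TT m f) (n : ℕ) : TT m (fun v => f v ^ n) := by
  induction n with
  | zero => exact TT.one.congr fun v => (pow_zero _).symm
  | succ n ih => exact (ih.mul h).congr fun v => (pow_succ _ _).symm

theorem TT.natCast (n : ℕ) : TT m (fun _ : Fin m → K p => (n : K p)) := by
  induction n with
  | zero => exact TT.zero.congr fun v => by simp
  | succ n ih => exact (ih.add TT.one).congr fun v => by push_cast; rfl

theorem TT.weak {f : (Fin m → K p) → K p} (h : TT m f) : TT (m + 1) (fun v => f (Fin.init v)) := by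
  obtain ⟨a, h1, h2⟩ := h
  refine ⟨a, fun i hi => (h1 i hi).trans (Nat.lt_succ_self m), fun s => ?_⟩
  rw [h2]
  beta_reduce
  rw [init_restrict]

/-! Formulas -/

theorem DD.congr {P Q : (Fin m → K p) → Prop} (h : DD I Sg m P) (e : ∀ v, P v ↔ Q v) :
    DD I Sg m Q := by
  have : P = Q := funext fun v => propext (e v)
  rwa [← this]

theorem DD.eq {f g : (Fin m → K p) → K p} (h : TT m f) (h' : TT m g) :
    DD I Sg m (fun v => f v = g v) := by
  obtain ⟨a, h1, h2⟩ := h
  obtain ⟨b, h3, h4⟩ := h'
  exact ⟨.eq a b, fun i hi => hi.elim (h1 i) (h3 i), by simp [Fm.syms],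
    fun s => by simp only [Fm.Sat]; rw [h2, h4]⟩

theorem DD.val {f : (Fin m → K p) → K p} (h : TT m f) : DD I Sg m (fun v => InO (f v)) := by
  obtain ⟨a, h1, h2⟩ := h
  exact ⟨.val a, h1, by simp [Fm.syms], fun s => by simp only [Fm.Sat]; rw [h2]⟩

theorem DD.not {P : (Fin m → K p) → Prop} (h : DD I Sg m P) : DD I Sg m (fun v => ¬ P v) := by
  obtain ⟨φ, h1, h2, h3⟩ := h
  exact ⟨.not φ, h1, h2, fun s => by simp only [Fm.Sat]; rw [h3]⟩

theorem DD.and {P Q : (Fin m → K p) → Prop} (h : DD I Sg m P) (h' : DD I Sg m Q) :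
    DD I Sg m (fun v => P v ∧ Q v) := by
  obtain ⟨φ, h1, h2, h3⟩ := h
  obtain ⟨ψ, k1, k2, k3⟩ := h'
  exact ⟨.and φ ψ, fun i hi => hi.elim (h1 i) (k1 i), Set.union_subset h2 k2,
    fun s => by simp only [Fm.Sat]; rw [h3, k3]⟩

theorem DD.or {P Q : (Fin m → K p) → Prop} (h : DD I Sg m P) (h' : DD I Sg m Q) :
    DD I Sg m (fun v => P v ∨ Q v) :=
  ((h.not.and h'.not).not).congr fun v => by tauto

theorem DD.imp {P Q : (Fin m → K p) → Prop} (h : DD I Sg m P) (h' : DD I Sg m Q) :
    DD I Sg m (fun v => P v → Q v) :=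
  ((h.and h'.not).not).congr fun v => by tauto

theorem DD.ne {f g : (Fin m → K p) → K p} (h : TT m f) (h' : TT m g) :
    DD I Sg m (fun v => f v ≠ g v) := (DD.eq h h').not

theorem DD.false : DD I Sg m (fun _ : Fin m → K p => False) :=
  (DD.eq (TT.zero) (TT.one)).congr fun v => by simp

theorem DD.true : DD I Sg m (fun _ : Fin m → K p => True) :=
  (DD.eq (TT.zero) (TT.zero)).congr fun v => by simp

theorem DD.ex {Q : (Fin m → K p) → K p → Prop}
    (h : DD I Sg (m + 1) (fun v => Q (Fin.init v) (v (Fin.last m)))) :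
    DD I Sg m (fun v => ∃ x, Q v x) := by
  obtain ⟨φ, h1, h2, h3⟩ := h
  refine ⟨.ex m φ, ?_, h2, fun s => ?_⟩
  · rintro i ⟨hi, him⟩
    have := h1 i hi
    simp only [Set.mem_singleton_iff] at him
    omega
  · simp only [Fm.Sat]
    refine exists_congr fun x => ?_
    rw [h3]
    have e1 : (Fin.init (fun i : Fin (m + 1) => Function.update s m x i) : Fin m → K p) =
        fun i : Fin m => s i := by
      rw [init_restrict, restrict_update]
    have e2 : Function.update s m x ((Fin.last m : Fin (m + 1)) : ℕ) = x := by simp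
    beta_reduce
    rw [e1, e2]

theorem DD.all {Q : (Fin m → K p) → K p → Prop}
    (h : DD I Sg (m + 1) (fun v => Q (Fin.init v) (v (Fin.last m)))) :
    DD I Sg m (fun v => ∀ x, Q v x) :=
  (DD.ex (Q := fun v x => ¬ Q v x) h.not).not.congr fun v => by simp

theorem DD.exNat (n : ℕ) {P : ℕ → (Fin m → K p) → Prop} (h : ∀ k, DD I Sg m (P k)) :
    DD I Sg m (fun v => ∃ k : ℕ, k < n ∧ P k v) := by
  induction n with
  | zero => exact DD.false.congr fun v => by simp
  | succ n ih =>
    refine (ih.or (h n)).congr fun v => ?_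
    constructor
    · rintro (⟨k, h1, h2⟩ | h2)
      · exact ⟨k, by omega, h2⟩
      · exact ⟨n, by omega, h2⟩
    · rintro ⟨k, h1, h2⟩
      rcases Nat.lt_succ_iff_lt_or_eq.1 h1 with h | h
      · exact Or.inl ⟨k, h, h2⟩
      · exact Or.inr (h ▸ h2)

theorem DD.forallList {β : Type} (l : List β) {P : β → (Fin m → K p) → Prop}
    (h : ∀ q, DD I Sg m (P q)) : DD I Sg m (fun v => ∀ q ∈ l, P q v) := by
  induction l with
  | nil => exact DD.true.congr fun v => by simp
  | cons a l ih => exact ((h a).and ih).congr fun v => by simp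

theorem DD.forallFin (d : ℕ) {P : Fin d → (Fin m → K p) → Prop}
    (h : ∀ q, DD I Sg m (P q)) : DD I Sg m (fun v => ∀ q, P q v) :=
  (DD.forallList (List.finRange d) h).congr fun v => by simp

/-- Quantification over a tuple. -/
theorem DD.exN (d : ℕ) : ∀ {P : (Fin m → K p) → (Fin d → K p) → Prop},
    DD I Sg (m + d) (fun v => P (fun i => v (Fin.castAdd d i)) (fun i => v (Fin.natAdd m i))) →
    DD I Sg m (fun v => ∃ x, P v x) := by
  induction d with
  | zero =>
    intro P h
    refine DD.congr (P := fun v => P v Fin.elim0) ?_ fun v => ?_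
    · refine DD.congr h fun v => ?_
      have : (fun i : Fin 0 => v (Fin.natAdd m i)) = (Fin.elim0 : Fin 0 → K p) :=
        Subsingleton.elim _ _
      rw [this]
      rfl
    · constructor
      · intro h; exact ⟨_, h⟩
      · rintro ⟨x, h⟩
        rwa [Subsingleton.elim x Fin.elim0] at h
  | succ d ih =>
    intro P h
    refine DD.congr (P := fun v => ∃ x' : Fin d → K p, ∃ y, P v (Fin.snoc x' y)) ?_ fun v => ?_
    · refine ih (P := fun v x' => ∃ y, P v (Fin.snoc x' y)) ?_
      refine DD.ex ?_
      refine DD.congr h fun v => ?_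
      have e1 : (fun i : Fin m => v (Fin.castAdd (d + 1) i)) =
          fun i : Fin m => (Fin.init v : Fin (m + d) → K p) (Fin.castAdd d i) := by
        funext i
        rfl
      have e2 : (fun i : Fin (d + 1) => v (Fin.natAdd m i)) =
          (Fin.snoc (fun i : Fin d => (Fin.init v : Fin (m + d) → K p) (Fin.natAdd m i))
            (v (Fin.last (m + d))) : Fin (d + 1) → K p) := by
        funext i
        refine Fin.lastCases ?_ (fun j => ?_) i
        · rw [Fin.snoc_last]; rfl
        · rw [Fin.snoc_castSucc]; rfl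
      rw [e1, e2]
    · constructor
      · rintro ⟨x', y, h⟩
        exact ⟨_, h⟩
      · rintro ⟨x, h⟩
        refine ⟨Fin.init x, x (Fin.last d), ?_⟩
        rwa [Fin.snoc_init_self]

theorem TT.subst (a : Tm) {g : (Fin m → K p) → ℕ → K p} (hg : ∀ i, TT m (fun v => g v i)) :
    TT m (fun v => a.ev (g v)) := by
  induction a with
  | var n => exact hg n
  | zero => exact TT.zero
  | one => exact TT.one
  | neg a ih => exact ih.neg
  | add a b iha ihb => exact iha.add ihb
  | mul a b iha ihb => exact iha.mul ihb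

/-- Substitution of terms in a formula. -/
theorem DD.subst (φ : Fm) (hφ : φ.syms ⊆ Sg) : ∀ {m : ℕ} {g : (Fin m → K p) → ℕ → K p},
    (∀ i, TT m (fun v => g v i)) → DD I Sg m (fun v => φ.Sat I (g v)) := by
  induction φ with
  | eq a b => intro m g hg; exact DD.eq (TT.subst a hg) (TT.subst b hg)
  | val a => intro m g hg; exact DD.val (TT.subst a hg)
  | rel k l =>
    intro m g hg
    choose F hF1 hF2 using fun a : Tm => TT.subst a hg
    refine ⟨.rel k (l.map F), ?_, ?_, fun s => ?_⟩
    · rintro i ⟨a, ha, hi⟩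
      obtain ⟨b, hb, rfl⟩ := List.mem_map.1 ha
      exact hF1 b i hi
    · simpa [Fm.syms] using hφ
    · simp only [Fm.Sat, List.map_map]
      have : (Tm.ev s ∘ F) = Tm.ev (g fun i => s i) := by
        funext a
        exact hF2 a s
      rw [this]
  | not φ ih => intro m g hg; exact (ih hφ hg).not
  | and φ ψ ih1 ih2 =>
    intro m g hg
    exact (ih1 (Set.union_subset_iff.1 hφ).1 hg).and (ih2 (Set.union_subset_iff.1 hφ).2 hg)
  | ex n φ ih =>
    intro m g hg
    simp only [Fm.Sat]
    refine DD.ex ?_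
    refine ih hφ (g := fun v => Function.update (g (Fin.init v)) n (v (Fin.last m))) fun i => ?_
    by_cases hi : i = n
    · subst hi
      exact TT.last.congr fun v => by simp
    · exact (hg i).weak.congr fun v => by rw [Function.update_of_ne hi]

end

end Pool.Agent.W877.UF
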