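import Mathlib
import Pool.Agent.W877.UF.Clo

/-!
Definability of all parts.
-/

set_option autoImplicit false

namespace Pool.Agent.W877.UF

section
variable {p : ℕ} [Fact p.Prime] {I : ℕ → List (K p) → Prop} {Sg : Set (ℕ × ℕ)}

theorem dHR (k : ℕ) : ∀ {m : ℕ} {t f : (Fin m → K p) → K p}, TT m t → TT m f →
    DD I Sg m (fun v => HR (t v) k (f v)) := by
  induction k with
  | zero =>
    intro m t f ht hf
    simp only [HR]
    exact DD.ex (Q := fun v z => f v = z ^ p - z)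
      (DD.eq hf.weak ((TT.last.pow p).sub TT.last))
  | succ k ih =>
    intro m t f ht hf
    simp only [HR]
    exact DD.ex (Q := fun v y => HR (t v) k (f v - t v ^ (k + 1) * y ^ p))
      (ih ht.weak (hf.weak.sub ((ht.weak.pow _).mul (TT.last.pow p))))

theorem dH {m : ℕ} {t f : (Fin m → K p) → K p} (ht : TT m t) (hf : TT m f) :
    DD I Sg m (fun v => H (t v) (f v)) := dHR (p - 1) ht hf

theorem dGood {m : ℕ} {t : (Fin m → K p) → K p} (ht : TT m t) :
    DD I Sg m (fun v => Good (t v)) := by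
  refine DD.and (dH ht TT.one).not ?_
  refine DD.all (Q := fun v x => ∃ k : ℕ, k < p ∧ H (t v) (x - (k : K p))) ?_
  exact DD.exNat p (P := fun k v => H (t (Fin.init v)) (v (Fin.last m) - (k : K p)))
    fun k => dH ht.weak (TT.last.sub (TT.natCast k))

theorem dTh {m : ℕ} {t c y b : (Fin m → K p) → K p} (ht : TT m t) (hc : TT m c) (hy : TT m y)
    (hb : TT m b) : DD I Sg m (fun v => Th (t v) (c v) (y v) (b v)) := by
  refine DD.ex (Q := fun v u => u * (b v - c v) = y v ∧ ¬ H (t v) u) ?_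
  exact (DD.eq (TT.last.mul (hb.weak.sub hc.weak)) hy.weak).and (dH ht.weak TT.last).not

theorem TJ {m : ℕ} {t a b : (Fin m → K p) → K p} (ht : TT m t) (ha : TT m a) (hb : TT m b) :
    TT m (fun v => J (t v) (a v) (b v)) := (ha.pow p).add (ht.mul (hb.pow p))

/-- The family defined by `α`. -/
def Da (I : ℕ → List (K p) → Prop) (α : Fm) (s : ℕ → K p) (x : K p) : Prop :=
  α.Sat I (Function.update s 0 x)

theorem dDa {m : ℕ} (α : Fm) (hα : α.syms ⊆ Sg) {g : (Fin m → K p) → ℕ → K p}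
    (hg : ∀ i, TT m (fun v => g v i)) {f : (Fin m → K p) → K p} (hf : TT m f) :
    DD I Sg m (fun v => Da I α (g v) (f v)) := by
  refine DD.subst α hα (g := fun v => Function.update (g v) 0 (f v)) fun i => ?_
  by_cases hi : i = 0
  · subst hi
    exact hf.congr fun v => by simp
  · exact (hg i).congr fun v => by rw [Function.update_of_ne hi]

theorem wk {m : ℕ} {ι : Type} {g : (Fin m → K p) → ι → K p}
    (hg : ∀ i, TT m (fun v => g v i)) : ∀ i, TT (m + 1) (fun v => g (Fin.init v) i) :=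
  fun i => (hg i).weak

theorem dBB {m : ℕ} (α : Fm) (hα : α.syms ⊆ Sg) {g : (Fin m → K p) → ℕ → K p}
    (hg : ∀ i, TT m (fun v => g v i)) {a b f : (Fin m → K p) → K p} (ha : TT m a) (hb : TT m b)
    (hf : TT m f) : DD I Sg m (fun v => BB (Da I α (g v)) (a v) (b v) (f v)) := by
  refine (dDa α hα hg hf).and ((DD.val (ha.mul hf)).and ?_)
  refine DD.all (Q := fun v x' => Da I α (g v) x' → x' ≠ f v →
    ∃ u, InO u ∧ u * (f v - x') = b v) ?_
  refine (dDa α hα (wk hg) TT.last).imp ((DD.ne TT.last hf.weak).imp ?_)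
  refine DD.ex (Q := fun v u => InO u ∧ u * (f (Fin.init v) - v (Fin.last m)) = b (Fin.init v)) ?_
  exact (DD.val TT.last).and (DD.eq (TT.last.mul (hf.weak.weak.sub TT.last.weak)) hb.weak.weak)

variable (α : Fm) (hα : α.syms ⊆ Sg)

section
variable {m : ℕ} {g : (Fin m → K p) → ℕ → K p} {q : (Fin m → K p) → Fin 10 → K p}

include hα in
theorem dB (hg : ∀ i, TT m (fun v => g v i)) (hq : ∀ i, TT m (fun v => q v i))
    {f : (Fin m → K p) → K p} (hf : TT m f) :
    DD I Sg m (fun v => (Rc (Da I α (g v)) (q v)).B (f v)) := dBB α hα hg (hq 1) (hq 2) hf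

theorem dS (hq : ∀ i, TT m (fun v => q v i))
    {f f' : (Fin m → K p) → K p} (hf : TT m f) (hf' : TT m f') :
    DD I Sg m (fun v => (Rc (Da I α (g v)) (q v)).s (f v) (f' v)) :=
  dTh (hq 0) (hq 4) (hq 5) (TJ (hq 0) hf hf')

theorem dA (hq : ∀ i, TT m (fun v => q v i))
    {f f' f'' : (Fin m → K p) → K p} (hf : TT m f) (hf' : TT m f') (hf'' : TT m f'') :
    DD I Sg m (fun v => (Rc (Da I α (g v)) (q v)).A (f v) (f' v) (f'' v)) :=
  dTh (hq 0) (hq 6) (hq 7) (TJ (hq 0) hf (TJ (hq 0) hf' hf''))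

theorem dM (hq : ∀ i, TT m (fun v => q v i))
    {f f' f'' : (Fin m → K p) → K p} (hf : TT m f) (hf' : TT m f') (hf'' : TT m f'') :
    DD I Sg m (fun v => (Rc (Da I α (g v)) (q v)).M (f v) (f' v) (f'' v)) :=
  dTh (hq 0) (hq 8) (hq 9) (TJ (hq 0) hf (TJ (hq 0) hf' hf''))

end

include hα in
theorem dAx {m : ℕ} {g : (Fin m → K p) → ℕ → K p} {q : (Fin m → K p) → Fin 10 → K p}
    (hg : ∀ i, TT m (fun v => g v i)) (hq : ∀ i, TT m (fun v => q v i)) :
    DD I Sg m (fun v => (Rc (Da I α (g v)) (q v)).Ax) := by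
  have hg1 := wk hg
  have hq1 := wk hq
  have hg2 := wk hg1
  have hq2 := wk hq1
  have hg3 := wk hg2
  have hq3 := wk hq2
  have hg4 := wk hg3
  have hq4 := wk hq3
  have hg5 := wk hg4
  have hq5 := wk hq4
  refine DD.and (dB α hα hg hq (hq 3)) (DD.and ?_ (DD.and ?_ (DD.and ?_ (DD.and ?_
    (DD.and ?_ ?_)))))
  · refine DD.all (Q := fun v x => (Rc (Da I α (g v)) (q v)).B x →
      ¬ (Rc (Da I α (g v)) (q v)).s x (q v 3)) ?_
    exact (dB α hα hg1 hq1 TT.last).imp (dS α hq1 TT.last (hq1 3)).not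
  · refine DD.all (Q := fun v x => ∀ x' y, (Rc (Da I α (g v)) (q v)).B x →
      (Rc (Da I α (g v)) (q v)).B x' → (Rc (Da I α (g v)) (q v)).B y →
      (Rc (Da I α (g v)) (q v)).s x y → (Rc (Da I α (g v)) (q v)).s x' y → x = x') ?_
    refine DD.all ?_
    refine DD.all ?_
    exact (dB α hα hg3 hq3 TT.last.weak.weak).imp ((dB α hα hg3 hq3 TT.last.weak).imp
      ((dB α hα hg3 hq3 TT.last).imp ((dS α hq3 TT.last.weak.weak TT.last).imp
        ((dS α hq3 TT.last.weak TT.last).imp (DD.eq TT.last.weak.weak TT.last.weak)))))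
  · refine DD.all (Q := fun v x => ∀ w, (Rc (Da I α (g v)) (q v)).B x →
      (Rc (Da I α (g v)) (q v)).B w → (Rc (Da I α (g v)) (q v)).A x (q v 3) w → w = x) ?_
    refine DD.all ?_
    exact (dB α hα hg2 hq2 TT.last.weak).imp ((dB α hα hg2 hq2 TT.last).imp
      ((dA α hq2 TT.last.weak (hq2 3) TT.last).imp (DD.eq TT.last TT.last.weak)))
  · refine DD.all (Q := fun v x => ∀ y y' w', (Rc (Da I α (g v)) (q v)).B x →
      (Rc (Da I α (g v)) (q v)).B y → (Rc (Da I α (g v)) (q v)).B y' →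
      (Rc (Da I α (g v)) (q v)).B w' → (Rc (Da I α (g v)) (q v)).s y y' →
      (Rc (Da I α (g v)) (q v)).A x y' w' →
      ∃ w, (Rc (Da I α (g v)) (q v)).B w ∧ (Rc (Da I α (g v)) (q v)).A x y w ∧
        (Rc (Da I α (g v)) (q v)).s w w') ?_
    refine DD.all ?_
    refine DD.all ?_
    refine DD.all ?_
    refine (dB α hα hg4 hq4 TT.last.weak.weak.weak).imp
      ((dB α hα hg4 hq4 TT.last.weak.weak).imp ((dB α hα hg4 hq4 TT.last.weak).imp
      ((dB α hα hg4 hq4 TT.last).imp ((dS α hq4 TT.last.weak.weak TT.last.weak).imp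
      ((dA α hq4 TT.last.weak.weak.weak TT.last.weak TT.last).imp ?_)))))
    refine DD.ex ?_
    exact (dB α hα hg5 hq5 TT.last).and ((dA α hq5 TT.last.weak.weak.weak.weak
      TT.last.weak.weak.weak TT.last).and (dS α hq5 TT.last TT.last.weak))
  · refine DD.all (Q := fun v x => ∀ w, (Rc (Da I α (g v)) (q v)).B x →
      (Rc (Da I α (g v)) (q v)).B w → (Rc (Da I α (g v)) (q v)).M x (q v 3) w → w = q v 3) ?_
    refine DD.all ?_
    exact (dB α hα hg2 hq2 TT.last.weak).imp ((dB α hα hg2 hq2 TT.last).imp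
      ((dM α hq2 TT.last.weak (hq2 3) TT.last).imp (DD.eq TT.last (hq2 3))))
  · refine DD.all (Q := fun v x => ∀ y y' w', (Rc (Da I α (g v)) (q v)).B x →
      (Rc (Da I α (g v)) (q v)).B y → (Rc (Da I α (g v)) (q v)).B y' →
      (Rc (Da I α (g v)) (q v)).B w' → (Rc (Da I α (g v)) (q v)).s y y' →
      (Rc (Da I α (g v)) (q v)).M x y' w' →
      ∃ w, (Rc (Da I α (g v)) (q v)).B w ∧ (Rc (Da I α (g v)) (q v)).M x y w ∧
        (Rc (Da I α (g v)) (q v)).A w x w') ?_
    refine DD.all ?_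
    refine DD.all ?_
    refine DD.all ?_
    refine (dB α hα hg4 hq4 TT.last.weak.weak.weak).imp
      ((dB α hα hg4 hq4 TT.last.weak.weak).imp ((dB α hα hg4 hq4 TT.last.weak).imp
      ((dB α hα hg4 hq4 TT.last).imp ((dS α hq4 TT.last.weak.weak TT.last.weak).imp
      ((dM α hq4 TT.last.weak.weak.weak TT.last.weak TT.last).imp ?_)))))
    refine DD.ex ?_
    exact (dB α hα hg5 hq5 TT.last).and ((dM α hq5 TT.last.weak.weak.weak.weak
      TT.last.weak.weak.weak TT.last).and (dA α hq5 TT.last TT.last.weak.weak.weak.weak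
      TT.last.weak))

end

end Pool.Agent.W877.UF
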