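import Mathlib
import Pool.Agent.W877.UF.Dfn

/-!
Definability of all parts, conclusion.
-/

set_option autoImplicit false

namespace Pool.Agent.W877.UF

section
variable {p : ℕ} [Fact p.Prime] {I : ℕ → List (K p) → Prop} {Sg : Set (ℕ × ℕ)}

variable (α : Fm) (hα : α.syms ⊆ Sg)

include hα in
theorem dIndC {m : ℕ} {g : (Fin m → K p) → ℕ → K p} {q : (Fin m → K p) → Fin 10 → K p}
    (hg : ∀ i, TT m (fun v => g v i)) (hq : ∀ i, TT m (fun v => q v i)) :
    DD I Sg m (fun v => IndC (q v 0) (Rc (Da I α (g v)) (q v))) := by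
  have hg1 := wk hg
  have hq1 := wk hq
  have hg2 := wk hg1
  have hq2 := wk hq1
  have hg3 := wk hg2
  have hq3 := wk hq2
  have hg4 := wk hg3
  have hq4 := wk hq3
  refine DD.all (Q := fun v c => ∀ y : K p, Th (q v 0) c y (q v 3) →
    (∀ x x', (Rc (Da I α (g v)) (q v)).B x → (Rc (Da I α (g v)) (q v)).B x' →
      Th (q v 0) c y x → (Rc (Da I α (g v)) (q v)).s x x' → Th (q v 0) c y x') →
      ∀ x, (Rc (Da I α (g v)) (q v)).B x → Th (q v 0) c y x) ?_
  refine DD.all ?_
  refine DD.imp (dTh (hq2 0) TT.last.weak TT.last (hq2 3)) (DD.imp ?_ ?_)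
  · refine DD.all ?_
    refine DD.all ?_
    exact (dB α hα hg4 hq4 TT.last.weak).imp ((dB α hα hg4 hq4 TT.last).imp
      ((dTh (hq4 0) TT.last.weak.weak.weak TT.last.weak.weak TT.last.weak).imp
      ((dS α hq4 TT.last.weak TT.last).imp
      (dTh (hq4 0) TT.last.weak.weak.weak TT.last.weak.weak TT.last))))
  · refine DD.all ?_
    exact (dB α hα hg3 hq3 TT.last).imp (dTh (hq3 0) TT.last.weak.weak TT.last.weak TT.last)

include hα in
theorem dStC {m : ℕ} {g : (Fin m → K p) → ℕ → K p} {q : (Fin m → K p) → Fin 10 → K p}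
    (hg : ∀ i, TT m (fun v => g v i)) (hq : ∀ i, TT m (fun v => q v i)) :
    DD I Sg m (fun v => StC (Da I α (g v)) (q v)) := by
  refine DD.and (dGood (hq 0)) (DD.and (DD.ne (hq 1) TT.zero) (DD.and (DD.ne (hq 2) TT.zero)
    (DD.and (dAx α hα hg hq) (dIndC α hα hg hq))))

include hα in
theorem dVal {V : Type} (c : Circ V) : ∀ {m : ℕ} {g : (Fin m → K p) → ℕ → K p}
    {q : (Fin m → K p) → Fin 10 → K p} {X : (Fin m → K p) → V → K p}
    {f : (Fin m → K p) → K p},
    (∀ i, TT m (fun v => g v i)) → (∀ i, TT m (fun v => q v i)) → (∀ i, TT m (fun v => X v i)) →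
    TT m f → DD I Sg m (fun v => (Rc (Da I α (g v)) (q v)).Val (X v) c (f v)) := by
  induction c with
  | var i => intro m g q X f hg hq hX hf; exact DD.eq hf (hX i)
  | zero => intro m g q X f hg hq hX hf; exact DD.eq hf (hq 3)
  | succ c ih =>
    intro m g q X f hg hq hX hf
    refine DD.ex (Q := fun v a' => (Rc (Da I α (g v)) (q v)).B a' ∧
      (Rc (Da I α (g v)) (q v)).Val (X v) c a' ∧ (Rc (Da I α (g v)) (q v)).s a' (f v)) ?_
    exact (dB α hα (wk hg) (wk hq) TT.last).and ((ih (wk hg) (wk hq) (wk hX) TT.last).and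
      (dS α (wk hq) TT.last hf.weak))
  | add c d ih1 ih2 =>
    intro m g q X f hg hq hX hf
    refine DD.ex (Q := fun v a₁ => ∃ a₂, (Rc (Da I α (g v)) (q v)).B a₁ ∧
      (Rc (Da I α (g v)) (q v)).B a₂ ∧
      (Rc (Da I α (g v)) (q v)).Val (X v) c a₁ ∧ (Rc (Da I α (g v)) (q v)).Val (X v) d a₂ ∧
      (Rc (Da I α (g v)) (q v)).A a₁ a₂ (f v)) ?_
    refine DD.ex ?_
    exact (dB α hα (wk (wk hg)) (wk (wk hq)) TT.last.weak).and
      ((dB α hα (wk (wk hg)) (wk (wk hq)) TT.last).and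
      ((ih1 (wk (wk hg)) (wk (wk hq)) (wk (wk hX)) TT.last.weak).and
      ((ih2 (wk (wk hg)) (wk (wk hq)) (wk (wk hX)) TT.last).and
      (dA α (wk (wk hq)) TT.last.weak TT.last hf.weak.weak))))
  | mul c d ih1 ih2 =>
    intro m g q X f hg hq hX hf
    refine DD.ex (Q := fun v a₁ => ∃ a₂, (Rc (Da I α (g v)) (q v)).B a₁ ∧
      (Rc (Da I α (g v)) (q v)).B a₂ ∧
      (Rc (Da I α (g v)) (q v)).Val (X v) c a₁ ∧ (Rc (Da I α (g v)) (q v)).Val (X v) d a₂ ∧
      (Rc (Da I α (g v)) (q v)).M a₁ a₂ (f v)) ?_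
    refine DD.ex ?_
    exact (dB α hα (wk (wk hg)) (wk (wk hq)) TT.last.weak).and
      ((dB α hα (wk (wk hg)) (wk (wk hq)) TT.last).and
      ((ih1 (wk (wk hg)) (wk (wk hq)) (wk (wk hX)) TT.last.weak).and
      ((ih2 (wk (wk hg)) (wk (wk hq)) (wk (wk hX)) TT.last).and
      (dM α (wk (wk hq)) TT.last.weak TT.last hf.weak.weak))))

theorem TT.weakN {m : ℕ} (d : ℕ) {f : (Fin m → K p) → K p} (h : TT m f) :
    TT (m + d) (fun v => f (fun i => v (Fin.castAdd d i))) := by
  obtain ⟨a, h1, h2⟩ := h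
  exact ⟨a, fun i hi => (h1 i hi).trans_le (Nat.le_add_right m d), fun s => h2 s⟩

include hα in
theorem dSol (d : ℕ) (L : List (Circ (Fin (d + 1)) × Circ (Fin (d + 1)))) {m : ℕ}
    {g : (Fin m → K p) → ℕ → K p} {q : (Fin m → K p) → Fin 10 → K p}
    {f : (Fin m → K p) → K p}
    (hg : ∀ i, TT m (fun v => g v i)) (hq : ∀ i, TT m (fun v => q v i)) (hf : TT m f) :
    DD I Sg m (fun v => (Rc (Da I α (g v)) (q v)).Sol d L (f v)) := by
  refine DD.exN d (P := fun v x => (∀ i, (Rc (Da I α (g v)) (q v)).B (x i)) ∧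
    ∀ r ∈ L, ∃ b, (Rc (Da I α (g v)) (q v)).B b ∧
      (Rc (Da I α (g v)) (q v)).Val (Fin.cons (f v) x : Fin (d + 1) → K p) r.1 b ∧
      (Rc (Da I α (g v)) (q v)).Val (Fin.cons (f v) x : Fin (d + 1) → K p) r.2 b) ?_
  have hg' : ∀ i, TT (m + d) (fun v : Fin (m + d) → K p =>
      g (fun i => v (Fin.castAdd d i)) i) := fun i => (hg i).weakN d
  have hq' : ∀ i, TT (m + d) (fun v : Fin (m + d) → K p =>
      q (fun i => v (Fin.castAdd d i)) i) := fun i => (hq i).weakN d
  have hX : ∀ i, TT (m + d) (fun v : Fin (m + d) → K p =>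
      (Fin.cons (f (fun i => v (Fin.castAdd d i))) (fun i => v (Fin.natAdd m i)) :
        Fin (d + 1) → K p) i) := by
    intro i
    refine Fin.cases ?_ (fun j => ?_) i
    · exact (hf.weakN d).congr fun v => by rw [Fin.cons_zero]
    · exact (TT.var (Fin.natAdd m j)).congr fun v => by rw [Fin.cons_succ]
  refine DD.and (DD.forallFin d fun i => dB α hα hg' hq' (TT.var (Fin.natAdd m i))) ?_
  refine DD.forallList L fun r => ?_
  refine DD.ex ?_
  exact (dB α hα (wk hg') (wk hq') TT.last).and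
    ((dVal α hα r.1 (wk hg') (wk hq') (wk hX) TT.last).and
      (dVal α hα r.2 (wk hg') (wk hq') (wk hX) TT.last))

end

theorem Tm.vars_bdd (a : Tm) : ∃ r : ℕ, ∀ i ∈ a.vars, i < r := by
  induction a with
  | var n => exact ⟨n + 1, by intro i hi; simp only [Tm.vars, Set.mem_singleton_iff] at hi; omega⟩
  | zero => exact ⟨0, by intro i hi; simp [Tm.vars] at hi⟩
  | one => exact ⟨0, by intro i hi; simp [Tm.vars] at hi⟩
  | neg a ih => exact ih
  | add a b iha ihb =>
    obtain ⟨r, h⟩ := iha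
    obtain ⟨r', h'⟩ := ihb
    exact ⟨max r r', fun i hi => hi.elim (fun hi => lt_max_of_lt_left (h i hi))
      (fun hi => lt_max_of_lt_right (h' i hi))⟩
  | mul a b iha ihb =>
    obtain ⟨r, h⟩ := iha
    obtain ⟨r', h'⟩ := ihb
    exact ⟨max r r', fun i hi => hi.elim (fun hi => lt_max_of_lt_left (h i hi))
      (fun hi => lt_max_of_lt_right (h' i hi))⟩

theorem Fm.fv_bdd (φ : Fm) : ∃ r : ℕ, ∀ i ∈ φ.fv, i < r := by
  induction φ with
  | eq a b =>
    obtain ⟨r, h⟩ := a.vars_bdd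
    obtain ⟨r', h'⟩ := b.vars_bdd
    exact ⟨max r r', fun i hi => hi.elim (fun hi => lt_max_of_lt_left (h i hi))
      (fun hi => lt_max_of_lt_right (h' i hi))⟩
  | val a => exact a.vars_bdd
  | rel k l =>
    induction l with
    | nil => exact ⟨0, by rintro i ⟨a, ha, _⟩; simp at ha⟩
    | cons a l ih =>
      obtain ⟨r, h⟩ := a.vars_bdd
      obtain ⟨r', h'⟩ := ih
      refine ⟨max r r', ?_⟩
      rintro i ⟨b, hb, hi⟩
      rcases List.mem_cons.1 hb with rfl | hb
      · exact lt_max_of_lt_left (h i hi)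
      · exact lt_max_of_lt_right (h' i ⟨b, hb, hi⟩)
  | not φ ih => exact ih
  | and φ ψ iha ihb =>
    obtain ⟨r, h⟩ := iha
    obtain ⟨r', h'⟩ := ihb
    exact ⟨max r r', fun i hi => hi.elim (fun hi => lt_max_of_lt_left (h i hi))
      (fun hi => lt_max_of_lt_right (h' i hi))⟩
  | ex n φ ih =>
    obtain ⟨r, h⟩ := ih
    exact ⟨r, fun i hi => h i hi.1⟩

section
variable {p : ℕ} [Fact p.Prime]

theorem Tm.ev_congr (a : Tm) {s s' : ℕ → K p} (h : ∀ i ∈ a.vars, s i = s' i) :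
    a.ev s = a.ev s' := by
  induction a with
  | var n => exact h n rfl
  | zero => rfl
  | one => rfl
  | neg a ih => simp only [Tm.ev]; rw [ih h]
  | add a b iha ihb =>
    simp only [Tm.ev]; rw [iha (fun i hi => h i (Or.inl hi)), ihb (fun i hi => h i (Or.inr hi))]
  | mul a b iha ihb =>
    simp only [Tm.ev]; rw [iha (fun i hi => h i (Or.inl hi)), ihb (fun i hi => h i (Or.inr hi))]

theorem Fm.sat_congr (I : ℕ → List (K p) → Prop) (φ : Fm) : ∀ {s s' : ℕ → K p},
    (∀ i ∈ φ.fv, s i = s' i) → (φ.Sat I s ↔ φ.Sat I s') := by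
  induction φ with
  | eq a b =>
    intro s s' h
    simp only [Fm.Sat]
    rw [a.ev_congr (fun i hi => h i (Or.inl hi)), b.ev_congr (fun i hi => h i (Or.inr hi))]
  | val a => intro s s' h; simp only [Fm.Sat]; rw [a.ev_congr h]
  | rel k l =>
    intro s s' h
    simp only [Fm.Sat]
    have : l.map (Tm.ev s) = l.map (Tm.ev s') :=
      List.map_congr_left fun a ha => a.ev_congr fun i hi => h i ⟨a, ha, hi⟩
    rw [this]
  | not φ ih => intro s s' h; simp only [Fm.Sat]; rw [ih h]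
  | and φ ψ ih1 ih2 =>
    intro s s' h
    simp only [Fm.Sat]
    rw [ih1 (fun i hi => h i (Or.inl hi)), ih2 (fun i hi => h i (Or.inr hi))]
  | ex n φ ih =>
    intro s s' h
    simp only [Fm.Sat]
    refine exists_congr fun x => ih fun i hi => ?_
    by_cases hin : i = n
    · subst hin; simp
    · rw [Function.update_of_ne hin, Function.update_of_ne hin]
      exact h i ⟨hi, hin⟩

end

/-- UF-DEFIN -/
theorem defin (p : ℕ) [Fact p.Prime] : StmDefin p := by
  intro I Sg α hα d L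
  obtain ⟨r, hr⟩ := α.fv_bdd
  let g : (Fin (10 + r) → K p) → ℕ → K p := fun v i =>
    if h : i < r then v (Fin.natAdd 10 ⟨i, h⟩) else 0
  let q : (Fin (10 + r) → K p) → Fin 10 → K p := fun v i => v (Fin.castAdd r i)
  have hg : ∀ i, TT (10 + r) (fun v => g v i) := by
    intro i
    by_cases h : i < r
    · exact (TT.var (Fin.natAdd 10 ⟨i, h⟩)).congr fun v => by simp only [g]; rw [dif_pos h]
    · exact TT.zero.congr fun v => by simp only [g]; rw [dif_neg h]
  have hq : ∀ i, TT (10 + r) (fun v => q v i) := fun i => TT.var (Fin.castAdd r i)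
  obtain ⟨St, s1, s2, s3⟩ := dStC (I := I) α hα hg hq
  obtain ⟨Ze, z1, z2, z3⟩ := DD.eq (I := I) (Sg := Sg) TT.last ((wk hq) 3)
  obtain ⟨Ph, f1, f2, f3⟩ := (dB (I := I) α hα (wk hg) (wk hq) TT.last).and
    (dSol α hα d L (wk hg) (wk hq) TT.last)
  obtain ⟨Sc, c1, c2, c3⟩ := (dB (I := I) α hα (wk (wk hg)) (wk (wk hq)) TT.last.weak).and
    ((dB α hα (wk (wk hg)) (wk (wk hq)) TT.last).and
      (dS (g := fun v => g (Fin.init (Fin.init v))) α (wk (wk hq)) TT.last.weak TT.last))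
  refine ⟨10 + r, fun v => Da I α (g v), q, fun v => ⟨g v, fun x => Iff.rfl⟩, ?_, St, Ze, Sc, Ph,
    s1, z1, c1, f1, s2, z2, c2, f2, ?_, ?_, ?_, ?_⟩
  · intro s q₀
    refine ⟨Fin.append q₀ (fun i : Fin r => s i), ?_, fun x => ?_⟩
    · funext i
      simp only [q]
      rw [Fin.append_left]
    · refine Fm.sat_congr I α fun i hi => ?_
      by_cases h0 : i = 0
      · subst h0; simp
      · rw [Function.update_of_ne h0, Function.update_of_ne h0]
        simp only [g]
        rw [dif_pos (hr i hi), Fin.append_right]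
  · intro s; exact s3 s
  · intro s
    rw [z3 s]
    beta_reduce
    rw [init_restrict]
    simp
  · intro s
    rw [f3 s]
    beta_reduce
    rw [init_restrict]
    simp
  · intro s
    rw [c3 s]
    beta_reduce
    rw [init_restrict, init_restrict]
    simp [Fin.init]

end Pool.Agent.W877.UF
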