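import Pool.Agent.W877.UF.Stm2
import Pool.Agent.Helper844.DPRM

set_option autoImplicit false

namespace Pool.Agent.W877.UF

namespace DPR

open Nat.Partrec (Code)
open Pool.Agent.Helper844.Dio

theorem comp_pred {α β : Type*} [Primcodable α] [Primcodable β] {p : β → Prop} {g : α → β}
    (hp : ComputablePred p) (hg : Computable g) : ComputablePred (fun a => p (g a)) := by
  obtain ⟨f, hf, rfl⟩ := ComputablePred.computable_iff.1 hp
  exact ComputablePred.computable_iff.2 ⟨fun a => f (g a), hf.comp hg, rfl⟩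

theorem exists_halting : ∃ S : ℕ → Prop, REPred S ∧ ¬ ComputablePred S := by
  refine ⟨fun n => (Code.eval (Denumerable.ofNat Code n) 0).Dom, ?_, ?_⟩
  · have h1 : Partrec fun n : ℕ => Code.eval (Denumerable.ofNat Code n) 0 :=
      Code.eval_part.comp (Computable.ofNat Code) (Computable.const 0)
    exact h1.dom_re
  · intro h
    have h2 := comp_pred h (Computable.encode (α := Code))
    refine ComputablePred.halting_problem 0 (h2.of_eq fun c => ?_)
    rw [Denumerable.ofNat_encode]

/-- a constant as a circuit -/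
def cst (V : Type) : ℕ → Circ V
  | 0 => .zero
  | n + 1 => .succ (cst V n)

theorem cst_ev {V : Type} (v : V → ℕ) (n : ℕ) : (cst V n).ev v = n := by
  induction n with
  | zero => rfl
  | succ n ih => show (cst V n).ev v + 1 = n + 1; rw [ih]

/-- every polynomial is a difference of two circuits -/
theorem split {α V : Type} (e : α → V) (p : Poly α) :
    ∃ c c' : Circ V, ∀ v : V → ℕ, p (v ∘ e) = (c.ev v : ℤ) - c'.ev v := by
  induction p using Poly.induction with
  | H1 i => exact ⟨.var (e i), .zero, fun v => by simp [Circ.ev]⟩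
  | H2 n =>
    refine ⟨cst V n.toNat, cst V (-n).toNat, fun v => ?_⟩
    rw [cst_ev, cst_ev]
    simp only [Poly.const_apply]
    omega
  | H3 f g hf hg =>
    obtain ⟨a, a', ha⟩ := hf
    obtain ⟨b, b', hb⟩ := hg
    refine ⟨.add a b', .add a' b, fun v => ?_⟩
    rw [Poly.sub_apply, ha, hb]
    simp only [Circ.ev]
    push_cast
    ring
  | H4 f g hf hg =>
    obtain ⟨a, a', ha⟩ := hf
    obtain ⟨b, b', hb⟩ := hg
    refine ⟨.add (.mul a b) (.mul a' b'), .add (.mul a b') (.mul a' b), fun v => ?_⟩
    rw [Poly.mul_apply, ha, hb]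
    simp only [Circ.ev]
    push_cast
    ring

end DPR

open DPR

theorem dprm_stm : StmDprm := by
  obtain ⟨S, hre, hnc⟩ := exists_halting
  obtain ⟨δ, _, p, hp⟩ := Pool.Agent.Helper844.Dio.finite_dummies (Pool.Agent.Helper844.Dio.dprm hre)
  let eδ := Fintype.equivFin δ
  let e : Unit ⊕ δ → Fin (Fintype.card δ + 1) := Sum.elim (fun _ => 0) (fun i => (eδ i).succ)
  obtain ⟨c, c', hc⟩ := split e p
  refine ⟨S, hnc, Fintype.card δ, [(c, c')], fun n => ?_⟩
  have h1 := hp (fun _ => n)
  have h2 : S n ↔ ∃ t, p (Sum.elim (fun _ => n) t) = 0 := h1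
  rw [h2]
  constructor
  · rintro ⟨t, ht⟩
    refine ⟨Fin.cons n (fun i => t (eδ.symm i)), by simp, ?_⟩
    intro q hq
    rw [List.mem_singleton] at hq
    subst hq
    have h3 := hc (Fin.cons n (fun i => t (eδ.symm i)))
    have h4 : (Fin.cons n (fun i => t (eδ.symm i)) : Fin (Fintype.card δ + 1) → ℕ) ∘ e = Sum.elim (fun _ => n) t := by
      funext x
      rcases x with x | x
      · simp [e]
      · simp [e]
    rw [h4, ht] at h3
    show c.ev _ = c'.ev _
    omega
  · rintro ⟨v, hv, hq⟩
    refine ⟨fun i => v (eδ i).succ, ?_⟩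
    have h3 := hc v
    have h4 : v ∘ e = Sum.elim (fun _ => n) (fun i => v (eδ i).succ) := by
      funext x
      rcases x with x | x
      · simp [e, hv]
      · simp [e]
    have h5 : c.ev v = c'.ev v := hq (c, c') (by simp)
    rw [h4, h5, sub_self] at h3
    exact h3

end Pool.Agent.W877.UF
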