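import Pool.Agent.W877.UF.Stm2

/-!
UF-FV: free variables and relation symbols of the sentences.
-/

set_option autoImplicit false

namespace Pool.Agent.W877.UF

lemma chi_fv_w839 (M : ℕ) (Sc Φ : Fm) (h1 : ∀ i ∈ Sc.fv, i < M + 2)
    (h2 : ∀ i ∈ Φ.fv, i < M + 1) : ∀ e, ∀ i ∈ (chi M Sc Φ e).fv, i < M + 1 := by
  intro e
  induction e with
  | zero => exact h2
  | succ e ih =>
    intro i hi
    simp only [chi, Fm.fv, Tm.vars, Set.mem_sdiff, Set.mem_union, Set.mem_singleton_iff] at hi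
    obtain ⟨h3, h4⟩ := hi
    rcases h3 with h3 | ⟨h3 | h3, h5⟩
    · have := h1 i h3
      omega
    · omega
    · exact ih i h3

lemma chi_syms_w839 (M : ℕ) (Sc Φ : Fm) (Sg : Set (ℕ × ℕ)) (h1 : Sc.syms ⊆ Sg)
    (h2 : Φ.syms ⊆ Sg) : ∀ e, (chi M Sc Φ e).syms ⊆ Sg := by
  intro e
  induction e with
  | zero => exact h2
  | succ e ih =>
    simp only [chi, Fm.syms]
    exact Set.union_subset h1 (Set.union_subset (Set.empty_subset _) ih)

lemma exs_fv_w839 : ∀ (k : ℕ) (φ : Fm), (exs k φ).fv = φ.fv \ {i | i < k} := by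
  intro k
  induction k with
  | zero =>
    intro φ
    simp [exs]
  | succ k ih =>
    intro φ
    rw [exs, ih]
    ext i
    simp only [Fm.fv, Set.mem_sdiff, Set.mem_singleton_iff, Set.mem_ofPred_eq]
    constructor
    · rintro ⟨⟨h1, h2⟩, h3⟩
      exact ⟨h1, by omega⟩
    · rintro ⟨h1, h2⟩
      exact ⟨⟨h1, by omega⟩, by omega⟩

lemma exs_syms_w839 : ∀ (k : ℕ) (φ : Fm), (exs k φ).syms = φ.syms := by
  intro k
  induction k with
  | zero => intro φ; rfl
  | succ k ih =>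
    intro φ
    rw [exs, ih]
    rfl

theorem fv_stm : StmFv := by
  intro M St Ze Sc Φ Sg h1 h2 h3 h4 g1 g2 g3 g4 e
  constructor
  · rw [fin, exs_fv_w839, Set.eq_empty_iff_forall_notMem]
    intro i hi
    simp only [Fm.fv, Set.mem_sdiff, Set.mem_union, Set.mem_singleton_iff, Set.mem_ofPred_eq] at hi
    obtain ⟨h5, h6⟩ := hi
    rcases h5 with h5 | ⟨h5 | h5, h7⟩
    · exact h6 (h1 i h5)
    · have := h2 i h5
      omega
    · have := chi_fv_w839 M Sc Φ h3 h4 e i h5
      omega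
  · rw [fin, exs_syms_w839]
    simp only [Fm.syms]
    exact Set.union_subset g1 (Set.union_subset g2 (chi_syms_w839 M Sc Φ Sg g3 g4 e))

end Pool.Agent.W877.UF
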