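import Mathlib
import Pool.Agent.W877.UF.Stm2

/-!
The condition on the uniformiser (project UF).
-/

set_option autoImplicit false

namespace Pool.Agent.W877.UF

section
variable {p : ℕ} [Fact p.Prime]

theorem HR_zero (t : K p) (k : ℕ) : HR t k 0 := by
  induction k with
  | zero => exact ⟨0, by simp [(Fact.out : p.Prime).ne_zero]⟩
  | succ k ih => exact ⟨0, by simpa [(Fact.out : p.Prime).ne_zero] using ih⟩

theorem HR_as (t : K p) (k : ℕ) (z : K p) : HR t k (z ^ p - z) := by
  induction k with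
  | zero => exact ⟨z, rfl⟩
  | succ k ih => exact ⟨0, by simpa [(Fact.out : p.Prime).ne_zero] using ih⟩

theorem HR_pow (t : K p) (k i : ℕ) (hi : 1 ≤ i) (hik : i ≤ k) (y : K p) :
    HR t k (t ^ i * y ^ p) := by
  induction k with
  | zero => omega
  | succ k ih =>
    rcases Nat.lt_or_ge k i with h | h
    · obtain rfl : i = k + 1 := by omega
      exact ⟨y, by simpa using HR_zero t k⟩
    · exact ⟨0, by simpa [(Fact.out : p.Prime).ne_zero] using ih h⟩

theorem coeff_TT0_pow_mul (k : ℕ) (x : K p) :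
    (TT0 p ^ k * x).coeff 0 = x.coeff (-(k : ℤ)) := by
  have h1 : TT0 p ^ k = HahnSeries.single (k : ℤ) (1 : ZMod p) := by
    rw [TT0, HahnSeries.single_pow]; simp
  have h2 : (HahnSeries.single (k : ℤ) (1 : ZMod p) * x).coeff (-(k : ℤ) + k) =
      1 * x.coeff (-(k : ℤ)) := HahnSeries.coeff_single_mul_add
  rw [h1]
  simpa using h2

theorem HR_coeff (hp : StmPth p) (k : ℕ) (hk : k ≤ p - 1) (x : K p) (hx : HR (TT0 p) k x) :
    x.coeff 0 = 0 := by
  induction k generalizing x with
  | zero =>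
    obtain ⟨z, rfl⟩ := hx
    have h := (hp z 0).1
    rw [mul_zero] at h
    rw [HahnSeries.coeff_sub, h, sub_self]
  | succ k ih =>
    obtain ⟨y, hy⟩ := hx
    have h1 := ih (by omega) _ hy
    rw [HahnSeries.coeff_sub, coeff_TT0_pow_mul] at h1
    have h2 := (hp y (-1)).2 ((p : ℤ) - (k + 1)) (by omega) (by omega)
    have h3 : (p : ℤ) * (-1) + ((p : ℤ) - (k + 1)) = -((k + 1 : ℕ) : ℤ) := by push_cast; ring
    rw [h3] at h2
    rw [h2, sub_zero] at h1
    exact h1

theorem natCast_coeff (k : ℕ) (n : ℤ) : ((k : K p)).coeff n = if n = 0 then (k : ZMod p) else 0 := by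
  have : (k : K p) = HahnSeries.C (k : ZMod p) := by simp
  rw [this, HahnSeries.C_apply, HahnSeries.coeff_single]
  split_ifs <;> rfl

theorem good_aux (ha : StmAS p) (hd : StmDec p) (G : AddSubgroup (K p))
    (hG : ∀ x, x ∈ G ↔ H (TT0 p) x) (N : ℕ) :
    ∀ x : K p, (∀ n : ℤ, n < -(N : ℤ) → x.coeff n = 0) → ∃ k : ℕ, k < p ∧ x - (k : K p) ∈ G := by
  have hp2 : 2 ≤ p := (Fact.out : p.Prime).two_le
  induction N using Nat.strong_induction_on with
  | _ N ih =>
    intro x hx
    rcases Nat.eq_zero_or_pos N with rfl | hN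
    · have : NeZero p := ⟨by omega⟩
      refine ⟨(x.coeff 0).val, ZMod.val_lt _, ?_⟩
      obtain ⟨z, hz⟩ := ha (x - ((x.coeff 0).val : K p)) (by
        intro n hn
        rw [HahnSeries.coeff_sub, natCast_coeff]
        split_ifs with h0
        · subst h0
          rw [ZMod.natCast_zmod_val, sub_self]
        · rw [hx n (by simp; omega), sub_zero])
      rw [hG, hz]
      exact HR_as _ _ z
    · obtain ⟨y, hy, hy0⟩ := hd x
      have hlt : N / p < N := Nat.div_lt_self hN (by omega)
      obtain ⟨k, hk, hkG⟩ := ih (N / p) hlt (y 0) (by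
        intro n hn
        rw [hy0]
        apply hx
        have h1 : N < p * (N / p) + p := by
          have := Nat.div_add_mod N p
          have := Nat.mod_lt N (show p > 0 by omega)
          omega
        have h2 : n + 1 ≤ -((N / p : ℕ) : ℤ) := by omega
        have h3 : (p : ℤ) * (n + 1) ≤ (p : ℤ) * (-((N / p : ℕ) : ℤ)) :=
          mul_le_mul_of_nonneg_left h2 (by positivity)
        have h4 : (N : ℤ) < (p : ℤ) * ((N / p : ℕ) : ℤ) + p := by exact_mod_cast h1
        nlinarith)
      refine ⟨k, hk, ?_⟩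
      have hsum : x = (∑ i ∈ Finset.range (p - 1), TT0 p ^ (i + 1) * y (i + 1) ^ p) + y 0 ^ p := by
        have e := Finset.sum_range_succ' (fun i => TT0 p ^ i * y i ^ p) (p - 1)
        rw [Nat.sub_add_cancel (by omega)] at e
        rw [hy, e]
        simp only [pow_zero, one_mul]
      have hx' : x - (k : K p) = (∑ i ∈ Finset.range (p - 1), TT0 p ^ (i + 1) * y (i + 1) ^ p) +
          ((y 0 ^ p - y 0) + (y 0 - (k : K p))) := by
        rw [hsum]; ring
      rw [hx']
      refine G.add_mem (G.sum_mem fun i hi => ?_) (G.add_mem ?_ hkG)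
      · rw [hG]
        exact HR_pow _ _ _ (by omega) (by have := Finset.mem_range.1 hi; omega) _
      · rw [hG]
        exact HR_as _ _ _

end

/-- UF-GOOD -/
theorem goodT (p : ℕ) [Fact p.Prime] (hp : StmPth p) (ha : StmAS p) (hd : StmDec p)
    (hg : StmGrp p) : StmGood p := by
  obtain ⟨G, hG⟩ := hg (TT0 p)
  refine ⟨fun h => ?_, fun x => ?_⟩
  · have h1 := HR_coeff hp (p - 1) le_rfl 1 h
    rw [HahnSeries.coeff_one] at h1
    simp at h1
  · obtain ⟨k, hk, h⟩ := good_aux ha hd G hG (-x.order).toNat x (by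
      intro n hn
      apply HahnSeries.coeff_eq_zero_of_lt_order
      omega)
    exact ⟨k, hk, (hG _).1 h⟩

end Pool.Agent.W877.UF
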