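import Pool.Agent.W877.UF.Stm2

/-!
The subgroups `HR t k` (project UF).
-/

set_option autoImplicit false

namespace Pool.Agent.W877.UF

section
variable {p : ℕ} [Fact p.Prime]

theorem charP_K : CharP (K p) p :=
  charP_of_injective_algebraMap (algebraMap (ZMod p) (LaurentSeries (ZMod p))).injective p

theorem K_add_pow (x y : K p) : (x + y) ^ p = x ^ p + y ^ p := by
  have : CharP (K p) p := charP_K
  exact add_pow_char x y p

theorem K_zero_pow : (0 : K p) ^ p = 0 := zero_pow (Fact.out : p.Prime).ne_zero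

theorem K_neg_pow (x : K p) : (-x) ^ p = -x ^ p := by
  have h := K_add_pow (-x) x
  rw [neg_add_cancel, K_zero_pow] at h
  exact eq_neg_of_add_eq_zero_left h.symm

theorem HR_zero (t : K p) : ∀ k : ℕ, HR t k 0
  | 0 => ⟨0, by rw [K_zero_pow, sub_zero]⟩
  | k + 1 => ⟨0, by
      rw [K_zero_pow, mul_zero, sub_zero]
      exact HR_zero t k⟩

theorem HR_add (t : K p) : ∀ (k : ℕ) {x x' : K p}, HR t k x → HR t k x' → HR t k (x + x')
  | 0, x, x', ⟨z, hz⟩, ⟨z', hz'⟩ => ⟨z + z', by
      rw [K_add_pow, hz, hz']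
      ring⟩
  | k + 1, x, x', ⟨y, hy⟩, ⟨y', hy'⟩ => ⟨y + y', by
      have h := HR_add t k hy hy'
      have h2 : x + x' - t ^ (k + 1) * (y + y') ^ p =
          x - t ^ (k + 1) * y ^ p + (x' - t ^ (k + 1) * y' ^ p) := by
        rw [K_add_pow]
        ring
      rw [h2]
      exact h⟩

theorem HR_neg (t : K p) : ∀ (k : ℕ) {x : K p}, HR t k x → HR t k (-x)
  | 0, x, ⟨z, hz⟩ => ⟨-z, by
      rw [K_neg_pow, hz]
      ring⟩
  | k + 1, x, ⟨y, hy⟩ => ⟨-y, by
      have h := HR_neg t k hy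
      have h2 : -x - t ^ (k + 1) * (-y) ^ p = -(x - t ^ (k + 1) * y ^ p) := by
        rw [K_neg_pow]
        ring
      rw [h2]
      exact h⟩

theorem HR_of_AS (t : K p) (k : ℕ) {x : K p} (h : ∃ z, x = z ^ p - z) : HR t k x := by
  induction k with
  | zero => exact h
  | succ k ih =>
    refine ⟨0, ?_⟩
    rw [K_zero_pow, mul_zero, sub_zero]
    exact ih

theorem HR_of_term (t : K p) {i k : ℕ} (hi : 1 ≤ i) (hk : i ≤ k) (y : K p) :
    HR t k (t ^ i * y ^ p) := by
  induction k with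
  | zero => omega
  | succ k ih =>
    rcases Nat.lt_or_ge k i with h | h
    · have h1 : i = k + 1 := by omega
      refine ⟨y, ?_⟩
      rw [h1, sub_self]
      exact HR_zero t k
    · refine ⟨0, ?_⟩
      rw [K_zero_pow, mul_zero, sub_zero]
      exact ih h

/-- The subgroup given by `HR t k`. -/
def HRgrp (t : K p) (k : ℕ) : AddSubgroup (K p) where
  carrier := {x | HR t k x}
  zero_mem' := HR_zero t k
  add_mem' := fun h h' => HR_add t k h h'
  neg_mem' := fun h => HR_neg t k h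

theorem mem_HRgrp (t : K p) (k : ℕ) (x : K p) : x ∈ HRgrp t k ↔ HR t k x := Iff.rfl

theorem HR_mono (t : K p) {j k : ℕ} (hjk : j ≤ k) {x : K p} (h : HR t j x) : HR t k x := by
  induction k, hjk using Nat.le_induction with
  | base => exact h
  | succ k _ ih =>
    refine ⟨0, ?_⟩
    rw [K_zero_pow, mul_zero, sub_zero]
    exact ih

end

theorem grp (p : ℕ) [Fact p.Prime] : StmGrp p :=
  fun t => ⟨HRgrp t (p - 1), fun x => mem_HRgrp t (p - 1) x⟩

end Pool.Agent.W877.UF
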