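import Pool.Agent.W877.UF.Stm2

set_option autoImplicit false

namespace Pool.Agent.W877.UF

theorem jinj (p : ℕ) [Fact p.Prime] (hp : StmPth p) : StmJinj p := by
  intro a b a' b' h
  have hchar : CharP (K p) p :=
    charP_of_injective_ringHom (HahnSeries.C_injective (Γ := ℤ) (R := ZMod p)) p
  have hp1 : 1 < p := (Fact.out : p.Prime).one_lt
  have h1 : (a - a') ^ p + TT0 p * (b - b') ^ p = 0 := by
    rw [sub_pow_char, sub_pow_char]
    have : J (TT0 p) a b - J (TT0 p) a' b' = 0 := sub_eq_zero.2 h
    unfold J at this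
    linear_combination this
  have ht : ∀ (x : K p) (m : ℤ), (TT0 p * x).coeff m = x.coeff (m - 1) := by
    intro x m
    have := HahnSeries.coeff_single_mul_add (r := (1 : ZMod p)) (x := x) (a := m - 1) (b := 1)
    rw [sub_add_cancel, one_mul] at this
    exact this
  have hc : ∀ n : ℤ, (a - a').coeff n = 0 := by
    intro n
    have h2 := congrArg (fun x : K p => x.coeff ((p : ℤ) * n)) h1
    simp only [HahnSeries.coeff_add, HahnSeries.coeff_zero] at h2
    rw [(hp _ n).1, ht, show (p : ℤ) * n - 1 = (p : ℤ) * (n - 1) + ((p : ℤ) - 1) by ring,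
      (hp _ (n - 1)).2 _ (by omega) (by omega), add_zero] at h2
    exact h2
  have hd : ∀ n : ℤ, (b - b').coeff n = 0 := by
    intro n
    have h2 := congrArg (fun x : K p => x.coeff ((p : ℤ) * n + 1)) h1
    simp only [HahnSeries.coeff_add, HahnSeries.coeff_zero] at h2
    rw [(hp _ n).2 1 (by norm_num) (by omega), ht, add_sub_cancel_right, (hp _ n).1, zero_add] at h2
    exact h2
  constructor
  · rw [← sub_eq_zero]
    ext n
    rw [hc, HahnSeries.coeff_zero]
  · rw [← sub_eq_zero]
    ext n
    rw [hd, HahnSeries.coeff_zero]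

end Pool.Agent.W877.UF
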