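import Mathlib
import Pool.Agent.W877.UF.Stm2

/-!
UF-MAIN: the main theorem from the parts.
-/

set_option autoImplicit false

namespace Pool.Agent.W877.UF

theorem main (p : ℕ) [Fact p.Prime] (hS : StmRcS p) (hC : StmRcC p) (hsnd : StmSnd)
    (hcpl : StmCpl) (hdprm : StmDprm) (hcmp : StmCmp) (hfv : StmFv) (hsat : StmSat p)
    (hdef : StmDefin p) : StmMain p := by
  classical
  intro I Sg hdec α hα
  by_contra hcon
  push Not at hcon
  obtain ⟨S, hSc, d, L, hL⟩ := hdprm
  obtain ⟨M, D, q, hD1, hD2, St, Ze, Sc, Φ, f1, f2, f3, f4, y1, y2, y3, y4, s1, s2, s3, s4⟩ :=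
    hdef I Sg α hα d L
  obtain ⟨f, hf, hfs⟩ := hdec
  have key : ∀ e, (fin M St Ze Sc Φ e).Sat I (fun _ => 0) ↔ S e := by
    intro e
    rw [hsat I M St Ze Sc Φ (fun v => StC (D v) (q v)) (fun v x => x = q v 3)
      (fun v x => (Rc (D v) (q v)).B x ∧ (Rc (D v) (q v)).Sol d L x)
      (fun v x y => (Rc (D v) (q v)).B x ∧ (Rc (D v) (q v)).B y ∧ (Rc (D v) (q v)).s x y)
      s1 s2 s3 s4 e (fun _ => 0)]
    constructor
    · rintro ⟨v, hst, a, ha0, hsc, hB, hsol⟩
      have hAx := hst.2.2.2.1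
      have hInd := hS (D v) (q v) hst
      obtain ⟨ν, hν1, hν0, hν⟩ := hsnd (K p) (Rc (D v) (q v)) hAx hInd
      have hai : ∀ i, i ≤ e → ν (a i) = i := by
        intro i
        induction i with
        | zero =>
          intro _
          have ha0' : a 0 = (Rc (D v) (q v)).z := ha0
          rw [ha0']; exact hν0
        | succ i ih =>
          intro hi
          have h1 := hsc i (by omega)
          rw [hν1 _ _ h1.1 h1.2.1 h1.2.2, ih (by omega)]
      obtain ⟨w, hw0, hw⟩ := hν d L (a e) hB hsol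
      rw [hL]
      exact ⟨w, by rw [hw0, hai e le_rfl], hw⟩
    · intro hSe
      rw [hL] at hSe
      obtain ⟨w, hw0, hw⟩ := hSe
      obtain ⟨N₀, hN₀⟩ := hcpl d L w hw
      obtain ⟨s, hs⟩ := hcon N₀
      obtain ⟨F, hFsub, hFcard⟩ : ∃ F : Finset (K p),
          (∀ x ∈ F, Isolated (fun y => α.Sat I (Function.update s 0 y)) x) ∧
            N₀ + 1 ≤ F.card := by
        obtain ⟨t, ht, hte⟩ := Set.exists_subset_encard_eq (Order.add_one_le_of_lt hs)
        have hfin : t.Finite := by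
          rw [← Set.encard_lt_top_iff, hte]
          exact_mod_cast ENat.natCast_lt_top (N₀ + 1)
        refine ⟨hfin.toFinset, fun x hx => ht (hfin.mem_toFinset.mp hx), ?_⟩
        rw [hfin.encard_eq_coe_toFinset_card] at hte
        have : hfin.toFinset.card = N₀ + 1 := by exact_mod_cast hte
        omega
      obtain ⟨N', hN', q₀, β, hG, hm, hn, hT⟩ := hC _ F N₀ hFsub hFcard
      obtain ⟨v, hqv, hDv⟩ := hD2 s q₀
      have hDeq : D v = (fun y => α.Sat I (Function.update s 0 y)) := by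
        funext x; exact propext (hDv x)
      have hT' : IsTrue (Rc (D v) (q v)) N' β := by rw [hDeq, hqv]; exact hT
      obtain ⟨hAx, hInd, hle, hsol⟩ := hN₀ N' hN' (K p) (Rc (D v) (q v)) β hT'
      have heN : e ≤ N' := by rw [← hw0]; exact hle
      refine ⟨v, ⟨by rw [hqv]; exact hG, by rw [hqv]; exact hm, by rw [hqv]; exact hn, hAx, ?_⟩,
        β, ?_, ?_, ?_, ?_⟩
      · intro c y hz hst x hx
        exact hInd (Th (q v 0) c y) hz hst x hx
      · exact (hT'.2.2.1).symm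
      · intro i hi
        exact ⟨(hT'.2.1 _).2 ⟨i, by omega, rfl⟩, (hT'.2.1 _).2 ⟨i + 1, by omega, rfl⟩,
          (hT'.2.2.2.1 i (i + 1) (by omega) (by omega)).2 rfl⟩
      · exact (hT'.2.1 _).2 ⟨e, heN, rfl⟩
      · rw [← hw0]; exact hsol
  apply hSc
  rw [ComputablePred.computable_iff]
  refine ⟨fun e => f (fin M St Ze Sc Φ e).code, hf.comp (hcmp M St Ze Sc Φ), ?_⟩
  funext e
  apply propext
  have h1 := hfv M St Ze Sc Φ Sg f1 f2 f3 f4 y1 y2 y3 y4 e
  rw [← key e]
  exact (hfs _ h1.1 h1.2).symm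

end Pool.Agent.W877.UF
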