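import Mathlib
import Pool.Agent.W877.UF.Stm2

/-!
The coefficients of a `p`-th power of a Laurent series over the prime field.
-/

set_option autoImplicit false

namespace Pool.Agent.W877.UF

section
variable (p : ℕ) [Fact p.Prime]

theorem ps_pow (f : PowerSeries (ZMod p)) (m : ℕ) :
    PowerSeries.coeff m (f ^ p) = if p ∣ m then PowerSeries.coeff (m / p) f else 0 := by
  have hp : p ≠ 0 := (Fact.out : p.Prime).ne_zero
  have h1 : (PowerSeries.expand p hp f).map (frobenius (ZMod p) p) = f ^ p :=
    MvPowerSeries.map_frobenius_expand p hp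
  rw [← h1, PowerSeries.coeff_map, PowerSeries.coeff_expand, frobenius_def, ZMod.pow_card]

theorem ls_pow (y : K p) (m : ℤ) :
    (y ^ p).coeff m = if (p : ℤ) ∣ m then y.coeff (m / p) else 0 := by
  have hp : p.Prime := Fact.out
  have hp0 : (0 : ℤ) < p := by exact_mod_cast hp.pos
  have h1 : y ^ p = HahnSeries.single ((p : ℤ) * y.order) (1 : ZMod p) *
      (HahnSeries.ofPowerSeries ℤ (ZMod p) (y.powerSeriesPart ^ p)) := by
    conv_lhs => rw [← LaurentSeries.single_order_mul_powerSeriesPart y]
    rw [mul_pow, map_pow, HahnSeries.single_pow, one_pow, nsmul_eq_mul]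
  rw [h1]
  have h2 : m = (m - p * y.order) + p * y.order := by ring
  conv_lhs => rw [h2]
  rw [HahnSeries.coeff_single_mul_add, one_mul, PowerSeries.coeff_coe]
  split_ifs with h3 h4 h4
  · obtain ⟨k, rfl⟩ := h4
    rw [Int.mul_ediv_cancel_left _ hp0.ne']
    symm
    apply HahnSeries.coeff_eq_zero_of_lt_order
    nlinarith
  · rfl
  · obtain ⟨k, rfl⟩ := h4
    rw [Int.mul_ediv_cancel_left _ hp0.ne', ← mul_sub, Int.natAbs_mul, Int.natAbs_natCast, ps_pow,
      if_pos (dvd_mul_right _ _), Nat.mul_div_cancel_left _ hp.pos,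
      LaurentSeries.powerSeriesPart_coeff]
    congr 1
    have : 0 ≤ k - y.order := by
      by_contra h
      apply h3
      nlinarith
    rw [Int.natAbs_of_nonneg this]
    ring
  · rw [ps_pow, if_neg]
    intro h5
    apply h4
    rw [← Int.natCast_dvd] at h5
    have := h5.add (dvd_mul_right (p : ℤ) y.order)
    rwa [sub_add_cancel] at this

theorem pth : StmPth p := by
  intro y n
  have hp : p.Prime := Fact.out
  have hp0 : (0 : ℤ) < p := by exact_mod_cast hp.pos
  refine ⟨?_, ?_⟩
  · rw [ls_pow, if_pos (dvd_mul_right _ _), Int.mul_ediv_cancel_left _ hp0.ne']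
  · intro i hi hip
    rw [ls_pow, if_neg]
    intro h
    have h2 : (p : ℤ) ∣ i := by
      have := dvd_sub h (dvd_mul_right (p : ℤ) n)
      rwa [add_sub_cancel_left] at this
    have := Int.le_of_dvd hi h2
    omega

end

end Pool.Agent.W877.UF
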