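import Mathlib
import Pool.Agent.W877.UF.Stm2

/-!
UF-SAT: the meaning of the sentence.
-/

set_option autoImplicit false

namespace Pool.Agent.W877.UF

section
variable {p : ℕ} [Fact p.Prime]

theorem sat_exs (I : ℕ → List (K p) → Prop) (k : ℕ) : ∀ (φ : Fm) (s : ℕ → K p),
    (exs k φ).Sat I s ↔
      ∃ v : Fin k → K p, φ.Sat I (fun i => if h : i < k then v ⟨i, h⟩ else s i) := by
  induction k with
  | zero =>
    intro φ s
    have h1 : ∀ v : Fin 0 → K p, (fun i => if h : i < 0 then v ⟨i, h⟩ else s i) = s := by
      intro v
      funext i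
      exact dif_neg (Nat.not_lt_zero i)
    constructor
    · intro h
      refine ⟨fun i => i.elim0, ?_⟩
      rw [h1]
      exact h
    · rintro ⟨v, h⟩
      rw [h1] at h
      exact h
  | succ k ih =>
    intro φ s
    show (exs k (.ex k φ)).Sat I s ↔ _
    rw [ih]
    constructor
    · rintro ⟨v, x, hx⟩
      refine ⟨Fin.snoc (α := fun _ => K p) v x, ?_⟩
      have h1 : (fun i => if h : i < k + 1 then
          (Fin.snoc (α := fun _ => K p) v x : Fin (k + 1) → K p) ⟨i, h⟩ else s i) =
          Function.update (fun i => if h : i < k then v ⟨i, h⟩ else s i) k x := by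
        funext i
        rcases lt_trichotomy i k with hi | hi | hi
        · rw [dif_pos (by omega), Function.update_of_ne (by omega), dif_pos hi]
          exact Fin.snoc_castSucc (α := fun _ => K p) x v ⟨i, hi⟩
        · subst hi
          rw [dif_pos (by omega), Function.update_self]
          exact Fin.snoc_last (α := fun _ => K p) x v
        · rw [dif_neg (by omega), Function.update_of_ne (by omega), dif_neg (by omega)]
      rw [h1]
      exact hx
    · rintro ⟨v, hv⟩
      refine ⟨fun i => v ⟨i.1, by omega⟩, v ⟨k, by omega⟩, ?_⟩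
      have h1 : (fun i => if h : i < k + 1 then v ⟨i, h⟩ else s i) =
          Function.update (fun i => if h : i < k then v ⟨i, by omega⟩ else s i) k
            (v ⟨k, by omega⟩) := by
        funext i
        rcases lt_trichotomy i k with hi | hi | hi
        · rw [dif_pos (by omega), Function.update_of_ne (by omega), dif_pos hi]
        · subst hi
          rw [dif_pos (by omega), Function.update_self]
        · rw [dif_neg (by omega), Function.update_of_ne (by omega), dif_neg (by omega)]
      rw [h1] at hv
      exact hv

theorem sat_chi (I : ℕ → List (K p) → Prop) (M : ℕ) (Sc Φ : Fm)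
    (ph : (Fin M → K p) → K p → Prop) (sc : (Fin M → K p) → K p → K p → Prop)
    (hP : ∀ s : ℕ → K p, Φ.Sat I s ↔ ph (fun i => s i) (s M))
    (hS : ∀ s : ℕ → K p, Sc.Sat I s ↔ sc (fun i => s i) (s M) (s (M + 1))) (e : ℕ) :
    ∀ s : ℕ → K p, (chi M Sc Φ e).Sat I s ↔
      ∃ a : ℕ → K p, a 0 = s M ∧ (∀ i < e, sc (fun i => s i) (a i) (a (i + 1))) ∧
        ph (fun i => s i) (a e) := by
  induction e with
  | zero =>
    intro s
    show Φ.Sat I s ↔ _
    rw [hP]
    constructor
    · intro h
      exact ⟨fun _ => s M, rfl, fun i hi => absurd hi (Nat.not_lt_zero i), h⟩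
    · rintro ⟨a, h0, -, h⟩
      rw [← h0]
      exact h
  | succ e ih =>
    intro s
    show (∃ x, Sc.Sat I (Function.update s (M + 1) x) ∧ ∃ y,
      (Function.update (Function.update s (M + 1) x) M y) M =
        (Function.update (Function.update s (M + 1) x) M y) (M + 1) ∧
      (chi M Sc Φ e).Sat I (Function.update (Function.update s (M + 1) x) M y)) ↔ _
    have r1 : ∀ x : K p, (fun i : Fin M => Function.update s (M + 1) x i) = fun i : Fin M => s i := by
      intro x
      funext i
      exact Function.update_of_ne (by have := i.2; omega) _ _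
    have r2 : ∀ x y : K p, (fun i : Fin M => Function.update (Function.update s (M + 1) x) M y i) =
        fun i : Fin M => s i := by
      intro x y
      funext i
      rw [Function.update_of_ne (by have := i.2; omega),
        Function.update_of_ne (by have := i.2; omega)]
    have r3 : ∀ x y : K p, Function.update (Function.update s (M + 1) x) M y M = y := by
      intro x y
      exact Function.update_self _ _ _
    have r4 : ∀ x y : K p, Function.update (Function.update s (M + 1) x) M y (M + 1) = x := by
      intro x y
      rw [Function.update_of_ne (by omega), Function.update_self]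
    have r5 : ∀ x : K p, Sc.Sat I (Function.update s (M + 1) x) ↔ sc (fun i => s i) (s M) x := by
      intro x
      rw [hS, r1, Function.update_of_ne (by omega), Function.update_self]
    constructor
    · rintro ⟨x, h1, y, h2, h3⟩
      rw [r3, r4] at h2
      subst h2
      rw [r5] at h1
      rw [ih, r2, r3] at h3
      obtain ⟨a, h4, h5, h6⟩ := h3
      refine ⟨fun n => match n with | 0 => s M | n + 1 => a n, rfl, ?_, h6⟩
      intro i hi
      rcases i with _ | i
      · show sc (fun i => s i) (s M) (a 0)
        rw [h4]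
        exact h1
      · exact h5 i (by omega)
    · rintro ⟨a, h1, h2, h3⟩
      refine ⟨a 1, ?_, a 1, ?_, ?_⟩
      · rw [r5, ← h1]
        exact h2 0 (by omega)
      · rw [r3, r4]
      · rw [ih, r2, r3]
        exact ⟨fun n => a (n + 1), rfl, fun i hi => h2 (i + 1) (by omega), h3⟩

end

theorem sat_stm (p : ℕ) [Fact p.Prime] : StmSat p := by
  intro I M St Ze Sc Φ st ze ph sc hSt hZe hP hS e s
  show (exs M (.and St (.ex M (.and Ze (chi M Sc Φ e))))).Sat I s ↔ _
  rw [sat_exs]
  apply exists_congr
  intro v
  set s1 : ℕ → K p := fun i => if h : i < M then v ⟨i, h⟩ else s i with hs1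
  have r0 : (fun i : Fin M => s1 i) = v := by
    funext i
    simp only [hs1]
    exact dif_pos i.2
  have r1 : ∀ x : K p, (fun i : Fin M => Function.update s1 M x i) = v := by
    intro x
    rw [← r0]
    funext i
    exact Function.update_of_ne (by have := i.2; omega) _ _
  show (St.Sat I s1 ∧ ∃ x, Ze.Sat I (Function.update s1 M x) ∧
    (chi M Sc Φ e).Sat I (Function.update s1 M x)) ↔ _
  rw [hSt, r0]
  apply and_congr_right
  intro _
  have r2 : ∀ x : K p, (Ze.Sat I (Function.update s1 M x) ∧
      (chi M Sc Φ e).Sat I (Function.update s1 M x)) ↔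
      (ze v x ∧ ∃ a : ℕ → K p, a 0 = x ∧ (∀ i < e, sc v (a i) (a (i + 1))) ∧ ph v (a e)) := by
    intro x
    rw [hZe, sat_chi I M Sc Φ ph sc hP hS e, r1, Function.update_self]
  constructor
  · rintro ⟨x, hx⟩
    obtain ⟨h1, a, h2, h3, h4⟩ := (r2 x).1 hx
    exact ⟨a, by rw [h2]; exact h1, h3, h4⟩
  · rintro ⟨a, h1, h2, h3⟩
    exact ⟨a 0, (r2 _).2 ⟨h1, a, rfl, h2, h3⟩⟩

end Pool.Agent.W877.UF
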