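import Mathlib
import Pool.Agent.W877.UF.Grp
import Pool.Agent.W877.UF.Pth
import Pool.Agent.W877.UF.AS
import Pool.Agent.W877.UF.Dec
import Pool.Agent.W877.UF.GoodT
import Pool.Agent.W877.UF.Jinj
import Pool.Agent.W877.UF.Cod
import Pool.Agent.W933.UF.FinB
import Pool.Agent.W877.UF.Big
import Pool.Agent.W137.UF.Snd
import Pool.Agent.W877.UF.Cpl
import Pool.Agent.W877.UF.Dprm
import Pool.Agent.W877.UF.Cmp
import Pool.Agent.W877.UF.Fv
import Pool.Agent.W877.UF.SatS
import Pool.Agent.W877.UF.RcS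
import Pool.Agent.W877.UF.RcC
import Pool.Agent.W877.UF.Main
import Pool.Agent.W877.UF.Defin

set_option autoImplicit false

namespace Pool.Agent.W877.UF

theorem mainAll (p : ℕ) [Fact p.Prime] : StmMain p := by
  have hp := pth p
  have hg := grp p
  have hc := cod p
  have hf := Pool.Agent.W933.UF.finB p
  exact main p (rcs p hf hc hg)
    (rcc p hf (big p) hc hg (jinj p hp) (goodT p hp (as_stm p hp) (dec p hp) hg))
    Pool.Agent.W137.UF.snd cpl dprm_stm cmp fv_stm (sat_stm p) (defin p)

end Pool.Agent.W877.UF
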