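import Mathlib
import Pool.Agent.W877.UF.Defin

/-!
Consequences: expansions by discrete sets, correspondences from the value group to the field.
-/

set_option autoImplicit false

namespace Pool.Agent.W877.UF

section
variable {p : ℕ} [Fact p.Prime]

theorem order_nonneg {x : K p} (h : InO x) (hx : x ≠ 0) : 0 ≤ x.order := by
  by_contra hlt
  exact hx (HahnSeries.coeff_order_eq_zero.1 (h _ (not_le.1 hlt)))

theorem inO_of_order {x : K p} (h : 0 ≤ x.order) : InO x := by
  intro n hn
  exact HahnSeries.coeff_eq_zero_of_lt_order (lt_of_lt_of_le hn h)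

theorem isolated_of_finite {D : K p → Prop} (hD : {x | D x}.Finite) {x : K p} (hx : D x) :
    Isolated D x := by
  classical
  refine ⟨hx, ?_⟩
  have h : ∀ x' : K p, ∃ k : ℤ, (∀ i : ℤ, i < k → x'.coeff i = x.coeff i) → x' = x := by
    intro x'
    by_cases he : x' = x
    · exact ⟨0, fun _ => he⟩
    · have : ∃ i : ℤ, x'.coeff i ≠ x.coeff i := by
        by_contra hc
        push Not at hc
        exact he (HahnSeries.ext (funext hc))
      obtain ⟨i, hi⟩ := this
      exact ⟨i + 1, fun hh => absurd (hh i (lt_add_one i)) hi⟩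
  choose k hk using h
  obtain ⟨B, hB⟩ := (hD.image k).bddAbove
  refine ⟨B, fun x' hx' hag => hk x' fun i hi => hag i (lt_of_lt_of_le hi ?_)⟩
  exact hB ⟨x', hx', rfl⟩

/-- An expansion by an infinite discrete set is undecidable. -/
theorem discrete_undecidable (hM : StmMain p) (I : ℕ → List (K p) → Prop) (Sg : Set (ℕ × ℕ))
    (k : ℕ) (hk : (k, 1) ∈ Sg) (hinf : {x : K p | Isolated (fun y => I k [y]) x}.Infinite) :
    ¬ DecidableTheory I Sg := by
  intro hdec
  obtain ⟨N, hN⟩ := hM I Sg hdec (.rel k [.var 0]) (by simpa [Fm.syms] using hk)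
  have h1 := hN (fun _ => 0)
  have h2 : (fun y : K p => (Fm.rel k [.var 0]).Sat I (Function.update (fun _ => 0) 0 y)) =
      fun y => I k [y] := by
    funext y
    simp [Fm.Sat, Tm.ev]
  rw [h2, hinf.encard_eq] at h1
  exact absurd h1 (by simp)

/-- The auxiliary formula. -/
def alf (β : Fm) (r : ℕ) : Fm :=
  .ex (r + 1) (.and (.not (.eq (.var (r + 1)) .zero))
    (.and (.val (.mul (.var r) (.var (r + 1))))
      (.and (.ex (r + 2) (.and (.val (.var (r + 2)))
          (.eq (.mul (.var (r + 2)) (.var (r + 1))) (.var r))))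
        (.ex 1 (.and (.eq (.var 1) (.var 0))
          (.ex 0 (.and (.eq (.var 0) (.var (r + 1))) β)))))))

theorem alf_sat (I : ℕ → List (K p) → Prop) (β : Fm) (r : ℕ) (hr : 2 ≤ r)
    (hβ : ∀ i ∈ β.fv, i < r) (s : ℕ → K p) (n z : K p) :
    (alf β r).Sat I (Function.update (Function.update s r n) 0 z) ↔
      ∃ x, x ≠ 0 ∧ InO (n * x) ∧ (∃ u, InO u ∧ u * x = n) ∧
        β.Sat I (Function.update (Function.update s 0 x) 1 z) := by
  have e0 : (0 : ℕ) ≠ r + 1 := by omega
  have e1 : r ≠ r + 1 := by omega
  have e2 : r ≠ 0 := by omega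
  have e3 : r + 1 ≠ r + 2 := by omega
  have e4 : r ≠ r + 2 := by omega
  have e5 : r + 1 ≠ 0 := by omega
  have e6 : r + 1 ≠ 1 := by omega
  simp only [alf, Fm.Sat, Tm.ev]
  refine exists_congr fun x => ?_
  refine and_congr ?_ (and_congr ?_ (and_congr ?_ ?_))
  · simp
  · simp [e1, e2]
  · refine exists_congr fun u => ?_
    simp [e1, e2, e3, e4]
  · constructor
    · rintro ⟨y, hy, x', hx', hb⟩
      simp only [Function.update_self] at hy hx'
      rw [Function.update_of_ne (show (0 : ℕ) ≠ 1 by norm_num), Function.update_of_ne e0,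
        Function.update_self] at hy
      rw [Function.update_of_ne e5, Function.update_of_ne e6, Function.update_self] at hx'
      subst hy hx'
      refine (Fm.sat_congr I β fun i hi => ?_).1 hb
      have hir := hβ i hi
      by_cases h0 : i = 0
      · subst h0; simp
      · by_cases h1 : i = 1
        · subst h1; simp
        · have h2 : i ≠ r + 1 := by omega
          have h3 : i ≠ r := by omega
          simp [h0, h1, h2, h3]
    · intro hb
      refine ⟨z, ?_, x, ?_, ?_⟩
      · simp only [Function.update_self]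
        rw [Function.update_of_ne (by norm_num), Function.update_of_ne e0, Function.update_self]
      · simp only [Function.update_self]
        rw [Function.update_of_ne e5, Function.update_of_ne e6, Function.update_self]
      · refine (Fm.sat_congr I β fun i hi => ?_).2 hb
        have hir := hβ i hi
        by_cases h0 : i = 0
        · subst h0; simp
        · by_cases h1 : i = 1
          · subst h1; simp
          · have h2 : i ≠ r + 1 := by omega
            have h3 : i ≠ r := by omega
            simp [h0, h1, h2, h3]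

theorem alf_syms (β : Fm) (r : ℕ) : (alf β r).syms = β.syms := by
  simp [alf, Fm.syms]

/-- Correspondences from the value group to the field with finite fibres have finite image. -/
theorem section_bound (hM : StmMain p) (I : ℕ → List (K p) → Prop) (Sg : Set (ℕ × ℕ))
    (hdec : DecidableTheory I Sg) (β : Fm) (hβ : β.syms ⊆ Sg) : ∃ N : ℕ, ∀ s : ℕ → K p,
    (∀ x x' y : K p, x ≠ 0 → x' ≠ 0 → x.order = x'.order →
      β.Sat I (Function.update (Function.update s 0 x) 1 y) →
      β.Sat I (Function.update (Function.update s 0 x') 1 y)) →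
    (∀ x : K p, x ≠ 0 →
      {y | β.Sat I (Function.update (Function.update s 0 x) 1 y)}.Finite) →
    {y | ∃ x : K p, x ≠ 0 ∧
      β.Sat I (Function.update (Function.update s 0 x) 1 y)}.encard ≤ N := by
  classical
  obtain ⟨r₀, hr₀⟩ := β.fv_bdd
  set r := r₀ + 2 with hr
  have hr2 : 2 ≤ r := by omega
  have hbr : ∀ i ∈ β.fv, i < r := fun i hi => (hr₀ i hi).trans (by omega)
  obtain ⟨N, hN⟩ := hM I Sg hdec (alf β r) (by rw [alf_syms]; exact hβ)
  refine ⟨N, fun s h1 h2 => ?_⟩
  have hfin : ∀ n : K p, n ≠ 0 →
      {z | (alf β r).Sat I (Function.update (Function.update s r n) 0 z)}.Finite := by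
    intro n hn
    have : {z | (alf β r).Sat I (Function.update (Function.update s r n) 0 z)} ⊆
        ⋃ k ∈ Set.Icc (-n.order) n.order, {y | β.Sat I (Function.update (Function.update s 0
          (HahnSeries.single k (1 : ZMod p) : K p)) 1 y)} := by
      intro z hz
      obtain ⟨x, hx, hnx, ⟨u, hu, hux⟩, hb⟩ := (alf_sat I β r hr2 hbr s n z).1 hz
      have hu0 : u ≠ 0 := by
        rintro rfl
        exact hn (by rw [← hux, zero_mul])
      have o1 : 0 ≤ n.order + x.order := by
        rw [← HahnSeries.order_mul hn hx]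
        exact order_nonneg hnx (mul_ne_zero hn hx)
      have o2 : x.order ≤ n.order := by
        rw [← hux, HahnSeries.order_mul hu0 hx]
        have := order_nonneg hu hu0
        omega
      simp only [Set.mem_iUnion]
      refine ⟨x.order, ⟨by omega, o2⟩, ?_⟩
      have hs : (HahnSeries.single x.order (1 : ZMod p) : K p) ≠ 0 :=
        HahnSeries.single_ne_zero one_ne_zero
      exact h1 x _ z hx hs (by rw [HahnSeries.order_single one_ne_zero]) hb
    refine Set.Finite.subset ?_ this
    refine Set.Finite.biUnion (Set.finite_Icc _ _) fun k _ => ?_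
    exact h2 _ (HahnSeries.single_ne_zero one_ne_zero)
  by_contra hcon
  rw [not_le] at hcon
  have hcon' : ((N + 1 : ℕ) : ℕ∞) ≤ {y | ∃ x : K p, x ≠ 0 ∧
      β.Sat I (Function.update (Function.update s 0 x) 1 y)}.encard := by
    have := Order.add_one_le_of_lt hcon
    simpa using this
  obtain ⟨F, hF, hFc⟩ := Set.exists_subset_encard_eq hcon'
  have hFf : F.Finite := by
    apply Set.finite_of_encard_le_coe (k := N + 1)
    rw [hFc]
  have hsel : ∀ y : K p, ∃ x : K p, y ∈ F → (x ≠ 0 ∧
      β.Sat I (Function.update (Function.update s 0 x) 1 y)) := by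
    intro y
    by_cases hy : y ∈ F
    · obtain ⟨x, hx⟩ := hF hy
      exact ⟨x, fun _ => hx⟩
    · exact ⟨0, fun h => absurd h hy⟩
  choose X hX using hsel
  obtain ⟨A, hA⟩ := (hFf.image (fun y => |(X y).order|)).bddAbove
  have hn0 : (HahnSeries.single A (1 : ZMod p) : K p) ≠ 0 :=
    HahnSeries.single_ne_zero one_ne_zero
  have hno : (HahnSeries.single A (1 : ZMod p) : K p).order = A :=
    HahnSeries.order_single one_ne_zero
  have hsub : F ⊆ {x | Isolated (fun y => (alf β r).Sat I (Function.update
      (Function.update s r (HahnSeries.single A (1 : ZMod p) : K p)) 0 y)) x} := by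
    intro y hy
    refine isolated_of_finite (hfin _ hn0) ?_
    obtain ⟨hx0, hb⟩ := hX y hy
    have hAy : |(X y).order| ≤ A := hA ⟨y, hy, rfl⟩
    rw [abs_le] at hAy
    refine (alf_sat I β r hr2 hbr s _ y).2 ⟨X y, hx0, ?_, ?_, hb⟩
    · apply inO_of_order
      rw [HahnSeries.order_mul hn0 hx0, hno]
      omega
    · refine ⟨HahnSeries.single A (1 : ZMod p) * (X y)⁻¹, ?_, ?_⟩
      · have hi0 : (X y)⁻¹ ≠ 0 := inv_ne_zero hx0
        apply inO_of_order
        rw [HahnSeries.order_mul hn0 hi0, hno]
        have h3 : (X y).order + (X y)⁻¹.order = 0 := by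
          rw [← HahnSeries.order_mul hx0 hi0, mul_inv_cancel₀ hx0, HahnSeries.order_one]
        omega
      · rw [mul_assoc, inv_mul_cancel₀ hx0, mul_one]
  have h5 := Set.encard_le_encard hsub
  rw [hFc] at h5
  have h6 := h5.trans (hN _)
  have h7 : (N + 1 : ℕ) ≤ N := by exact_mod_cast h6
  omega

end

end Pool.Agent.W877.UF
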