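import Mathlib
import Pool.Agent.W877.UF.Defin
import Pool.Agent.W877.UF.Jinj

/-!
Definable families of subsets of cartesian powers of the field.
-/

set_option autoImplicit false

namespace Pool.Agent.W877.UF

section
variable {p : ℕ} [Fact p.Prime]

/-- The assignment `s` with the first `n` variables replaced by the tuple `v`. -/
def asg (n : ℕ) (s : ℕ → K p) (v : Fin n → K p) : ℕ → K p :=
  fun i => if h : i < n then v ⟨i, h⟩ else s i

/-- `v` is an isolated point of `D`, a subset of the `n`-th power of the field. -/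
def IsolatedN {n : ℕ} (D : (Fin n → K p) → Prop) (v : Fin n → K p) : Prop :=
  D v ∧ ∃ k : ℤ, ∀ v', D v' → (∀ j, ∀ i : ℤ, i < k → (v' j).coeff i = (v j).coeff i) → v' = v

/-- Coding of tuples. -/
noncomputable def En (t : K p) : (n : ℕ) → (Fin n → K p) → K p
  | 0, _ => 0
  | n + 1, v => J t (v 0) (En t n (Fin.tail v))

theorem J_coeff (hp : StmPth p) (a b : K p) (n : ℤ) :
    (J (TT0 p) a b).coeff ((p : ℤ) * n) = a.coeff n ∧
      (J (TT0 p) a b).coeff ((p : ℤ) * n + 1) = b.coeff n := by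
  have hp1 : 1 < p := (Fact.out : p.Prime).one_lt
  have ht : ∀ (x : K p) (m : ℤ), (TT0 p * x).coeff m = x.coeff (m - 1) := by
    intro x m
    have := HahnSeries.coeff_single_mul_add (r := (1 : ZMod p)) (x := x) (a := m - 1) (b := 1)
    rw [sub_add_cancel, one_mul] at this
    exact this
  constructor
  · simp only [J, HahnSeries.coeff_add]
    rw [(hp _ n).1, ht, show (p : ℤ) * n - 1 = (p : ℤ) * (n - 1) + ((p : ℤ) - 1) by ring,
      (hp _ (n - 1)).2 _ (by omega) (by omega), add_zero]
  · simp only [J, HahnSeries.coeff_add]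
    rw [(hp _ n).2 1 (by norm_num) (by omega), ht, add_sub_cancel_right, (hp _ n).1, zero_add]

theorem En_ag (hp : StmPth p) (n : ℕ) : ∀ (k : ℤ), 0 ≤ k → ∀ v v' : Fin n → K p,
    (∀ i : ℤ, i < (p : ℤ) ^ n * k → (En (TT0 p) n v').coeff i = (En (TT0 p) n v).coeff i) →
    ∀ j, ∀ i : ℤ, i < k → (v' j).coeff i = (v j).coeff i := by
  have hp1 : 1 < p := (Fact.out : p.Prime).one_lt
  have hp1' : (1 : ℤ) < p := by exact_mod_cast hp1
  induction n with
  | zero => intro k hk v v' h j; exact j.elim0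
  | succ n ih =>
    intro k hk v v' h
    have hpn : (1 : ℤ) ≤ (p : ℤ) ^ n := one_le_pow₀ hp1'.le
    have hkk : k ≤ (p : ℤ) ^ n * k := by nlinarith
    have key : ∀ i : ℤ, i < (p : ℤ) ^ n * k → (v' 0).coeff i = (v 0).coeff i ∧
        (En (TT0 p) n (Fin.tail v')).coeff i = (En (TT0 p) n (Fin.tail v)).coeff i := by
      intro i hi
      have e : (p : ℤ) ^ (n + 1) * k = (p : ℤ) * ((p : ℤ) ^ n * k) := by ring
      constructor
      · have := h ((p : ℤ) * i) (by rw [e]; nlinarith)
        simp only [En] at this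
        rwa [(J_coeff hp _ _ i).1, (J_coeff hp _ _ i).1] at this
      · have := h ((p : ℤ) * i + 1) (by rw [e]; nlinarith)
        simp only [En] at this
        rwa [(J_coeff hp _ _ i).2, (J_coeff hp _ _ i).2] at this
    intro j
    refine Fin.cases ?_ (fun j => ?_) j
    · intro i hi
      exact (key i (lt_of_lt_of_le hi hkk)).1
    · intro i hi
      exact ih k hk (Fin.tail v) (Fin.tail v') (fun i hi => (key i hi).2) j i hi

theorem En_inj (hp : StmPth p) (n : ℕ) : Function.Injective (En (TT0 p) n) := by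
  induction n with
  | zero => intro v v' _; exact Subsingleton.elim _ _
  | succ n ih =>
    intro v v' h
    simp only [En] at h
    obtain ⟨h1, h2⟩ := jinj p hp _ _ _ _ h
    have h3 := ih h2
    funext j
    refine Fin.cases h1 (fun j => ?_) j
    exact congrFun h3 j

theorem TEn {m : ℕ} (n : ℕ) {t : (Fin m → K p) → K p} (ht : TT m t) :
    ∀ {X : (Fin m → K p) → Fin n → K p}, (∀ i, TT m (fun v => X v i)) →
    TT m (fun v => En (t v) n (X v)) := by
  induction n with
  | zero => intro X hX; exact TT.zero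
  | succ n ih =>
    intro X hX
    exact TJ ht (hX 0) (ih (X := fun v => Fin.tail (X v)) fun i => hX i.succ)

/-- The bound for subsets of cartesian powers. -/
theorem main_pow_of (hp : StmPth p) (I : ℕ → List (K p) → Prop)
    (Sg : Set (ℕ × ℕ))
    (hM : ∀ α : Fm, α.syms ⊆ Sg → ∃ N : ℕ, ∀ s : ℕ → K p,
      {x | Isolated (fun y => α.Sat I (Function.update s 0 y)) x}.encard ≤ N)
    (n : ℕ) (α : Fm) (hα : α.syms ⊆ Sg) :
    ∃ N : ℕ, ∀ s : ℕ → K p,
      {v : Fin n → K p | IsolatedN (fun v' => α.Sat I (asg n s v')) v}.encard ≤ N := by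
  classical
  obtain ⟨r, hr⟩ := α.fv_bdd
  let g : (Fin (2 + r) → K p) → ℕ → K p := fun w i =>
    if h : i < r then w (Fin.natAdd 2 ⟨i, h⟩) else 0
  have hg : ∀ i, TT (2 + r) (fun w => g w i) := by
    intro i
    by_cases h : i < r
    · exact (TT.var (Fin.natAdd 2 ⟨i, h⟩)).congr fun v => by simp only [g]; rw [dif_pos h]
    · exact TT.zero.congr fun v => by simp only [g]; rw [dif_neg h]
  have hDD : DD I Sg (2 + r) (fun w => ∃ v : Fin n → K p,
      w (Fin.castAdd r 0) = En (w (Fin.castAdd r 1)) n v ∧ α.Sat I (asg n (g w) v)) := by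
    refine DD.exN n ?_
    refine DD.and (DD.eq (TT.var (Fin.castAdd n (Fin.castAdd r 0)))
      (TEn n (TT.var (Fin.castAdd n (Fin.castAdd r 1))) fun i => TT.var (Fin.natAdd (2 + r) i))) ?_
    refine DD.subst α hα (g := fun u => asg n (g (fun i => u (Fin.castAdd n i)))
      (fun i => u (Fin.natAdd (2 + r) i))) fun i => ?_
    by_cases h : i < n
    · exact (TT.var (Fin.natAdd (2 + r) ⟨i, h⟩)).congr fun u => by
        simp only [asg]; rw [dif_pos h]
    · exact ((hg i).weakN n).congr fun u => by simp only [asg]; rw [dif_neg h]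
  obtain ⟨φ, h1, h2, h3⟩ := hDD
  obtain ⟨N, hN⟩ := hM φ h2
  refine ⟨N, fun s => ?_⟩
  let s' : ℕ → K p := fun j => if j = 1 then TT0 p else s (j - 2)
  have key : ∀ z : K p, φ.Sat I (Function.update s' 0 z) ↔
      ∃ v : Fin n → K p, z = En (TT0 p) n v ∧ α.Sat I (asg n s v) := by
    intro z
    rw [h3]
    refine exists_congr fun v => and_congr ?_ ?_
    · simp [s']
    · refine Fm.sat_congr I α fun i hi => ?_
      simp only [asg]
      by_cases h : i < n
      · rw [dif_pos h, dif_pos h]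
      · rw [dif_neg h, dif_neg h]
        simp only [g]
        rw [dif_pos (hr i hi)]
        have e : ((Fin.natAdd 2 (⟨i, hr i hi⟩ : Fin r) : Fin (2 + r)) : ℕ) = 2 + i := rfl
        rw [e, Function.update_of_ne (by omega)]
        simp only [s']
        rw [if_neg (by omega), Nat.add_sub_cancel_left]
  refine le_trans ?_ (hN s')
  rw [← (En_inj hp n).encard_image]
  refine Set.encard_le_encard ?_
  rintro z ⟨v, ⟨hv, k, hk⟩, rfl⟩
  refine ⟨(key _).2 ⟨v, rfl, hv⟩, (p : ℤ) ^ n * max k 0, fun z' hz' hag => ?_⟩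
  obtain ⟨v', rfl, hv'⟩ := (key z').1 hz'
  have := En_ag hp n (max k 0) (le_max_right _ _) v v' hag
  rw [hk v' hv' fun j i hi => this j i (lt_of_lt_of_le hi (le_max_left _ _))]

theorem main_pow (hM : StmMain p) (hp : StmPth p) (I : ℕ → List (K p) → Prop)
    (Sg : Set (ℕ × ℕ)) (hdec : DecidableTheory I Sg) (n : ℕ) (α : Fm) (hα : α.syms ⊆ Sg) :
    ∃ N : ℕ, ∀ s : ℕ → K p,
      {v : Fin n → K p | IsolatedN (fun v' => α.Sat I (asg n s v')) v}.encard ≤ N :=
  main_pow_of hp I Sg (hM I Sg hdec) n α hα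

end

end Pool.Agent.W877.UF
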