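import Mathlib
import Pool.Agent.W877.UF.Pow
import Pool.Agent.W877.UF.Cor

/-!
Locally constant correspondences with finite fibres have finite images.
-/

set_option autoImplicit false

namespace Pool.Agent.W877.UF

section
variable {p : ℕ} [Fact p.Prime]

/-- The relation between `m`-tuples and `k`-tuples defined by `β` with parameters `s`: the tuple
`x` is assigned to the first `m` variables, `y` to the next `k` variables. -/
def RR (I : ℕ → List (K p) → Prop) (β : Fm) (m k : ℕ) (s : ℕ → K p) (x : Fin m → K p)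
    (y : Fin k → K p) : Prop := β.Sat I (asg (m + k) s (Fin.append x y))

/-- The part of the image at scale `w`. -/
def YY {m k : ℕ} (R : (Fin m → K p) → (Fin k → K p) → Prop) (w : K p) (y : Fin k → K p) : Prop :=
  ∃ x, (∀ j, InO (w * x j)) ∧ R x y ∧ ∀ x' y', (∀ j, ∃ u, InO u ∧ u * w = x j - x' j) →
    R x' y' → ∀ z, (R x' z ↔ R x z)

theorem bd_coeff {w x : K p} (hw : w ≠ 0) (h : InO (w * x)) (i : ℤ) (hi : i < -w.order) :
    x.coeff i = 0 := by
  by_cases hx : x = 0
  · rw [hx, HahnSeries.coeff_zero]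
  · have h1 := order_nonneg h (mul_ne_zero hw hx)
    rw [HahnSeries.order_mul hw hx] at h1
    exact HahnSeries.coeff_eq_zero_of_lt_order (by omega)

theorem div_of_coeff {w d : K p} (hw : w ≠ 0) (h : ∀ i : ℤ, i ≤ w.order → d.coeff i = 0) :
    ∃ u, InO u ∧ u * w = d := by
  by_cases hd : d = 0
  · exact ⟨0, fun n _ => by rw [HahnSeries.coeff_zero], by rw [zero_mul, hd]⟩
  · have hi0 : w⁻¹ ≠ 0 := inv_ne_zero hw
    have ho : w.order < d.order := by
      by_contra hc
      exact hd (HahnSeries.coeff_order_eq_zero.1 (h _ (not_lt.1 hc)))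
    refine ⟨d * w⁻¹, ?_, by rw [mul_assoc, inv_mul_cancel₀ hw, mul_one]⟩
    apply inO_of_order
    rw [HahnSeries.order_mul hd hi0]
    have h3 : w.order + w⁻¹.order = 0 := by
      rw [← HahnSeries.order_mul hw hi0, mul_inv_cancel₀ hw, HahnSeries.order_one]
    omega

theorem YY_finite {m k : ℕ} (R : (Fin m → K p) → (Fin k → K p) → Prop)
    (hfin : ∀ x, {y | R x y}.Finite) {w : K p} (hw : w ≠ 0) : {y | YY R w y}.Finite := by
  classical
  let good : (Fin m → K p) → Prop := fun x => (∀ j, InO (w * x j)) ∧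
    ∀ x' y', (∀ j, ∃ u, InO u ∧ u * w = x j - x' j) → R x' y' → ∀ z, (R x' z ↔ R x z)
  let W : (Fin m → K p) → (Fin m → (Set.Icc (-w.order) w.order) → ZMod p) :=
    fun x j i => (x j).coeff i
  have hrep : ∀ c : Fin m → (Set.Icc (-w.order) w.order) → ZMod p, ∃ x : Fin m → K p,
      (∃ x', good x' ∧ W x' = c) → good x ∧ W x = c := by
    intro c
    by_cases h : ∃ x', good x' ∧ W x' = c
    · obtain ⟨x', hx'⟩ := h
      exact ⟨x', fun _ => hx'⟩
    · exact ⟨0, fun h' => absurd h' h⟩
  choose rep hrep using hrep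
  have hsub : {y | YY R w y} ⊆ ⋃ c, {y | R (rep c) y} := by
    rintro y ⟨x, hx1, hx2, hx3⟩
    simp only [Set.mem_iUnion]
    refine ⟨W x, ?_⟩
    obtain ⟨⟨g1, g2⟩, g3⟩ := hrep (W x) ⟨x, ⟨hx1, hx3⟩, rfl⟩
    refine (g2 x y (fun j => ?_) hx2 y).1 hx2
    refine div_of_coeff hw fun i hi => ?_
    rw [HahnSeries.coeff_sub]
    by_cases hlo : i < -w.order
    · rw [bd_coeff hw (g1 j) i hlo, bd_coeff hw (hx1 j) i hlo, sub_zero]
    · have := congrFun (congrFun g3 j) ⟨i, not_lt.1 hlo, hi⟩
      simp only [W] at this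
      rw [this, sub_self]
  exact (Set.finite_iUnion fun c => hfin (rep c)).subset hsub

theorem isolatedN_of_finite {k : ℕ} {D : (Fin k → K p) → Prop} (hD : {x | D x}.Finite)
    {x : Fin k → K p} (hx : D x) : IsolatedN D x := by
  classical
  refine ⟨hx, ?_⟩
  have h : ∀ x' : Fin k → K p, ∃ l : ℤ,
      (∀ j, ∀ i : ℤ, i < l → (x' j).coeff i = (x j).coeff i) → x' = x := by
    intro x'
    by_cases he : x' = x
    · exact ⟨0, fun _ => he⟩
    · have : ∃ j, ∃ i : ℤ, (x' j).coeff i ≠ (x j).coeff i := by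
        by_contra hc
        push Not at hc
        exact he (funext fun j => HahnSeries.ext (funext (hc j)))
      obtain ⟨j, i, hi⟩ := this
      exact ⟨i + 1, fun hh => absurd (hh j i (lt_add_one i)) hi⟩
  choose l hl using h
  obtain ⟨B, hB⟩ := (hD.image l).bddAbove
  refine ⟨B, fun x' hx' hag => hl x' fun j i hi => hag j i (lt_of_lt_of_le hi ?_)⟩
  exact hB ⟨x', hx', rfl⟩

variable {I : ℕ → List (K p) → Prop} {Sg : Set (ℕ × ℕ)}

theorem DD.allN {m : ℕ} (d : ℕ) {P : (Fin m → K p) → (Fin d → K p) → Prop}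
    (h : DD I Sg (m + d) (fun v => P (fun i => v (Fin.castAdd d i)) (fun i => v (Fin.natAdd m i)))) :
    DD I Sg m (fun v => ∀ x, P v x) :=
  (DD.exN d (P := fun v x => ¬ P v x) h.not).not.congr fun v => by simp

theorem TT_append {a m k : ℕ} {X : (Fin a → K p) → Fin m → K p} {Y : (Fin a → K p) → Fin k → K p}
    (hX : ∀ i, TT a (fun v => X v i)) (hY : ∀ i, TT a (fun v => Y v i)) (j : Fin (m + k)) :
    TT a (fun v => Fin.append (X v) (Y v) j) := by
  refine Fin.addCases (fun i => ?_) (fun i => ?_) j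
  · exact (hX i).congr fun v => by rw [Fin.append_left]
  · exact (hY i).congr fun v => by rw [Fin.append_right]

theorem dR (β : Fm) (hβ : β.syms ⊆ Sg) {a m k : ℕ} {g : (Fin a → K p) → ℕ → K p}
    {X : (Fin a → K p) → Fin m → K p} {Y : (Fin a → K p) → Fin k → K p}
    (hg : ∀ i, TT a (fun v => g v i))
    (hX : ∀ i, TT a (fun v => X v i)) (hY : ∀ i, TT a (fun v => Y v i)) :
    DD I Sg a (fun v => RR I β m k (g v) (X v) (Y v)) := by
  refine DD.subst β hβ (g := fun v => asg (m + k) (g v) (Fin.append (X v) (Y v))) fun i => ?_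
  by_cases h : i < m + k
  · exact (TT_append hX hY ⟨i, h⟩).congr fun v => by simp only [asg]; rw [dif_pos h]
  · exact (hg i).congr fun v => by simp only [asg]; rw [dif_neg h]

theorem dYY (β : Fm) (hβ : β.syms ⊆ Sg) {a m k : ℕ} {g : (Fin a → K p) → ℕ → K p}
    {W : (Fin a → K p) → K p} {Y : (Fin a → K p) → Fin k → K p}
    (hg : ∀ i, TT a (fun v => g v i)) (hW : TT a W) (hY : ∀ i, TT a (fun v => Y v i)) :
    DD I Sg a (fun v => YY (RR I β m k (g v)) (W v) (Y v)) := by
  have hg1 := fun i => (hg i).weakN m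
  have hW1 := hW.weakN m
  have hY1 := fun i => (hY i).weakN m
  have hx1 : ∀ i, TT (a + m) (fun v : Fin (a + m) → K p => v (Fin.natAdd a i)) :=
    fun i => TT.var (Fin.natAdd a i)
  have hg2 := fun i => (hg1 i).weakN m
  have hW2 := hW1.weakN m
  have hx2 := fun i => (hx1 i).weakN m
  have hx2' : ∀ i, TT (a + m + m) (fun v : Fin (a + m + m) → K p => v (Fin.natAdd (a + m) i)) :=
    fun i => TT.var (Fin.natAdd (a + m) i)
  have hg3 := fun i => (hg2 i).weakN k
  have hW3 := hW2.weakN k
  have hx3 := fun i => (hx2 i).weakN k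
  have hx3' := fun i => (hx2' i).weakN k
  have hy3 : ∀ i, TT (a + m + m + k) (fun v : Fin (a + m + m + k) → K p =>
      v (Fin.natAdd (a + m + m) i)) := fun i => TT.var (Fin.natAdd (a + m + m) i)
  have hg4 := fun i => (hg3 i).weakN k
  have hx4 := fun i => (hx3 i).weakN k
  have hx4' := fun i => (hx3' i).weakN k
  have hz4 : ∀ i, TT (a + m + m + k + k) (fun v : Fin (a + m + m + k + k) → K p =>
      v (Fin.natAdd (a + m + m + k) i)) := fun i => TT.var (Fin.natAdd (a + m + m + k) i)
  unfold YY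
  refine DD.exN m ?_
  refine DD.and (DD.forallFin m fun j => DD.val (hW1.mul (hx1 j))) (DD.and (dR β hβ hg1 hx1 hY1) ?_)
  refine DD.allN m ?_
  refine DD.allN k ?_
  refine DD.imp (DD.forallFin m fun j => ?_) (DD.imp (dR β hβ hg3 hx3' hy3) ?_)
  · refine DD.ex ?_
    exact (DD.val TT.last).and (DD.eq (TT.last.mul hW3.weak) ((hx3 j).weak.sub (hx3' j).weak))
  · refine DD.allN k ?_
    refine DD.congr ((DD.imp (dR β hβ hg4 hx4' hz4) (dR β hβ hg4 hx4 hz4)).and
      (DD.imp (dR β hβ hg4 hx4 hz4) (dR β hβ hg4 hx4' hz4))) fun v => ?_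
    constructor
    · rintro ⟨h1, h2⟩
      exact ⟨h1, h2⟩
    · rintro ⟨h1, h2⟩
      exact ⟨h1, h2⟩

/-- The bound for locally constant correspondences with finite fibres. -/
theorem loc_bound_of (hp : StmPth p)
    (hM : ∀ α : Fm, α.syms ⊆ Sg → ∃ N : ℕ, ∀ s : ℕ → K p,
      {x | Isolated (fun y => α.Sat I (Function.update s 0 y)) x}.encard ≤ N) (m k : ℕ)
    (β : Fm) (hβ : β.syms ⊆ Sg) : ∃ N : ℕ, ∀ s : ℕ → K p,
    (∀ x, {y | RR I β m k s x y}.Finite) →
    (∀ x y, RR I β m k s x y → ∃ l : ℤ, ∀ x' y',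
      (∀ j, ∀ i : ℤ, i < l → (x' j).coeff i = (x j).coeff i) → RR I β m k s x' y' →
        ∀ z, (RR I β m k s x' z ↔ RR I β m k s x z)) →
    {y | ∃ x, RR I β m k s x y}.encard ≤ N := by
  classical
  obtain ⟨r, hr⟩ := β.fv_bdd
  let g : (Fin (k + 1 + r) → K p) → ℕ → K p := fun w i =>
    if h : i < r then w (Fin.natAdd (k + 1) ⟨i, h⟩) else 0
  have hg : ∀ i, TT (k + 1 + r) (fun w => g w i) := by
    intro i
    by_cases h : i < r
    · exact (TT.var (Fin.natAdd (k + 1) ⟨i, h⟩)).congr fun v => by simp only [g]; rw [dif_pos h]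
    · exact TT.zero.congr fun v => by simp only [g]; rw [dif_neg h]
  obtain ⟨φ, h1, h2, h3⟩ := dYY (I := I) β hβ (m := m) (k := k) hg
    (TT.var (Fin.castAdd r (Fin.last k))) (Y := fun v i => v (Fin.castAdd r (Fin.castSucc i)))
    (fun i => TT.var (Fin.castAdd r (Fin.castSucc i)))
  obtain ⟨N, hN⟩ := main_pow_of hp I Sg hM k φ h2
  refine ⟨N, fun s hf hl => ?_⟩
  have key : ∀ (w : K p) (y : Fin k → K p), φ.Sat I (asg k (fun j => if j = k then w else
      s (j - (k + 1))) y) ↔ YY (RR I β m k s) w y := by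
    intro w y
    rw [h3]
    have eR : RR I β m k (g fun i => asg k (fun j => if j = k then w else s (j - (k + 1))) y i) =
        RR I β m k s := by
      funext x z
      refine propext (Fm.sat_congr I β fun i hi => ?_)
      simp only [asg]
      by_cases h : i < m + k
      · rw [dif_pos h, dif_pos h]
      · rw [dif_neg h, dif_neg h]
        simp only [g]
        rw [dif_pos (hr i hi)]
        have e : ((Fin.natAdd (k + 1) (⟨i, hr i hi⟩ : Fin r) : Fin (k + 1 + r)) : ℕ) =
          k + 1 + i := rfl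
        rw [e, dif_neg (by omega), if_neg (by omega), Nat.add_sub_cancel_left]
    have eW : asg k (fun j => if j = k then w else s (j - (k + 1))) y
        ((Fin.castAdd r (Fin.last k) : Fin (k + 1 + r)) : ℕ) = w := by
      simp [asg]
    have eY : (fun i : Fin k => asg k (fun j => if j = k then w else s (j - (k + 1))) y
        ((Fin.castAdd r (Fin.castSucc i) : Fin (k + 1 + r)) : ℕ)) = y := by
      funext i
      simp [asg]
    beta_reduce
    rw [eR, eW, eY]
  by_contra hcon
  rw [not_le] at hcon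
  have hcon' : ((N + 1 : ℕ) : ℕ∞) ≤ {y | ∃ x, RR I β m k s x y}.encard := by
    have := Order.add_one_le_of_lt hcon
    simpa using this
  obtain ⟨F, hF, hFc⟩ := Set.exists_subset_encard_eq hcon'
  have hFf : F.Finite := by
    apply Set.finite_of_encard_le_coe (k := N + 1)
    rw [hFc]
  have hsel : ∀ y : Fin k → K p, ∃ (x : Fin m → K p) (l : ℤ), y ∈ F → (RR I β m k s x y ∧
      ∀ x' y', (∀ j, ∀ i : ℤ, i < l → (x' j).coeff i = (x j).coeff i) → RR I β m k s x' y' →
        ∀ z, (RR I β m k s x' z ↔ RR I β m k s x z)) := by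
    intro y
    by_cases hy : y ∈ F
    · obtain ⟨x, hx⟩ := hF hy
      obtain ⟨l, hl'⟩ := hl x y hx
      exact ⟨x, l, fun _ => ⟨hx, hl'⟩⟩
    · exact ⟨0, 0, fun h => absurd h hy⟩
  choose X l hX using hsel
  obtain ⟨A, hA⟩ := (hFf.image (fun y => |l y| + ∑ j, |(X y j).order|)).bddAbove
  have hn0 : (HahnSeries.single A (1 : ZMod p) : K p) ≠ 0 :=
    HahnSeries.single_ne_zero one_ne_zero
  have hno : (HahnSeries.single A (1 : ZMod p) : K p).order = A :=
    HahnSeries.order_single one_ne_zero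
  have hsub : F ⊆ {v | IsolatedN (fun v' => φ.Sat I (asg k (fun j => if j = k then
      (HahnSeries.single A (1 : ZMod p) : K p) else s (j - (k + 1))) v')) v} := by
    intro y hy
    rw [Set.mem_ofPred_eq]
    refine isolatedN_of_finite ?_ ?_
    · refine (YY_finite (RR I β m k s) hf hn0).subset fun v hv => (key _ v).1 hv
    · refine (key _ y).2 ?_
      obtain ⟨hx, hloc⟩ := hX y hy
      have hAy : |l y| + ∑ j, |(X y j).order| ≤ A := hA ⟨y, hy, rfl⟩
      have hs0 : 0 ≤ ∑ j, |(X y j).order| := Finset.sum_nonneg fun j _ => abs_nonneg _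
      refine ⟨X y, fun j => ?_, hx, fun x' y' hn hr' => hloc x' y' (fun j i hi => ?_) hr'⟩
      · by_cases h0 : X y j = 0
        · rw [h0, mul_zero]
          intro n _
          rw [HahnSeries.coeff_zero]
        · apply inO_of_order
          rw [HahnSeries.order_mul hn0 h0, hno]
          have h5 : |(X y j).order| ≤ ∑ j, |(X y j).order| :=
            Finset.single_le_sum (f := fun j => |(X y j).order|)
              (fun j _ => abs_nonneg _) (Finset.mem_univ j)
          have h6 := neg_abs_le (X y j).order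
          have h7 := abs_nonneg (l y)
          omega
      · obtain ⟨u, hu, huw⟩ := hn j
        have h8 : (X y j - x' j).coeff i = 0 := by
          rw [← huw]
          by_cases hu0 : u = 0
          · rw [hu0, zero_mul, HahnSeries.coeff_zero]
          · apply HahnSeries.coeff_eq_zero_of_lt_order
            rw [HahnSeries.order_mul hu0 hn0, hno]
            have h9 := order_nonneg hu hu0
            have h10 := le_abs_self (l y)
            omega
        rw [HahnSeries.coeff_sub, sub_eq_zero] at h8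
        exact h8.symm
  have h5 := Set.encard_le_encard hsub
  rw [hFc] at h5
  have h6 := h5.trans (hN _)
  have h7 : (N + 1 : ℕ) ≤ N := by exact_mod_cast h6
  omega

theorem discrete_unbounded (hp : StmPth p)
    (hM : ∀ α : Fm, α.syms ⊆ Sg → ∃ N : ℕ, ∀ s : ℕ → K p,
      {x | Isolated (fun y => α.Sat I (Function.update s 0 y)) x}.encard ≤ N)
    (k n : ℕ) (hk : (k, n) ∈ Sg)
    (hinf : {v : Fin n → K p | IsolatedN (fun v' => I k (List.ofFn v')) v}.Infinite) :
    False := by
  obtain ⟨N, hN⟩ := main_pow_of hp I Sg hM n (.rel k (List.ofFn fun i : Fin n => .var i))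
    (by simpa [Fm.syms] using hk)
  have h1 := hN (fun _ => 0)
  have h2 : (fun v' : Fin n → K p => (Fm.rel k (List.ofFn fun i : Fin n => .var i)).Sat I
      (asg n (fun _ => 0) v')) = fun v' => I k (List.ofFn v') := by
    funext v'
    simp only [Fm.Sat, List.map_ofFn]
    congr 2
    funext i
    simp [Function.comp, Tm.ev, asg]
  rw [h2, hinf.encard_eq] at h1
  exact absurd h1 (by simp)

/-- An expansion by a relation with infinitely many isolated points is undecidable. -/
theorem discrete_undecidableN (hM : StmMain p) (hp : StmPth p) (k n : ℕ) (hk : (k, n) ∈ Sg)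
    (hinf : {v : Fin n → K p | IsolatedN (fun v' => I k (List.ofFn v')) v}.Infinite) :
    ¬ DecidableTheory I Sg := by
  intro hdec
  obtain ⟨N, hN⟩ := main_pow hM hp I Sg hdec n (.rel k (List.ofFn fun i : Fin n => .var i))
    (by simpa [Fm.syms] using hk)
  have h1 := hN (fun _ => 0)
  have h2 : (fun v' : Fin n → K p => (Fm.rel k (List.ofFn fun i : Fin n => .var i)).Sat I
      (asg n (fun _ => 0) v')) = fun v' => I k (List.ofFn v') := by
    funext v'
    simp only [Fm.Sat, List.map_ofFn]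
    congr 2
    funext i
    simp [Function.comp, Tm.ev, asg]
  rw [h2, hinf.encard_eq] at h1
  exact absurd h1 (by simp)

end

end Pool.Agent.W877.UF
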