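import Mathlib
import Pool.Agent.W877.UF.Stm2

/-!
The true structure is coded (project UF, part RCC).
-/

set_option autoImplicit false

namespace Pool.Agent.W877.UF

/-- Coding of the true structure on a large enough finite set of isolated points. -/
theorem rcc2 (p : ℕ) [Fact p.Prime] (hf : StmFin p) (hb : StmBig p) (hc : StmCod p)
    (hg : StmGrp p) (hj : StmJinj p) (ht : StmGood p) (D : K p → Prop) (F : Finset (K p)) (N : ℕ)
    (hF : ∀ x ∈ F, Isolated D x) (hN : N + 1 ≤ F.card) :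
    ∃ N' : ℕ, N ≤ N' ∧ ∃ (q : Fin 10 → K p) (β : ℕ → K p), q 0 = TT0 p ∧
      Good (q 0) ∧ q 1 ≠ 0 ∧ q 2 ≠ 0 ∧ IsTrue (Rc D q) N' β := by
  classical
  obtain ⟨m, n, hm, hn, hFB⟩ := hb D F hF
  have hfin : {x | BB D m n x}.Finite := hf D m n hm hn
  obtain ⟨B, hB⟩ : ∃ B : Finset (K p), ∀ x, x ∈ B ↔ BB D m n x :=
    ⟨hfin.toFinset, fun x => by simp⟩
  have hFsub : F ⊆ B := fun x hx => (hB x).2 (hFB x hx)
  have hcard : N + 1 ≤ B.card := le_trans hN (Finset.card_le_card hFsub)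
  obtain ⟨N', hN'⟩ : ∃ N' : ℕ, B.card = N' + 1 := ⟨B.card - 1, by omega⟩
  have hNN : N ≤ N' := by omega
  -- enumeration
  obtain ⟨β, hβinj, hβmem, hβsurj⟩ : ∃ β : ℕ → K p,
      (∀ i j, i ≤ N' → j ≤ N' → β i = β j → i = j) ∧ (∀ i, i ≤ N' → β i ∈ B) ∧
      (∀ x ∈ B, ∃ i ≤ N', x = β i) := by
    let e := B.equivFin
    refine ⟨fun i => if h : i < B.card then ((e.symm ⟨i, h⟩ : B) : K p) else 0, ?_, ?_, ?_⟩
    · intro i j hi hj' hij
      have h1 : i < B.card := by omega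
      have h2 : j < B.card := by omega
      simp only [h1, h2, dif_pos] at hij
      have h3 := e.symm.injective (Subtype.ext hij)
      exact congrArg Fin.val h3
    · intro i hi
      have h1 : i < B.card := by omega
      simp only [h1, dif_pos]
      exact (e.symm ⟨i, h1⟩).2
    · intro x hx
      refine ⟨(e ⟨x, hx⟩ : Fin B.card), by have := (e ⟨x, hx⟩).2; omega, ?_⟩
      have h1 : ((e ⟨x, hx⟩ : Fin B.card) : ℕ) < B.card := (e ⟨x, hx⟩).2
      simp only [h1, dif_pos, Fin.eta, Equiv.symm_apply_apply]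
  obtain ⟨G, hG⟩ := hg (TT0 p)
  have hcod : ∀ (P : Finset (K p)) (S : Set (K p)), ∃ c y : K p, ∀ b ∈ P,
      (Th (TT0 p) c y b ↔ b ∈ S) := by
    intro P S
    obtain ⟨c, y, h⟩ := hc G (fun h => ht.1 ((hG 1).1 h))
      (fun x => by
        obtain ⟨k, hk, hk'⟩ := ht.2 x
        exact ⟨k, hk, (hG _).2 hk'⟩) P S
    refine ⟨c, y, fun b hb => ?_⟩
    rw [h b hb]
    unfold Th
    constructor
    · rintro ⟨u, hu1, hu2⟩
      exact ⟨u, hu1, fun h => hu2 ((hG u).1 h)⟩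
    · rintro ⟨u, hu1, hu2⟩
      exact ⟨u, hu1, fun h => hu2 ((hG u).2 h)⟩
  obtain ⟨c1, y1, h1⟩ := hcod ((B ×ˢ B).image (fun z => J (TT0 p) z.1 z.2))
    {z | ∃ i, i + 1 ≤ N' ∧ z = J (TT0 p) (β i) (β (i + 1))}
  obtain ⟨c2, y2, h2⟩ := hcod ((B ×ˢ B ×ˢ B).image
      (fun z => J (TT0 p) z.1 (J (TT0 p) z.2.1 z.2.2)))
    {z | ∃ i j, i + j ≤ N' ∧ z = J (TT0 p) (β i) (J (TT0 p) (β j) (β (i + j)))}
  obtain ⟨c3, y3, h3⟩ := hcod ((B ×ˢ B ×ˢ B).image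
      (fun z => J (TT0 p) z.1 (J (TT0 p) z.2.1 z.2.2)))
    {z | ∃ i j, i ≤ N' ∧ j ≤ N' ∧ i * j ≤ N' ∧
      z = J (TT0 p) (β i) (J (TT0 p) (β j) (β (i * j)))}
  have hm2 : ∀ i j, i ≤ N' → j ≤ N' →
      J (TT0 p) (β i) (β j) ∈ (B ×ˢ B).image (fun z => J (TT0 p) z.1 z.2) := by
    intro i j hi hj'
    exact Finset.mem_image.2 ⟨(β i, β j),
      Finset.mem_product.2 ⟨hβmem i hi, hβmem j hj'⟩, rfl⟩
  have hm3 : ∀ i j k, i ≤ N' → j ≤ N' → k ≤ N' →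
      J (TT0 p) (β i) (J (TT0 p) (β j) (β k)) ∈ (B ×ˢ B ×ˢ B).image
      (fun z => J (TT0 p) z.1 (J (TT0 p) z.2.1 z.2.2)) := by
    intro i j k hi hj' hk
    exact Finset.mem_image.2 ⟨(β i, β j, β k),
      Finset.mem_product.2 ⟨hβmem i hi, Finset.mem_product.2 ⟨hβmem j hj', hβmem k hk⟩⟩, rfl⟩
  refine ⟨N', hNN, ![TT0 p, m, n, β 0, c1, y1, c2, y2, c3, y3], β, rfl, ?_, ?_, ?_, ?_, ?_, ?_, ?_,
    ?_, ?_⟩
  · exact ht
  · exact hm
  · exact hn
  · exact hβinj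
  · intro x
    show BB D m n x ↔ _
    rw [← hB x]
    constructor
    · exact hβsurj x
    · rintro ⟨i, hi, rfl⟩
      exact hβmem i hi
  · rfl
  · intro i j hi hj'
    show Th (TT0 p) c1 y1 (J (TT0 p) (β i) (β j)) ↔ _
    rw [h1 _ (hm2 i j hi hj')]
    constructor
    · rintro ⟨i', hi', he⟩
      obtain ⟨e1, e2⟩ := hj _ _ _ _ he
      have := hβinj i i' hi (by omega) e1
      have := hβinj j (i' + 1) hj' hi' e2
      omega
    · rintro rfl
      exact ⟨i, hj', rfl⟩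
  · intro i j k hi hj' hk
    show Th (TT0 p) c2 y2 (J (TT0 p) (β i) (J (TT0 p) (β j) (β k))) ↔ _
    rw [h2 _ (hm3 i j k hi hj' hk)]
    constructor
    · rintro ⟨i', j', hij, he⟩
      obtain ⟨e1, e23⟩ := hj _ _ _ _ he
      obtain ⟨e2, e3⟩ := hj _ _ _ _ e23
      have a1 := hβinj i i' hi (by omega) e1
      have a2 := hβinj j j' hj' (by omega) e2
      have a3 := hβinj k (i' + j') hk hij e3
      omega
    · rintro rfl
      exact ⟨i, j, hk, rfl⟩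
  · intro i j k hi hj' hk
    show Th (TT0 p) c3 y3 (J (TT0 p) (β i) (J (TT0 p) (β j) (β k))) ↔ _
    rw [h3 _ (hm3 i j k hi hj' hk)]
    constructor
    · rintro ⟨i', j', hi', hj'', hij, he⟩
      obtain ⟨e1, e23⟩ := hj _ _ _ _ he
      obtain ⟨e2, e3⟩ := hj _ _ _ _ e23
      have a1 := hβinj i i' hi hi' e1
      have a2 := hβinj j j' hj' hj'' e2
      have a3 := hβinj k (i' * j') hk hij e3
      subst a1 a2
      exact a3
    · rintro rfl
      exact ⟨i, j, hi, hj', hk, rfl⟩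

end Pool.Agent.W877.UF
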