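import Mathlib
import Pool.Agent.W877.UF.All
import Pool.Agent.W877.UF.RcC2
import Pool.Agent.W877.UF.Loc

/-!
The dichotomy: bounded numbers of isolated points, or all arithmetical sets reduce to the theory.
-/

set_option autoImplicit false

namespace Pool.Agent.W877.UF

open Pool.Agent.W137.UF

/-- First-order formulas of arithmetic with free variables indexed by `Fin n`: `add i j k` says
`x_k = x_i + x_j`, `mul i j k` says `x_k = x_i * x_j`. -/
inductive AF : ℕ → Type
  | add {n : ℕ} (i j k : Fin n) : AF n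
  | mul {n : ℕ} (i j k : Fin n) : AF n
  | not {n : ℕ} (φ : AF n) : AF n
  | and {n : ℕ} (φ ψ : AF n) : AF n
  | ex {n : ℕ} (φ : AF (n + 1)) : AF n

/-- Truth in the natural numbers. -/
def AF.Holds : {n : ℕ} → AF n → (Fin n → ℕ) → Prop
  | _, .add i j k, v => v k = v i + v j
  | _, .mul i j k, v => v k = v i * v j
  | _, .not φ, v => ¬ φ.Holds v
  | _, .and φ ψ, v => φ.Holds v ∧ ψ.Holds v
  | _, .ex φ, v => ∃ x : ℕ, φ.Holds (Fin.snoc (α := fun _ => ℕ) v x)

section
variable {p : ℕ} [Fact p.Prime]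

def gq (r : ℕ) (w : Fin (10 + r) → K p) : ℕ → K p :=
  fun i => if h : i < r then w (Fin.natAdd 10 ⟨i, h⟩) else 0

def qq (r : ℕ) (w : Fin (10 + r) → K p) : Fin 10 → K p := fun i => w (Fin.castAdd r i)

variable (I : ℕ → List (K p) → Prop) (α : Fm) (r : ℕ)

noncomputable def SR (w : Fin (10 + r) → K p) : Ar (K p) := Rc (Da I α (gq r w)) (qq r w)

def Vd (w : Fin (10 + r) → K p) : Prop := StC (Da I α (gq r w)) (qq r w)

def Eqv (w w' : Fin (10 + r) → K p) (a a' : K p) : Prop :=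
  ∃ c y : K p, (∀ x x', (SR I α r w).B x → (SR I α r w').B x' →
    Th (qq r w' 0) c y (J (qq r w' 0) x x') →
      (x = (SR I α r w).z ∧ x' = (SR I α r w').z) ∨
      ∃ x0 x0', (SR I α r w).B x0 ∧ (SR I α r w').B x0' ∧ (SR I α r w).s x0 x ∧
        (SR I α r w').s x0' x' ∧ Th (qq r w' 0) c y (J (qq r w' 0) x0 x0')) ∧
    Th (qq r w' 0) c y (J (qq r w' 0) a a')

def TR : {n : ℕ} → AF n → (Fin n → Fin (10 + r) → K p) → (Fin n → K p) → Prop
  | _, .add i j k, W, A => ∃ w, Vd I α r w ∧ ∃ b1 b2 b3, (SR I α r w).B b1 ∧ (SR I α r w).B b2 ∧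
      (SR I α r w).B b3 ∧ Eqv I α r (W i) w (A i) b1 ∧ Eqv I α r (W j) w (A j) b2 ∧
      Eqv I α r (W k) w (A k) b3 ∧ (SR I α r w).A b1 b2 b3
  | _, .mul i j k, W, A => ∃ w, Vd I α r w ∧ ∃ b1 b2 b3, (SR I α r w).B b1 ∧ (SR I α r w).B b2 ∧
      (SR I α r w).B b3 ∧ Eqv I α r (W i) w (A i) b1 ∧ Eqv I α r (W j) w (A j) b2 ∧
      Eqv I α r (W k) w (A k) b3 ∧ (SR I α r w).M b1 b2 b3
  | _, .not φ, W, A => ¬ TR φ W A
  | _, .and φ ψ, W, A => TR φ W A ∧ TR ψ W A
  | _, .ex φ, W, A => ∃ w, Vd I α r w ∧ ∃ a, (SR I α r w).B a ∧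
      TR φ (Fin.snoc (α := fun _ => Fin (10 + r) → K p) W w) (Fin.snoc (α := fun _ => K p) A a)

end

section
variable {p : ℕ} [Fact p.Prime] {I : ℕ → List (K p) → Prop} {Sg : Set (ℕ × ℕ)}
variable (α : Fm) (hα : α.syms ⊆ Sg) {r : ℕ} {m : ℕ}

theorem tg {b : (Fin m → K p) → Fin (10 + r) → K p} (hb : ∀ i, TT m (fun v => b v i)) :
    ∀ i, TT m (fun v => gq r (b v) i) := by
  intro i
  by_cases h : i < r
  · exact (hb (Fin.natAdd 10 ⟨i, h⟩)).congr fun v => by simp only [gq]; rw [dif_pos h]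
  · exact TT.zero.congr fun v => by simp only [gq]; rw [dif_neg h]

theorem tq {b : (Fin m → K p) → Fin (10 + r) → K p} (hb : ∀ i, TT m (fun v => b v i)) :
    ∀ i, TT m (fun v => qq r (b v) i) := fun i => hb (Fin.castAdd r i)

include hα in
theorem dB' {b : (Fin m → K p) → Fin (10 + r) → K p} (hb : ∀ i, TT m (fun v => b v i))
    {f : (Fin m → K p) → K p} (hf : TT m f) :
    DD I Sg m (fun v => (SR I α r (b v)).B (f v)) := dB α hα (tg hb) (tq hb) hf

theorem dS' {b : (Fin m → K p) → Fin (10 + r) → K p} (hb : ∀ i, TT m (fun v => b v i))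
    {f f' : (Fin m → K p) → K p} (hf : TT m f) (hf' : TT m f') :
    DD I Sg m (fun v => (SR I α r (b v)).s (f v) (f' v)) :=
  dS (g := fun v => gq r (b v)) α (tq hb) hf hf'

theorem dA' {b : (Fin m → K p) → Fin (10 + r) → K p} (hb : ∀ i, TT m (fun v => b v i))
    {f f' f'' : (Fin m → K p) → K p} (hf : TT m f) (hf' : TT m f') (hf'' : TT m f'') :
    DD I Sg m (fun v => (SR I α r (b v)).A (f v) (f' v) (f'' v)) :=
  dA (g := fun v => gq r (b v)) α (tq hb) hf hf' hf''

theorem dM' {b : (Fin m → K p) → Fin (10 + r) → K p} (hb : ∀ i, TT m (fun v => b v i))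
    {f f' f'' : (Fin m → K p) → K p} (hf : TT m f) (hf' : TT m f') (hf'' : TT m f'') :
    DD I Sg m (fun v => (SR I α r (b v)).M (f v) (f' v) (f'' v)) :=
  dM (g := fun v => gq r (b v)) α (tq hb) hf hf' hf''

include hα in
theorem dV' {b : (Fin m → K p) → Fin (10 + r) → K p} (hb : ∀ i, TT m (fun v => b v i)) :
    DD I Sg m (fun v => Vd I α r (b v)) := dStC α hα (tg hb) (tq hb)

include hα in
theorem dEqv {b b' : (Fin m → K p) → Fin (10 + r) → K p} (hb : ∀ i, TT m (fun v => b v i))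
    (hb' : ∀ i, TT m (fun v => b' v i)) {f f' : (Fin m → K p) → K p} (hf : TT m f)
    (hf' : TT m f') : DD I Sg m (fun v => Eqv I α r (b v) (b' v) (f v) (f' v)) := by
  unfold Eqv
  refine DD.ex ?_
  refine DD.ex ?_
  have hb2 := fun i => (hb i).weak.weak
  have hb2' := fun i => (hb' i).weak.weak
  have hb4 := fun i => (hb2 i).weak.weak
  have hb4' := fun i => (hb2' i).weak.weak
  have hb6 := fun i => (hb4 i).weak.weak
  have hb6' := fun i => (hb4' i).weak.weak
  refine DD.and ?_ (dTh (tq hb2' 0) TT.last.weak TT.last (TJ (tq hb2' 0) hf.weak.weak hf'.weak.weak))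
  refine DD.all ?_
  refine DD.all ?_
  refine DD.imp (dB' α hα hb4 TT.last.weak) (DD.imp (dB' α hα hb4' TT.last) (DD.imp
    (dTh (tq hb4' 0) TT.last.weak.weak.weak TT.last.weak.weak
      (TJ (tq hb4' 0) TT.last.weak TT.last)) ?_))
  refine DD.or ((DD.eq TT.last.weak (tq hb4 3)).and (DD.eq TT.last (tq hb4' 3))) ?_
  refine DD.ex ?_
  refine DD.ex ?_
  exact (dB' α hα hb6 TT.last.weak).and ((dB' α hα hb6' TT.last).and
    ((dS' α hb6 TT.last.weak TT.last.weak.weak.weak).and
    ((dS' α hb6' TT.last TT.last.weak.weak).and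
    (dTh (tq hb6' 0) TT.last.weak.weak.weak.weak.weak TT.last.weak.weak.weak.weak
      (TJ (tq hb6' 0) TT.last.weak TT.last)))))

include hα in
theorem dTR {n : ℕ} (φ : AF n) : ∀ {m : ℕ} {W : (Fin m → K p) → Fin n → Fin (10 + r) → K p}
    {A : (Fin m → K p) → Fin n → K p}, (∀ i j, TT m (fun v => W v i j)) →
    (∀ i, TT m (fun v => A v i)) → DD I Sg m (fun v => TR I α r φ (W v) (A v)) := by
  induction φ with
  | add i j k =>
    intro m W A hW hA
    simp only [TR]
    refine DD.exN (10 + r) ?_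
    have hw : ∀ i, TT (m + (10 + r)) (fun v : Fin (m + (10 + r)) → K p => v (Fin.natAdd m i)) :=
      fun i => TT.var (Fin.natAdd m i)
    have hW1 := fun i j => (hW i j).weakN (10 + r)
    have hA1 := fun i => (hA i).weakN (10 + r)
    have hw3 := fun i => (hw i).weak.weak.weak
    have hW3 := fun i j => (hW1 i j).weak.weak.weak
    have hA3 := fun i => (hA1 i).weak.weak.weak
    refine DD.and (dV' α hα hw) ?_
    refine DD.ex ?_
    refine DD.ex ?_
    refine DD.ex ?_
    exact (dB' α hα hw3 TT.last.weak.weak).and ((dB' α hα hw3 TT.last.weak).and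
      ((dB' α hα hw3 TT.last).and ((dEqv α hα (hW3 i) hw3 (hA3 i) TT.last.weak.weak).and
      ((dEqv α hα (hW3 j) hw3 (hA3 j) TT.last.weak).and
      ((dEqv α hα (hW3 k) hw3 (hA3 k) TT.last).and
      (dA' α hw3 TT.last.weak.weak TT.last.weak TT.last))))))
  | mul i j k =>
    intro m W A hW hA
    simp only [TR]
    refine DD.exN (10 + r) ?_
    have hw : ∀ i, TT (m + (10 + r)) (fun v : Fin (m + (10 + r)) → K p => v (Fin.natAdd m i)) :=
      fun i => TT.var (Fin.natAdd m i)
    have hW1 := fun i j => (hW i j).weakN (10 + r)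
    have hA1 := fun i => (hA i).weakN (10 + r)
    have hw3 := fun i => (hw i).weak.weak.weak
    have hW3 := fun i j => (hW1 i j).weak.weak.weak
    have hA3 := fun i => (hA1 i).weak.weak.weak
    refine DD.and (dV' α hα hw) ?_
    refine DD.ex ?_
    refine DD.ex ?_
    refine DD.ex ?_
    exact (dB' α hα hw3 TT.last.weak.weak).and ((dB' α hα hw3 TT.last.weak).and
      ((dB' α hα hw3 TT.last).and ((dEqv α hα (hW3 i) hw3 (hA3 i) TT.last.weak.weak).and
      ((dEqv α hα (hW3 j) hw3 (hA3 j) TT.last.weak).and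
      ((dEqv α hα (hW3 k) hw3 (hA3 k) TT.last).and
      (dM' α hw3 TT.last.weak.weak TT.last.weak TT.last))))))
  | not φ ih => intro m W A hW hA; simp only [TR]; exact (ih hW hA).not
  | and φ ψ ih1 ih2 => intro m W A hW hA; simp only [TR]; exact (ih1 hW hA).and (ih2 hW hA)
  | @ex n φ ih =>
    intro m W A hW hA
    simp only [TR]
    refine DD.exN (10 + r) ?_
    have hw : ∀ i, TT (m + (10 + r)) (fun v : Fin (m + (10 + r)) → K p => v (Fin.natAdd m i)) :=
      fun i => TT.var (Fin.natAdd m i)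
    have hW1 := fun i j => (hW i j).weakN (10 + r)
    have hA1 := fun i => (hA i).weakN (10 + r)
    have hw2 := fun i => (hw i).weak
    have hW2 := fun i j => (hW1 i j).weak
    have hA2 := fun i => (hA1 i).weak
    refine DD.and (dV' α hα hw) ?_
    refine DD.ex ?_
    refine (dB' α hα hw2 TT.last).and (ih ?_ ?_)
    · intro i j
      refine Fin.lastCases ?_ (fun i => ?_) i
      · exact (hw2 j).congr fun v => by rw [Fin.snoc_last]
      · exact (hW2 i j).congr fun v => by rw [Fin.snoc_castSucc]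
    · intro i
      refine Fin.lastCases ?_ (fun i => ?_) i
      · exact TT.last.congr fun v => by rw [Fin.snoc_last]
      · exact (hA2 i).congr fun v => by rw [Fin.snoc_castSucc]

end

end Pool.Agent.W877.UF
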