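import Mathlib
import Pool.Agent.W877.UF.Arith

/-!
The dichotomy, conclusion.
-/

set_option autoImplicit false

namespace Pool.Agent.W877.UF

open Pool.Agent.W137.UF

theorem nu_cases {X : Type} {R : Ar X} (h : R.Ax) (hI : R.Ind) {x : X} (hx : R.B x) :
    (nu R x = 0 → x = R.z) ∧ (∀ n, nu R x = n + 1 → ∃ x0, R.B x0 ∧ R.s x0 x ∧ nu R x0 = n) := by
  have h1 := nu_reach hI hx
  generalize hn : nu R x = n at h1
  cases h1 with
  | zero => exact ⟨fun _ => rfl, fun n hn => absurd hn (by omega)⟩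
  | @succ i x0 _ h0 h1 h2 h3 =>
    refine ⟨fun h => absurd h (by omega), fun n hn => ⟨x0, h1, h3, ?_⟩⟩
    rw [nu_eq h hI h0]
    omega

theorem nu_true {X : Type} {R : Ar X} (h : R.Ax) (hI : R.Ind) {N : ℕ} {β : ℕ → X}
    (hT : IsTrue R N β) : ∀ i, i ≤ N → nu R (β i) = i := by
  intro i
  induction i with
  | zero => intro _; rw [← hT.2.2.1]; exact nu_zero h hI
  | succ i ih =>
    intro hi
    have hb : R.B (β i) := (hT.2.1 _).2 ⟨i, by omega, rfl⟩
    have hb' : R.B (β (i + 1)) := (hT.2.1 _).2 ⟨i + 1, hi, rfl⟩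
    rw [nu_succ h hI hb hb' ((hT.2.2.2.1 i (i + 1) (by omega) hi).2 rfl), ih (by omega)]

section
variable {p : ℕ} [Fact p.Prime] {I : ℕ → List (K p) → Prop} {Sg : Set (ℕ × ℕ)}
variable {α : Fm} {r : ℕ}

theorem goodT0 : Good (TT0 p) := by
  have hp := pth p
  exact goodT p hp (as_stm p hp) (dec p hp) (grp p)

theorem codT (P : Finset (K p)) (S : Set (K p)) : ∃ c y : K p, ∀ b ∈ P,
    (Th (TT0 p) c y b ↔ b ∈ S) := by
  obtain ⟨G, hG⟩ := grp p (TT0 p)
  have ht : Good (TT0 p) := goodT0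
  obtain ⟨c, y, h⟩ := cod p G (fun h => ht.1 ((hG 1).1 h))
    (fun x => by
      obtain ⟨k, hk, hk'⟩ := ht.2 x
      exact ⟨k, hk, (hG _).2 hk'⟩) P S
  refine ⟨c, y, fun b hb => ?_⟩
  rw [h b hb]
  unfold Th
  constructor
  · rintro ⟨u, hu1, hu2⟩
    exact ⟨u, hu1, fun h => hu2 ((hG u).1 h)⟩
  · rintro ⟨u, hu1, hu2⟩
    exact ⟨u, hu1, fun h => hu2 ((hG u).2 h)⟩

theorem indOf {w : Fin (10 + r) → K p} (h : Vd I α r w) : (SR I α r w).Ind :=
  rcs p (Pool.Agent.W933.UF.finB p) (cod p) (grp p) _ _ h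

theorem axOf {w : Fin (10 + r) → K p} (h : Vd I α r w) : (SR I α r w).Ax := h.2.2.2.1

theorem finOf {w : Fin (10 + r) → K p} (h : Vd I α r w) :
    ∃ B : Finset (K p), ∀ x, x ∈ B ↔ (SR I α r w).B x := by
  have := Pool.Agent.W933.UF.finB p (Da I α (gq r w)) _ _ h.2.1 h.2.2.1
  exact ⟨this.toFinset, fun x => by rw [Set.Finite.mem_toFinset]; exact Iff.rfl⟩

theorem eqv_sound {w w' : Fin (10 + r) → K p} (hv : Vd I α r w) (hv' : Vd I α r w') {a a' : K p}
    (ha : (SR I α r w).B a) (ha' : (SR I α r w').B a') (h : Eqv I α r w w' a a') :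
    nu (SR I α r w) a = nu (SR I α r w') a' := by
  obtain ⟨c, y, h1, h2⟩ := h
  have key : ∀ n : ℕ, ∀ x x', (SR I α r w).B x → (SR I α r w').B x' →
      Th (qq r w' 0) c y (J (qq r w' 0) x x') → nu (SR I α r w) x = n →
        nu (SR I α r w') x' = n := by
    intro n
    induction n with
    | zero =>
      intro x x' hx hx' ht hn
      rcases h1 x x' hx hx' ht with ⟨_, h4⟩ | ⟨x0, x0', g1, g2, g3, g4, g5⟩
      · rw [h4]; exact nu_zero (axOf hv') (indOf hv')
      · rw [nu_succ (axOf hv) (indOf hv) g1 hx g3] at hn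
        omega
    | succ n ih =>
      intro x x' hx hx' ht hn
      rcases h1 x x' hx hx' ht with ⟨h3, h4⟩ | ⟨x0, x0', g1, g2, g3, g4, g5⟩
      · rw [h3, nu_zero (axOf hv) (indOf hv)] at hn
        omega
      · rw [nu_succ (axOf hv) (indOf hv) g1 hx g3] at hn
        rw [nu_succ (axOf hv') (indOf hv') g2 hx' g4, ih x0 x0' g1 g2 g5 (by omega)]
  exact (key _ a a' ha ha' h2 rfl).symm

theorem eqv_complete {w w' : Fin (10 + r) → K p} (hv : Vd I α r w) (hv' : Vd I α r w')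
    (hq : qq r w' 0 = TT0 p) {a a' : K p}
    (ha : (SR I α r w).B a) (ha' : (SR I α r w').B a')
    (h : nu (SR I α r w) a = nu (SR I α r w') a') : Eqv I α r w w' a a' := by
  classical
  obtain ⟨B, hB⟩ := finOf hv
  obtain ⟨B', hB'⟩ := finOf hv'
  obtain ⟨c, y, hc⟩ := codT ((B ×ˢ B').image (fun z => J (TT0 p) z.1 z.2))
    {z | ∃ x x', (SR I α r w).B x ∧ (SR I α r w').B x' ∧
      nu (SR I α r w) x = nu (SR I α r w') x' ∧ z = J (TT0 p) x x'}
  have key : ∀ x x', (SR I α r w).B x → (SR I α r w').B x' →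
      (Th (qq r w' 0) c y (J (qq r w' 0) x x') ↔
        nu (SR I α r w) x = nu (SR I α r w') x') := by
    intro x x' hx hx'
    rw [hq, hc _ (Finset.mem_image.2 ⟨(x, x'), Finset.mem_product.2
      ⟨(hB x).2 hx, (hB' x').2 hx'⟩, rfl⟩)]
    constructor
    · rintro ⟨x1, x1', _, _, g3, g4⟩
      obtain ⟨e1, e2⟩ := jinj p (pth p) _ _ _ _ g4
      have e1' : x = x1 := e1
      have e2' : x' = x1' := e2
      rw [e1', e2']
      exact g3
    · intro g
      exact ⟨x, x', hx, hx', g, rfl⟩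
  refine ⟨c, y, fun x x' hx hx' ht => ?_, (key a a' ha ha').2 h⟩
  have hn := (key x x' hx hx').1 ht
  rcases Nat.eq_zero_or_pos (nu (SR I α r w) x) with h0 | h0
  · left
    exact ⟨(nu_cases (axOf hv) (indOf hv) hx).1 h0,
      (nu_cases (axOf hv') (indOf hv') hx').1 (by omega)⟩
  · right
    obtain ⟨n, hn1⟩ : ∃ n, nu (SR I α r w) x = n + 1 := ⟨_, (Nat.succ_pred_eq_of_pos h0).symm⟩
    obtain ⟨x0, g1, g2, g3⟩ := (nu_cases (axOf hv) (indOf hv) hx).2 n hn1
    obtain ⟨x0', k1, k2, k3⟩ := (nu_cases (axOf hv') (indOf hv') hx').2 n (by omega)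
    exact ⟨x0, x0', g1, k1, g2, k2, (key x0 x0' g1 k1).2 (by rw [g3, k3])⟩

variable (hbig : ∀ N : ℕ, ∃ w, Vd I α r w ∧ qq r w 0 = TT0 p ∧
  ∃ N', N ≤ N' ∧ ∃ β, IsTrue (SR I α r w) N' β)

include hbig in
theorem TR_truth {n : ℕ} (φ : AF n) : ∀ (W : Fin n → Fin (10 + r) → K p) (A : Fin n → K p),
    (∀ i, Vd I α r (W i)) → (∀ i, (SR I α r (W i)).B (A i)) →
    (TR I α r φ W A ↔ φ.Holds (fun i => nu (SR I α r (W i)) (A i))) := by
  induction φ with
  | add i j k =>
    intro W A hW hA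
    simp only [TR, AF.Holds]
    constructor
    · rintro ⟨w, hw, b1, b2, b3, g1, g2, g3, e1, e2, e3, g4⟩
      rw [eqv_sound (hW i) hw (hA i) g1 e1, eqv_sound (hW j) hw (hA j) g2 e2,
        eqv_sound (hW k) hw (hA k) g3 e3]
      exact nu_add (axOf hw) (indOf hw) (nu_reach (indOf hw) g2) b1 b3 g1 g3 g4
    · intro h
      obtain ⟨w, hw, hq, N', hN', β, hT⟩ := hbig (nu (SR I α r (W k)) (A k))
      have hβ : ∀ i, i ≤ N' → (SR I α r w).B (β i) := fun i hi => (hT.2.1 _).2 ⟨i, hi, rfl⟩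
      have hn := nu_true (axOf hw) (indOf hw) hT
      have l3 : nu (SR I α r (W k)) (A k) ≤ N' := hN'
      have l1 : nu (SR I α r (W i)) (A i) ≤ N' := by omega
      have l2 : nu (SR I α r (W j)) (A j) ≤ N' := by omega
      refine ⟨w, hw, _, _, _, hβ _ l1, hβ _ l2, hβ _ l3,
        eqv_complete (hW i) hw hq (hA i) (hβ _ l1) (hn _ l1).symm,
        eqv_complete (hW j) hw hq (hA j) (hβ _ l2) (hn _ l2).symm,
        eqv_complete (hW k) hw hq (hA k) (hβ _ l3) (hn _ l3).symm,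
        (hT.2.2.2.2.1 _ _ _ l1 l2 l3).2 h⟩
  | mul i j k =>
    intro W A hW hA
    simp only [TR, AF.Holds]
    constructor
    · rintro ⟨w, hw, b1, b2, b3, g1, g2, g3, e1, e2, e3, g4⟩
      rw [eqv_sound (hW i) hw (hA i) g1 e1, eqv_sound (hW j) hw (hA j) g2 e2,
        eqv_sound (hW k) hw (hA k) g3 e3]
      exact nu_mul (axOf hw) (indOf hw) (nu_reach (indOf hw) g2) b1 b3 g1 g3 g4
    · intro h
      obtain ⟨w, hw, hq, N', hN', β, hT⟩ := hbig (nu (SR I α r (W i)) (A i) +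
        nu (SR I α r (W j)) (A j) + nu (SR I α r (W k)) (A k))
      have hβ : ∀ i, i ≤ N' → (SR I α r w).B (β i) := fun i hi => (hT.2.1 _).2 ⟨i, hi, rfl⟩
      have hn := nu_true (axOf hw) (indOf hw) hT
      have l3 : nu (SR I α r (W k)) (A k) ≤ N' := by omega
      have l1 : nu (SR I α r (W i)) (A i) ≤ N' := by omega
      have l2 : nu (SR I α r (W j)) (A j) ≤ N' := by omega
      refine ⟨w, hw, _, _, _, hβ _ l1, hβ _ l2, hβ _ l3,
        eqv_complete (hW i) hw hq (hA i) (hβ _ l1) (hn _ l1).symm,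
        eqv_complete (hW j) hw hq (hA j) (hβ _ l2) (hn _ l2).symm,
        eqv_complete (hW k) hw hq (hA k) (hβ _ l3) (hn _ l3).symm,
        (hT.2.2.2.2.2 _ _ _ l1 l2 l3).2 h⟩
  | not φ ih =>
    intro W A hW hA
    simp only [TR, AF.Holds]
    rw [ih W A hW hA]
  | and φ ψ ih1 ih2 =>
    intro W A hW hA
    simp only [TR, AF.Holds]
    rw [ih1 W A hW hA, ih2 W A hW hA]
  | @ex n φ ih =>
    intro W A hW hA
    simp only [TR, AF.Holds]
    have hsn : ∀ w a, (fun i => nu (SR I α r (Fin.snoc (α := fun _ => Fin (10 + r) → K p) W w i))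
        (Fin.snoc (α := fun _ => K p) A a i)) = Fin.snoc (α := fun _ => ℕ)
        (fun i => nu (SR I α r (W i)) (A i)) (nu (SR I α r w) a) := by
      intro w a
      funext i
      refine Fin.lastCases ?_ (fun i => ?_) i
      · rw [Fin.snoc_last, Fin.snoc_last, Fin.snoc_last]
      · rw [Fin.snoc_castSucc, Fin.snoc_castSucc, Fin.snoc_castSucc]
    have hV : ∀ w, Vd I α r w → ∀ i,
        Vd I α r (Fin.snoc (α := fun _ => Fin (10 + r) → K p) W w i) := by
      intro w hw i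
      refine Fin.lastCases ?_ (fun i => ?_) i
      · rw [Fin.snoc_last]; exact hw
      · rw [Fin.snoc_castSucc]; exact hW i
    have hB : ∀ w a, (SR I α r w).B a → ∀ i,
        (SR I α r (Fin.snoc (α := fun _ => Fin (10 + r) → K p) W w i)).B
          (Fin.snoc (α := fun _ => K p) A a i) := by
      intro w a ha i
      refine Fin.lastCases ?_ (fun i => ?_) i
      · rw [Fin.snoc_last, Fin.snoc_last]; exact ha
      · rw [Fin.snoc_castSucc, Fin.snoc_castSucc]; exact hA i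
    constructor
    · rintro ⟨w, hw, a, ha, h⟩
      rw [ih _ _ (hV w hw) (hB w a ha), hsn] at h
      exact ⟨_, h⟩
    · rintro ⟨x, hx⟩
      obtain ⟨w, hw, hq, N', hN', β, hT⟩ := hbig x
      have hn := nu_true (axOf hw) (indOf hw) hT x hN'
      have hb : (SR I α r w).B (β x) := (hT.2.1 _).2 ⟨x, hN', rfl⟩
      refine ⟨w, hw, β x, hb, ?_⟩
      rw [ih _ _ (hV w hw) (hB w _ hb), hsn, hn]
      exact hx

end

/-- Either the number of isolated points is bounded in every definable family, or every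
arithmetical set is many-one reducible to the theory. -/
theorem dichotomy (p : ℕ) [Fact p.Prime] (I : ℕ → List (K p) → Prop) (Sg : Set (ℕ × ℕ)) :
    (∀ α : Fm, α.syms ⊆ Sg → ∃ N : ℕ, ∀ s : ℕ → K p,
      {x | Isolated (fun y => α.Sat I (Function.update s 0 y)) x}.encard ≤ N) ∨
    (∀ φ : AF 1, ∃ F : ℕ → Fm, Computable (fun e => (F e).code) ∧ ∀ e, (F e).fv = ∅ ∧
      (F e).syms ⊆ Sg ∧ ((F e).Sat I (fun _ => 0) ↔ φ.Holds (fun _ => e))) := by
  classical
  by_cases hcon : ∀ α : Fm, α.syms ⊆ Sg → ∃ N : ℕ, ∀ s : ℕ → K p,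
      {x | Isolated (fun y => α.Sat I (Function.update s 0 y)) x}.encard ≤ N
  · exact Or.inl hcon
  right
  push Not at hcon
  obtain ⟨α, hα, hcon⟩ := hcon
  obtain ⟨r, hr⟩ := α.fv_bdd
  have hbig : ∀ N : ℕ, ∃ w, Vd I α r w ∧ qq r w 0 = TT0 p ∧
      ∃ N', N ≤ N' ∧ ∃ β, IsTrue (SR I α r w) N' β := by
    intro N
    obtain ⟨s, hs⟩ := hcon N
    obtain ⟨F, hFsub, hFcard⟩ : ∃ F : Finset (K p),
        (∀ x ∈ F, Isolated (fun y => α.Sat I (Function.update s 0 y)) x) ∧
          N + 1 ≤ F.card := by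
      obtain ⟨t, ht, hte⟩ := Set.exists_subset_encard_eq (Order.add_one_le_of_lt hs)
      have hfin : t.Finite := by
        rw [← Set.encard_lt_top_iff, hte]
        exact_mod_cast ENat.natCast_lt_top (N + 1)
      refine ⟨hfin.toFinset, fun x hx => ht (hfin.mem_toFinset.mp hx), ?_⟩
      rw [hfin.encard_eq_coe_toFinset_card] at hte
      have : hfin.toFinset.card = N + 1 := by exact_mod_cast hte
      omega
    have hp := pth p
    obtain ⟨N', hN', q₀, β, hq0, hG, hm, hn, hT⟩ := rcc2 p (Pool.Agent.W933.UF.finB p) (big p)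
      (cod p) (grp p) (jinj p hp) goodT0 _ F N hFsub hFcard
    have eq : qq r (Fin.append q₀ (fun i : Fin r => s i)) = q₀ := by
      funext i
      simp only [qq]
      rw [Fin.append_left]
    have eD : Da I α (gq r (Fin.append q₀ (fun i : Fin r => s i))) =
        fun y => α.Sat I (Function.update s 0 y) := by
      funext x
      refine propext (Fm.sat_congr I α fun i hi => ?_)
      by_cases h0 : i = 0
      · subst h0; simp
      · rw [Function.update_of_ne h0, Function.update_of_ne h0]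
        simp only [gq]
        rw [dif_pos (hr i hi), Fin.append_right]
    have hT' : IsTrue (SR I α r (Fin.append q₀ (fun i : Fin r => s i))) N' β := by
      unfold SR
      rw [eq, eD]
      exact hT
    have hAx := cpl_ax hT'
    have hInd := cpl_ind hT'
    refine ⟨Fin.append q₀ (fun i : Fin r => s i), ⟨?_, ?_, ?_, hAx, ?_⟩, by rw [eq]; exact hq0,
      N', hN', β, hT'⟩
    · rw [eq]; exact hG
    · rw [eq]; exact hm
    · rw [eq]; exact hn
    · intro c y hz hst x hx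
      exact hInd (Th (qq r (Fin.append q₀ (fun i : Fin r => s i)) 0) c y) hz hst x hx
  intro φ
  have hid : ∀ i, TT (10 + r) (fun v : Fin (10 + r) → K p => v i) := fun i => TT.var i
  have hid1 := fun i => (hid i).weak
  have hid2 := fun i => (hid1 i).weak
  obtain ⟨St, s1, s2, s3⟩ := dV' (I := I) α hα hid
  obtain ⟨Ze, z1, z2, z3⟩ := DD.eq (I := I) (Sg := Sg) TT.last (tq hid1 3)
  obtain ⟨Ph, f1, f2, f3⟩ := (dB' (I := I) α hα hid1 TT.last).and
    (dTR (I := I) α hα φ (W := fun v _ => Fin.init v) (A := fun v _ => v (Fin.last _))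
      (fun _ j => hid1 j) (fun _ => TT.last))
  obtain ⟨Sc, c1, c2, c3⟩ := (dB' (I := I) α hα hid2 TT.last.weak).and
    ((dB' α hα hid2 TT.last).and (dS' α hid2 TT.last.weak TT.last))
  refine ⟨fin (10 + r) St Ze Sc Ph, cmp _ _ _ _ _, fun e => ?_⟩
  have hfv := fv_stm (10 + r) St Ze Sc Ph Sg s1 z1 c1 f1 s2 z2 c2 f2 e
  refine ⟨hfv.1, hfv.2, ?_⟩
  rw [sat_stm p I (10 + r) St Ze Sc Ph (fun v => Vd I α r v) (fun v x => x = (SR I α r v).z)
    (fun v x => (SR I α r v).B x ∧ TR I α r φ (fun _ => v) (fun _ => x))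
    (fun v x y => (SR I α r v).B x ∧ (SR I α r v).B y ∧ (SR I α r v).s x y)
    (fun s => s3 s) ?_ ?_ ?_ e (fun _ => 0)]
  · constructor
    · rintro ⟨v, hv, a, ha0, hsc, hB, hTR⟩
      have hai : ∀ i, i ≤ e → nu (SR I α r v) (a i) = i := by
        intro i
        induction i with
        | zero => intro _; rw [ha0]; exact nu_zero (axOf hv) (indOf hv)
        | succ i ih =>
          intro hi
          have h1 := hsc i (by omega)
          rw [nu_succ (axOf hv) (indOf hv) h1.1 h1.2.1 h1.2.2, ih (by omega)]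
      rw [TR_truth hbig φ _ _ (fun _ => hv) (fun _ => hB)] at hTR
      simpa only [hai e le_rfl] using hTR
    · intro h
      obtain ⟨w, hw, hq, N', hN', β, hT⟩ := hbig e
      have hb : ∀ i, i ≤ N' → (SR I α r w).B (β i) := fun i hi => (hT.2.1 _).2 ⟨i, hi, rfl⟩
      refine ⟨w, hw, β, hT.2.2.1.symm, fun i hi => ⟨hb _ (by omega), hb _ (by omega),
        (hT.2.2.2.1 i (i + 1) (by omega) (by omega)).2 rfl⟩, hb _ hN', ?_⟩
      rw [TR_truth hbig φ _ _ (fun _ => hw) (fun _ => hb _ hN')]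
      simpa only [nu_true (axOf hw) (indOf hw) hT e hN'] using h
  · intro s
    rw [z3 s]
    beta_reduce
    rw [init_restrict]
    simp [SR, Rc]
  · intro s
    rw [f3 s]
    beta_reduce
    rw [init_restrict]
    simp
  · intro s
    rw [c3 s]
    beta_reduce
    rw [init_restrict, init_restrict]
    simp

end Pool.Agent.W877.UF
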