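import Mathlib
import Pool.Agent.W877.UF.Arith2

/-!
The two alternatives, and the final statement.
-/

set_option autoImplicit false

namespace Pool.Agent.W877.UF

section
variable {p : ℕ} [Fact p.Prime]

/-- Tameness of the structure with the relations `I` (symbols in `Sg`): in every definable family
(parameters `s`) of subsets of a cartesian power of the field the number of isolated points is
bounded, and in every definable family of correspondences (relations between `m`-tuples and
`k`-tuples) with finite fibres which are locally constant on their domain the images are finite of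
bounded size. -/
def Tame (I : ℕ → List (K p) → Prop) (Sg : Set (ℕ × ℕ)) : Prop :=
  (∀ (n : ℕ) (α : Fm), α.syms ⊆ Sg → ∃ N : ℕ, ∀ s : ℕ → K p,
    {v : Fin n → K p | IsolatedN (fun v' => α.Sat I (asg n s v')) v}.encard ≤ N) ∧
  (∀ (m k : ℕ) (β : Fm), β.syms ⊆ Sg → ∃ N : ℕ, ∀ s : ℕ → K p,
    (∀ x, {y | RR I β m k s x y}.Finite) →
    (∀ x y, RR I β m k s x y → ∃ l : ℤ, ∀ x' y',
      (∀ j, ∀ i : ℤ, i < l → (x' j).coeff i = (x j).coeff i) → RR I β m k s x' y' →
        ∀ z, (RR I β m k s x' z ↔ RR I β m k s x z)) →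
    {y | ∃ x, RR I β m k s x y}.encard ≤ N)

/-- Every arithmetical set of natural numbers is many-one reducible to the theory: for each
arithmetical formula `φ` there is a computable map from numbers `e` to (Goedel numbers of)
sentences `F e` such that `F e` is true in the structure if and only if `φ` holds for `e`. -/
def ArithReduces (I : ℕ → List (K p) → Prop) (Sg : Set (ℕ × ℕ)) : Prop :=
  ∀ φ : AF 1, ∃ F : ℕ → Fm, Computable (fun e => (F e).code) ∧ ∀ e, (F e).fv = ∅ ∧
    (F e).syms ⊆ Sg ∧ ((F e).Sat I (fun _ => 0) ↔ φ.Holds (fun _ => e))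

theorem tame_of {I : ℕ → List (K p) → Prop} {Sg : Set (ℕ × ℕ)}
    (hM : ∀ α : Fm, α.syms ⊆ Sg → ∃ N : ℕ, ∀ s : ℕ → K p,
      {x | Isolated (fun y => α.Sat I (Function.update s 0 y)) x}.encard ≤ N) : Tame I Sg :=
  ⟨fun n α hα => main_pow_of (pth p) I Sg hM n α hα,
    fun m k β hβ => loc_bound_of (pth p) hM m k β hβ⟩

theorem final (I : ℕ → List (K p) → Prop) (Sg : Set (ℕ × ℕ)) :
    (Tame I Sg ∨ ArithReduces I Sg) ∧ (DecidableTheory I Sg → Tame I Sg) ∧
    (∀ k n : ℕ, (k, n) ∈ Sg →
      {v : Fin n → K p | IsolatedN (fun v' => I k (List.ofFn v')) v}.Infinite →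
      ArithReduces I Sg ∧ ¬ DecidableTheory I Sg) := by
  refine ⟨?_, fun h => tame_of (mainAll p I Sg h), fun k n hk hinf => ⟨?_,
    discrete_undecidableN (mainAll p) (pth p) k n hk hinf⟩⟩
  · rcases dichotomy p I Sg with h | h
    · exact Or.inl (tame_of h)
    · exact Or.inr h
  · rcases dichotomy p I Sg with h | h
    · exact (discrete_unbounded (pth p) h k n hk hinf).elim
    · exact h

end

end Pool.Agent.W877.UF
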