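import Pool.Agent.W877.UF.Stm2

/-!
Induction over coded sets gives induction over all sets.
-/

set_option autoImplicit false

namespace Pool.Agent.W877.UF

theorem rcs (p : ℕ) [Fact p.Prime] (hf : StmFin p) (hc : StmCod p) (hg : StmGrp p) :
    StmRcS p := by
  intro D q hq Z hZ0 hZs x hx
  obtain ⟨hgood, hq1, hq2, hax, hind⟩ := hq
  have hfin : {x | BB D (q 1) (q 2) x}.Finite := hf D (q 1) (q 2) hq1 hq2
  obtain ⟨G, hG⟩ := hg (q 0)
  have h1 : (1 : K p) ∉ G := fun h => hgood.1 ((hG 1).1 h)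
  have h2 : ∀ x : K p, ∃ k : ℕ, k < p ∧ x - (k : K p) ∈ G := by
    intro x
    obtain ⟨k, hk, hk'⟩ := hgood.2 x
    exact ⟨k, hk, (hG _).2 hk'⟩
  obtain ⟨c, y, hcy⟩ := hc G h1 h2 hfin.toFinset {x | Z x}
  have key : ∀ b, (Rc D q).B b → (Z b ↔ Th (q 0) c y b) := by
    intro b hb
    have hb' : b ∈ hfin.toFinset := by
      rw [Set.Finite.mem_toFinset]
      exact hb
    have h := hcy b hb'
    constructor
    · intro hz
      obtain ⟨u, hu, hu'⟩ := h.1 hz
      exact ⟨u, hu, fun hh => hu' ((hG u).2 hh)⟩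
    · rintro ⟨u, hu, hu'⟩
      exact h.2 ⟨u, hu, fun hh => hu' ((hG u).1 hh)⟩
  have hz : (Rc D q).B (Rc D q).z := hax.1
  have := hind c y ((key _ hz).1 hZ0) (fun x x' hx hx' hT hs =>
    (key x' hx').1 (hZs x x' hx hx' ((key x hx).2 hT) hs)) x hx
  exact (key x hx).2 this

end Pool.Agent.W877.UF
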